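import Pool.Agent.H64.Bohr.Basic

/-!
Invariant means on abelian groups: existence, ergodic (extreme) means.
-/

namespace Pool.Agent.H64.Bohr

open scoped ComplexOrder ComplexConjugate
open Filter Topology

noncomputable section

variable {G : Type*} [AddCommGroup G]

namespace Bf

/-- translate -/
def sh (k : G) (F : Bf G) : Bf G := F.comp (fun x => x + k)

@[simp] lemma sh_apply (k : G) (F : Bf G) (x : G) : F.sh k x = F (x + k) := rfl

end Bf

namespace Mn

/-- translation invariance -/
def Inv (m : Mn G) : Prop := ∀ (k : G) (F : Bf G), m (F.sh k) = m F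

end Mn

/-- average of a function along a list of directions -/
def avl (N : ℕ) : List G → (G → ℂ) → (G → ℂ)
  | [], F => F
  | g :: l, F => fun x => (N : ℂ)⁻¹ * ∑ n ∈ Finset.range N, avl N l F (x + n • g)

lemma avl_bound (N : ℕ) (hN : 0 < N) (l : List G) (F : G → ℂ) (C : ℝ) (h : ∀ x, ‖F x‖ ≤ C) :
    ∀ x, ‖avl N l F x‖ ≤ C := by
  induction l with
  | nil => exact h
  | cons g l ih =>
    intro x
    have hN' : (0:ℝ) < N := by exact_mod_cast hN
    simp only [avl, norm_mul, norm_inv, Complex.norm_natCast]
    rw [inv_mul_le_iff₀ hN']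
    calc ‖∑ n ∈ Finset.range N, avl N l F (x + n • g)‖
        ≤ ∑ n ∈ Finset.range N, ‖avl N l F (x + n • g)‖ := norm_sum_le _ _
      _ ≤ ∑ n ∈ Finset.range N, C := Finset.sum_le_sum (fun n _ => ih _)
      _ = N * C := by simp

lemma avl_add (N : ℕ) (l : List G) (F F' : G → ℂ) (x : G) :
    avl N l (fun y => F y + F' y) x = avl N l F x + avl N l F' x := by
  induction l generalizing x with
  | nil => rfl
  | cons g l ih =>
    simp only [avl, ih, Finset.sum_add_distrib, mul_add]

lemma avl_smul (N : ℕ) (l : List G) (c : ℂ) (F : G → ℂ) (x : G) :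
    avl N l (fun y => c * F y) x = c * avl N l F x := by
  induction l generalizing x with
  | nil => rfl
  | cons g l ih =>
    simp only [avl, ih, ← Finset.mul_sum]
    ring

lemma avl_one (N : ℕ) (hN : 0 < N) (l : List G) (x : G) :
    avl N l (fun _ => 1) x = 1 := by
  induction l generalizing x with
  | nil => rfl
  | cons g l ih =>
    have hN' : (N:ℂ) ≠ 0 := by exact_mod_cast hN.ne'
    simp only [avl, ih]
    simp [hN']

lemma avl_nonneg (N : ℕ) (l : List G) (F : G → ℂ) (h : ∀ x, 0 ≤ F x) (x : G) :
    0 ≤ avl N l F x := by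
  induction l generalizing x with
  | nil => exact h x
  | cons g l ih =>
    simp only [avl]
    apply mul_nonneg
    · rw [inv_nonneg]; exact_mod_cast Nat.cast_nonneg (α := ℝ) N
    · exact Finset.sum_nonneg (fun n _ => ih _)

lemma avl_shift (N : ℕ) (l : List G) (F : G → ℂ) (k : G) (x : G) :
    avl N l (fun y => F (y + k)) x = avl N l F (x + k) := by
  induction l generalizing x with
  | nil => rfl
  | cons g l ih =>
    simp only [avl, ih]
    congr 1
    apply Finset.sum_congr rfl
    intro n _
    congr 1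
    abel

lemma avl_almost (N : ℕ) (hN : 0 < N) (l : List G) (F : G → ℂ) (C : ℝ) (h : ∀ x, ‖F x‖ ≤ C)
    (k : G) (hk : k ∈ l) :
    ∀ x, ‖avl N l (fun y => F (y + k)) x - avl N l F x‖ ≤ 2 * C / N := by
  have hN' : (0:ℝ) < N := by exact_mod_cast hN
  induction l with
  | nil => simp at hk
  | cons g l ih =>
    intro x
    rcases List.mem_cons.1 hk with rfl | hk
    · simp only [avl, avl_shift]
      have : ∀ n : ℕ, x + n • k + k = x + (n+1) • k := by
        intro n; rw [add_smul, one_smul, add_assoc]
      simp only [this]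
      rw [← mul_sub, ← Finset.sum_sub_distrib, Finset.sum_range_sub (fun n => avl N l F (x + n • k)),
        norm_mul, norm_inv, Complex.norm_natCast, inv_mul_eq_div]
      gcongr
      calc _ ≤ _ := norm_sub_le _ _
        _ ≤ C + C := add_le_add (avl_bound N hN l F C h _) (avl_bound N hN l F C h _)
        _ = 2 * C := by ring
    · simp only [avl]
      rw [← mul_sub, ← Finset.sum_sub_distrib, norm_mul, norm_inv, Complex.norm_natCast,
        inv_mul_le_iff₀ hN']
      calc _ ≤ ∑ n ∈ Finset.range N, ‖avl N l (fun y => F (y + k)) (x + n • g) - avl N l F (x + n • g)‖ :=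
            norm_sum_le _ _
        _ ≤ ∑ n ∈ Finset.range N, (2 * C / N) := Finset.sum_le_sum (fun n _ => ih hk _)
        _ = _ := by simp

/-- every abelian group has an invariant mean -/
theorem exists_inv_mean (G : Type*) [AddCommGroup G] : ∃ m : Mn G, m.Inv := by
  classical
  let U : Ultrafilter (Finset G × ℕ) := Ultrafilter.of atTop
  have hU : (U : Filter (Finset G × ℕ)) ≤ atTop := Ultrafilter.of_le _
  let a : Bf G → (Finset G × ℕ) → ℂ := fun F p => avl (p.2 + 1) p.1.toList F 0
  have hlim : ∀ F : Bf G, ∃ z, Tendsto (a F) U (𝓝 z) := by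
    intro F
    obtain ⟨C, hC0, hC⟩ := F.exists_bound
    have hcomp : IsCompact (Metric.closedBall (0:ℂ) C) := isCompact_closedBall _ _
    have h1 : ((U.map (a F) : Ultrafilter ℂ) : Filter ℂ) ≤ 𝓟 (Metric.closedBall (0:ℂ) C) := by
      rw [le_principal_iff]
      refine Filter.mem_map.2 (Filter.univ_mem' (fun p => ?_))
      simp only [Set.mem_preimage, mem_closedBall_zero_iff]
      exact avl_bound _ (Nat.succ_pos _) _ _ C hC 0
    obtain ⟨z, _, hz⟩ := hcomp.ultrafilter_le_nhds _ h1
    exact ⟨z, hz⟩
  choose L hL using hlim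
  refine ⟨⟨⟨⟨L, ?_⟩, ?_⟩, ?_, ?_⟩, ?_⟩
  · intro F F'
    refine tendsto_nhds_unique (hL _) (((hL F).add (hL F')).congr (fun p => ?_))
    exact (avl_add _ _ _ _ _).symm
  · intro c F
    refine tendsto_nhds_unique (hL _) (((hL F).const_mul c).congr (fun p => ?_))
    exact (avl_smul _ _ _ _ _).symm
  · intro F hF
    exact ge_of_tendsto (hL F) (Eventually.of_forall (fun p => avl_nonneg _ _ _ hF _))
  · refine tendsto_nhds_unique (hL 1) (tendsto_const_nhds.congr (fun p => ?_))
    exact (avl_one _ (Nat.succ_pos _) _ _).symm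
  · intro k F
    obtain ⟨C, hC0, hC⟩ := F.exists_bound
    show L (F.sh k) = L F
    have h0 : Tendsto (fun p => a (F.sh k) p - a F p) U (𝓝 0) := by
      have hN : Tendsto (fun p : Finset G × ℕ => 2 * C / ((p.2 + 1 : ℕ) : ℝ)) U (𝓝 0) := by
        have h2 : Tendsto (fun p : Finset G × ℕ => p.2 + 1) U atTop :=
          (tendsto_add_atTop_nat 1).comp
            ((Filter.tendsto_snd (f := (atTop : Filter (Finset G)))
              (g := (atTop : Filter ℕ))).mono_left (by rwa [prod_atTop_atTop_eq]))
        exact (tendsto_const_nhds.div_atTop tendsto_natCast_atTop_atTop).comp h2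
      apply squeeze_zero_norm' _ hN
      have hk : ∀ᶠ p : Finset G × ℕ in atTop, {k} ≤ p.1 := by
        filter_upwards [eventually_ge_atTop (({k} : Finset G), 0)] with p hp
        exact hp.1
      filter_upwards [hU hk] with p hp
      have hkp : k ∈ p.1.toList := by
        rw [Finset.mem_toList]
        exact hp (Finset.mem_singleton_self k)
      exact avl_almost (p.2 + 1) (Nat.succ_pos _) p.1.toList F C hC k hkp 0
    have h1 := (hL (F.sh k)).sub (hL F)
    have := tendsto_nhds_unique h1 h0
    exact sub_eq_zero.1 this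

end

end Pool.Agent.H64.Bohr
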