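import Mathlib

/-!
Bounded complex functions and means (positive normalised functionals) on them.
-/

namespace Pool.Agent.H64.Bohr

open scoped ComplexOrder ComplexConjugate

noncomputable section

/-- Bounded complex functions on `X`, as a star subalgebra of all functions. -/
def BfS (X : Type*) : StarSubalgebra ℂ (X → ℂ) where
  carrier := {F | ∃ C : ℝ, ∀ x, ‖F x‖ ≤ C}
  mul_mem' := by
    rintro a b ⟨C, hC⟩ ⟨D, hD⟩
    refine ⟨C * D, fun x => ?_⟩
    have h0 : 0 ≤ C := le_trans (norm_nonneg _) (hC x)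
    simpa using mul_le_mul (hC x) (hD x) (norm_nonneg _) h0
  add_mem' := by
    rintro a b ⟨C, hC⟩ ⟨D, hD⟩
    exact ⟨C + D, fun x => (norm_add_le _ _).trans (add_le_add (hC x) (hD x))⟩
  algebraMap_mem' := by
    intro r
    exact ⟨‖r‖, fun x => by simp⟩
  star_mem' := by
    rintro a ⟨C, hC⟩
    exact ⟨C, fun x => by simpa using hC x⟩

/-- Bounded complex functions on `X`. -/
def Bf (X : Type*) : Type _ := ↥(BfS X)

variable {X Y Z : Type*}

instance : CommRing (Bf X) := inferInstanceAs (CommRing ↥(BfS X))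
instance : Algebra ℂ (Bf X) := inferInstanceAs (Algebra ℂ ↥(BfS X))
instance : StarRing (Bf X) := inferInstanceAs (StarRing ↥(BfS X))
instance : StarModule ℂ (Bf X) := inferInstanceAs (StarModule ℂ ↥(BfS X))

/-- underlying function -/
def Bf.fn (F : Bf X) : X → ℂ := Subtype.val (show ↥(BfS X) from F)

instance : CoeFun (Bf X) (fun _ => X → ℂ) := ⟨Bf.fn⟩

namespace Bf

@[ext] lemma ext' {F G : Bf X} (h : ∀ x, F x = G x) : F = G := Subtype.ext (funext h)

/-- build an element -/
def mk' (F : X → ℂ) (C : ℝ) (h : ∀ x, ‖F x‖ ≤ C) : Bf X := ⟨F, C, h⟩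

@[simp] lemma mk'_apply (F : X → ℂ) (C : ℝ) (h : ∀ x, ‖F x‖ ≤ C) (x : X) : mk' F C h x = F x := rfl

@[simp] lemma mul_apply (F G : Bf X) (x : X) : (F * G) x = F x * G x := rfl
@[simp] lemma add_apply (F G : Bf X) (x : X) : (F + G) x = F x + G x := rfl
@[simp] lemma sub_apply (F G : Bf X) (x : X) : (F - G) x = F x - G x := rfl
@[simp] lemma neg_apply (F : Bf X) (x : X) : (-F) x = - F x := rfl
@[simp] lemma smul_apply (c : ℂ) (F : Bf X) (x : X) : (c • F) x = c * F x := rfl
@[simp] lemma one_apply (x : X) : (1 : Bf X) x = 1 := rfl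
@[simp] lemma zero_apply (x : X) : (0 : Bf X) x = 0 := rfl
@[simp] lemma star_apply (F : Bf X) (x : X) : (star F) x = conj (F x) := rfl
@[simp] lemma sum_apply {ι : Type*} (s : Finset ι) (F : ι → Bf X) (x : X) :
    (∑ i ∈ s, F i) x = ∑ i ∈ s, F i x := by
  classical
  induction s using Finset.induction_on with
  | empty => simp
  | insert a s ha ih => rw [Finset.sum_insert ha, Finset.sum_insert ha, add_apply, ih]
@[simp] lemma prod_apply {ι : Type*} (s : Finset ι) (F : ι → Bf X) (x : X) :
    (∏ i ∈ s, F i) x = ∏ i ∈ s, F i x := by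
  classical
  induction s using Finset.induction_on with
  | empty => simp
  | insert a s ha ih => rw [Finset.prod_insert ha, Finset.prod_insert ha, mul_apply, ih]
@[simp] lemma pow_apply (F : Bf X) (n : ℕ) (x : X) : (F ^ n) x = F x ^ n := rfl

lemma exists_bound (F : Bf X) : ∃ C : ℝ, 0 ≤ C ∧ ∀ x, ‖F x‖ ≤ C := by
  obtain ⟨C, hC⟩ := F.2
  exact ⟨max C 0, le_max_right _ _, fun x => (hC x).trans (le_max_left _ _)⟩

/-- composition -/
def comp (F : Bf Y) (p : X → Y) : Bf X := ⟨fun x => F (p x), by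
  obtain ⟨C, hC⟩ := F.2
  exact ⟨C, fun x => hC _⟩⟩

@[simp] lemma comp_apply (F : Bf Y) (p : X → Y) (x : X) : F.comp p x = F (p x) := rfl

/-- constant function -/
def const (X : Type*) (c : ℂ) : Bf X := c • (1 : Bf X)

@[simp] lemma const_apply (c : ℂ) (x : X) : const X c x = c := by simp [const]

/-- real part as bounded function -/
def rea (F : Bf X) : Bf X := (1/2 : ℂ) • (F + star F)

@[simp] lemma rea_apply (F : Bf X) (x : X) : rea F x = ((F x).re : ℂ) := by
  simp only [rea, smul_apply, add_apply, star_apply]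
  rw [Complex.re_eq_add_conj]; ring

/-- imaginary part as bounded function -/
def ima (F : Bf X) : Bf X := (-Complex.I/2 : ℂ) • (F - star F)

@[simp] lemma ima_apply (F : Bf X) (x : X) : ima F x = ((F x).im : ℂ) := by
  simp only [ima, smul_apply, sub_apply, star_apply]
  rw [Complex.im_eq_sub_conj]
  field_simp
  rw [Complex.I_sq]; ring

lemma eq_rea_add_ima (F : Bf X) : F = rea F + Complex.I • ima F := by
  ext x
  simp only [add_apply, smul_apply, rea_apply, ima_apply]
  rw [mul_comm]; exact (Complex.re_add_im _).symm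

end Bf

/-- A mean on `X`: a positive normalised linear functional on the bounded functions. -/
structure Mn (X : Type*) where
  lin : Bf X →ₗ[ℂ] ℂ
  nonneg' : ∀ F : Bf X, (∀ x, 0 ≤ F x) → 0 ≤ lin F
  one' : lin 1 = 1

instance : CoeFun (Mn X) (fun _ => Bf X → ℂ) := ⟨fun m => m.lin⟩

namespace Mn

variable (m : Mn X)

lemma map_smul' (c : ℂ) (F : Bf X) : m (c • F) = c * m F := by
  rw [map_smul, smul_eq_mul]

lemma const' (c : ℂ) : m (Bf.const X c) = c := by
  simp [Bf.const, m.one']

lemma real_of_real (F : Bf X) (h : ∀ x, (F x).im = 0) : (m F).im = 0 := by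
  obtain ⟨C, hC0, hC⟩ := F.exists_bound
  have h1 : 0 ≤ m (F + Bf.const X (C : ℂ)) := by
    apply m.nonneg'
    intro x
    rw [Bf.add_apply, Bf.const_apply, Complex.nonneg_iff]
    constructor
    · have := (Complex.abs_re_le_norm (F x)).trans (hC x)
      have := (abs_le.1 this).1
      simp; linarith
    · simp [h x]
  rw [map_add, m.const', Complex.nonneg_iff] at h1
  simpa using h1.2.symm

lemma re_nonneg (F : Bf X) (h : ∀ x, 0 ≤ (F x).re) : 0 ≤ (m F).re := by
  have h1 : 0 ≤ m F.rea := m.nonneg' _ (fun x => by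
    rw [Bf.rea_apply]; exact_mod_cast h x)
  have h2 : (m F.ima).im = 0 := m.real_of_real _ (fun x => by rw [Bf.ima_apply]; simp)
  have h3 : m F = m F.rea + Complex.I * m F.ima := by
    conv_lhs => rw [Bf.eq_rea_add_ima F]
    rw [map_add, map_smul, smul_eq_mul]
  rw [h3]
  simp only [Complex.add_re, Complex.mul_re, Complex.I_re, zero_mul, Complex.I_im, one_mul,
    zero_sub, h2, neg_zero, add_zero]
  exact (Complex.nonneg_iff.1 h1).1

lemma re_mono (F G : Bf X) (h : ∀ x, (F x).re ≤ (G x).re) : (m F).re ≤ (m G).re := by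
  have := m.re_nonneg (G - F) (fun x => by simpa using h x)
  rw [map_sub, Complex.sub_re] at this
  linarith

lemma star' (F : Bf X) : m (star F) = conj (m F) := by
  have h2 : (m F.ima).im = 0 := m.real_of_real _ (fun x => by rw [Bf.ima_apply]; simp)
  have h1 : (m F.rea).im = 0 := m.real_of_real _ (fun x => by rw [Bf.rea_apply]; simp)
  have h3 : m F = m F.rea + Complex.I * m F.ima := by
    conv_lhs => rw [Bf.eq_rea_add_ima F]
    rw [map_add, map_smul, smul_eq_mul]
  have h4 : star F = F.rea - Complex.I • F.ima := by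
    ext x
    simp only [Bf.star_apply, Bf.sub_apply, Bf.smul_apply, Bf.rea_apply, Bf.ima_apply]
    apply Complex.ext <;> simp
  rw [h4, h3, map_sub, map_smul, smul_eq_mul]
  apply Complex.ext <;> simp [h1, h2]

lemma norm_le_re (F G : Bf X) (h : ∀ x, ‖F x‖ ≤ (G x).re) : ‖m F‖ ≤ (m G).re := by
  obtain ⟨c, hc, hc2⟩ : ∃ c : ℂ, ‖c‖ ≤ 1 ∧ c * m F = ‖m F‖ := by
    by_cases h0 : m F = 0
    · exact ⟨0, by simp, by simp [h0]⟩
    · refine ⟨conj (m F) / ‖m F‖, ?_, ?_⟩
      · rw [norm_div]; simp [h0]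
      · have : (‖m F‖ : ℂ) ≠ 0 := by simpa using h0
        rw [div_mul_eq_mul_div, Complex.conj_mul', div_eq_iff this]; ring
  have h1 := m.re_mono (c • F) G (fun x => by
    rw [Bf.smul_apply]
    calc (c * F x).re ≤ ‖c * F x‖ := Complex.re_le_norm _
      _ = ‖c‖ * ‖F x‖ := norm_mul _ _
      _ ≤ 1 * ‖F x‖ := by gcongr
      _ ≤ _ := by rw [one_mul]; exact h x)
  rw [map_smul, smul_eq_mul, hc2] at h1
  simpa using h1

lemma norm_le (F : Bf X) (C : ℝ) (h : ∀ x, ‖F x‖ ≤ C) : ‖m F‖ ≤ C := by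
  have := m.norm_le_re F (Bf.const X (C : ℂ)) (fun x => by simpa using h x)
  simpa [m.const'] using this

/-- the square of the `L²` seminorm -/
def sq (F : Bf X) : ℝ := (m (F * star F)).re

lemma sq_nonneg (F : Bf X) : 0 ≤ m.sq F := by
  apply m.re_nonneg
  intro x
  simp only [Bf.mul_apply, Bf.star_apply, Complex.mul_conj]
  exact_mod_cast Complex.normSq_nonneg _

lemma mul_star_re (F : Bf X) (x : X) : ((F * star F) x).re = ‖F x‖ ^ 2 := by
  simp only [Bf.mul_apply, Bf.star_apply, Complex.mul_conj]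
  rw [Complex.normSq_eq_norm_sq]; norm_cast

lemma cs (F G : Bf X) : ‖m (F * G)‖ ^ 2 ≤ m.sq F * m.sq G := by
  have key : ∀ s : ℝ, 0 < s → 2 * s * ‖m (F * G)‖ ≤ s ^ 2 * m.sq F + m.sq G := by
    intro s hs
    have h := m.norm_le_re (((2 * s : ℝ) : ℂ) • (F * G))
      (((s ^ 2 : ℝ) : ℂ) • (F * star F) + G * star G) (fun x => by
        have e1 : (((((s ^ 2 : ℝ) : ℂ) • (F * star F) + G * star G) : Bf X) x).re
            = s ^ 2 * ‖F x‖ ^ 2 + ‖G x‖ ^ 2 := by
          rw [Bf.add_apply, Bf.smul_apply, Complex.add_re, Complex.re_ofReal_mul, mul_star_re,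
            mul_star_re]
        rw [e1, Bf.smul_apply, Bf.mul_apply, norm_mul, norm_mul, Complex.norm_real,
          Real.norm_of_nonneg (by positivity)]
        nlinarith [_root_.sq_nonneg (s * ‖F x‖ - ‖G x‖)])
    rw [map_smul, smul_eq_mul, norm_mul, Complex.norm_real, Real.norm_of_nonneg (by positivity),
      map_add, map_smul, smul_eq_mul, Complex.add_re, Complex.re_ofReal_mul] at h
    exact h
  have hA := m.sq_nonneg F
  have hB := m.sq_nonneg G
  have hc := norm_nonneg (m (F * G))
  have hd := discrim_le_zero (a := m.sq F) (b := -2 * ‖m (F * G)‖) (c := m.sq G) (fun s => by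
    rcases le_or_gt s 0 with h | h
    · have : 0 ≤ m.sq F * (s * s) := mul_nonneg hA (mul_self_nonneg s)
      have h2 : 0 ≤ -2 * ‖m (F * G)‖ * s := by nlinarith
      linarith
    · have := key s h
      nlinarith)
  rw [discrim] at hd
  nlinarith

lemma norm_sq_le_sq (F : Bf X) : ‖m F‖ ^ 2 ≤ m.sq F := by
  have := m.cs F 1
  have h1 : m.sq (1 : Bf X) = 1 := by
    have : (1 : Bf X) * star 1 = 1 := by ext x; simp
    rw [sq, this, m.one']; simp
  rwa [mul_one, h1, mul_one] at this

lemma sq_le (F : Bf X) (C : ℝ) (h : ∀ x, ‖F x‖ ^ 2 ≤ C) : m.sq F ≤ C := by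
  have := m.re_mono (F * star F) (Bf.const X (C : ℂ)) (fun x => by
    rw [mul_star_re]; simpa using h x)
  simpa [m.const', sq] using this

lemma sq_mono (F G : Bf X) (h : ∀ x, ‖F x‖ ≤ ‖G x‖) : m.sq F ≤ m.sq G := by
  apply m.re_mono
  intro x
  rw [mul_star_re, mul_star_re]
  gcongr
  exact h x

/-- pairs of nested means -/
def slice (m : Mn Y) (F : Bf (X × Y)) : Bf X :=
  ⟨fun x => m (F.comp (Prod.mk x)), by
    obtain ⟨C, hC0, hC⟩ := F.exists_bound
    exact ⟨C, fun x => m.norm_le _ _ (fun y => hC _)⟩⟩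

@[simp] lemma slice_apply (m : Mn Y) (F : Bf (X × Y)) (x : X) :
    slice m F x = m (F.comp (Prod.mk x)) := rfl

/-- iterated mean -/
def prod (W : Mn X) (m : Mn Y) : Mn (X × Y) where
  lin :=
    { toFun := fun F => W (slice m F)
      map_add' := by
        intro F G
        rw [← map_add]
        congr 1
        ext x
        simp only [slice_apply, Bf.add_apply]
        rw [← map_add]; rfl
      map_smul' := by
        intro c F
        rw [RingHom.id_apply, ← map_smul]
        congr 1
        ext x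
        simp only [slice_apply, Bf.smul_apply]
        rw [← smul_eq_mul, ← map_smul]; rfl }
  nonneg' := by
    intro F h
    apply W.nonneg'
    intro x
    exact m.nonneg' _ (fun y => h _)
  one' := by
    show W (slice m 1) = 1
    have : slice m (1 : Bf (X × Y)) = 1 := by
      ext x
      simp only [slice_apply, Bf.one_apply]
      have : (1 : Bf (X × Y)).comp (Prod.mk x) = 1 := by ext y; simp
      rw [this, m.one']
    rw [this, W.one']

lemma prod_apply (W : Mn X) (m : Mn Y) (F : Bf (X × Y)) :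
    (W.prod m) F = W (slice m F) := rfl

end Mn

end

end Pool.Agent.H64.Bohr
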