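import Pool.Agent.H64.Bohr.Kernel

/-!
Markov operators and a lower bound for products of smoothings.
-/

namespace Pool.Agent.H64.Bohr

open scoped ComplexOrder ComplexConjugate
open Filter Topology

noncomputable section

variable {G : Type*}

/-- a self-adjoint Markov operator -/
structure Mk (m : Mn G) where
  T : Bf G → Bf G
  L : G → Mn G
  hT : ∀ Φ x, T Φ x = L x Φ
  sa : ∀ Φ Ψ, m (T Φ * Ψ) = m (Φ * T Ψ)

/-- function with values in `[0,1]` -/
def In01 (f : Bf G) : Prop := ∀ x, 0 ≤ f x ∧ f x ≤ 1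

lemma In01.re {f : Bf G} (h : In01 f) (x : G) : 0 ≤ (f x).re ∧ (f x).re ≤ 1 ∧ f x = ((f x).re : ℂ) := by
  have h1 := Complex.nonneg_iff.1 (h x).1
  have h2 := (Complex.le_def.1 (h x).2).1
  refine ⟨h1.1, by simpa using h2, ?_⟩
  apply Complex.ext
  · simp
  · simp [← h1.2]

lemma In01.norm_le {f : Bf G} (h : In01 f) (x : G) : ‖f x‖ ≤ 1 := by
  obtain ⟨h1, h2, h3⟩ := h.re x
  rw [h3, Complex.norm_real, Real.norm_of_nonneg h1]
  exact h2

lemma Mn.in01 (m : Mn G) {f : Bf G} (h : In01 f) : 0 ≤ m f ∧ m f ≤ 1 := by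
  refine ⟨m.nonneg' f (fun x => (h x).1), ?_⟩
  have h1 := m.nonneg' (1 - f) (fun x => by
    rw [Bf.sub_apply, Bf.one_apply]; exact sub_nonneg.2 (h x).2)
  rw [map_sub, m.one'] at h1
  exact sub_nonneg.1 h1

lemma Mk.in01 {m : Mn G} (S : Mk m) {f : Bf G} (h : In01 f) : In01 (S.T f) := by
  intro x
  rw [S.hT]
  exact (S.L x).in01 h

/-- regularised inverse -/
def rinv (ε : ℝ) (hε : 0 < ε) (g : Bf G) (hg : In01 g) : Bf G :=
  Bf.mk' (fun x => (((g x).re + ε)⁻¹ : ℝ)) ε⁻¹ (fun x => by
    have := (hg.re x).1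
    rw [Complex.norm_real, Real.norm_of_nonneg (by positivity)]
    exact inv_anti₀ hε (by linarith))

@[simp] lemma rinv_apply (ε : ℝ) (hε : 0 < ε) (g : Bf G) (hg : In01 g) (x : G) :
    rinv ε hε g hg x = (((g x).re + ε)⁻¹ : ℝ) := rfl

lemma jensen_inv (L : Mn G) (ε : ℝ) (hε : 0 < ε) (g : Bf G) (hg : In01 g) :
    ((L g).re + ε)⁻¹ ≤ (L (rinv ε hε g hg)).re := by
  have h0 : 0 ≤ (L g).re := (Complex.nonneg_iff.1 (L.in01 hg).1).1
  set a := (L g).re + ε with ha
  have hapos : 0 < a := by linarith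
  have h1 := L.re_mono (Bf.const G ((2 / a : ℝ) : ℂ) - ((1 / a ^ 2 : ℝ) : ℂ) • (g + Bf.const G (ε : ℂ)))
    (rinv ε hε g hg) (fun x => by
      have hx := (hg.re x).1
      simp only [Bf.sub_apply, Bf.const_apply, Bf.smul_apply, Bf.add_apply, rinv_apply,
        Complex.sub_re, Complex.ofReal_re, Complex.re_ofReal_mul, Complex.add_re]
      have hpos : 0 < (g x).re + ε := by linarith
      rw [← sub_nonneg]
      have : ((g x).re + ε)⁻¹ - (2 / a - 1 / a ^ 2 * ((g x).re + ε)) =
          ((g x).re + ε - a) ^ 2 / (a ^ 2 * ((g x).re + ε)) := by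
        field_simp
        ring
      rw [this]
      positivity)
  rw [map_sub, L.const', L.map_smul', map_add, L.const', Complex.sub_re, Complex.ofReal_re,
    Complex.re_ofReal_mul, Complex.add_re, Complex.ofReal_re, ← ha] at h1
  have h2 : 2 / a - 1 / a ^ 2 * a = a⁻¹ := by
    field_simp
    ring
  rwa [h2] at h1

lemma amgm {d : ℕ} (x : Fin d → ℝ) (hx : ∀ j, 0 < x j) :
    (d : ℝ) + 1 ≤ ∏ j, x j + ∑ j, (x j)⁻¹ := by
  have h1 : ∏ j, x j = Real.exp (∑ j, Real.log (x j)) := by
    rw [Real.exp_sum]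
    exact Finset.prod_congr rfl (fun j _ => (Real.exp_log (hx j)).symm)
  have h2 : ∀ j, 1 - Real.log (x j) ≤ (x j)⁻¹ := by
    intro j
    have := Real.add_one_le_exp (-Real.log (x j))
    rw [Real.exp_neg, Real.exp_log (hx j)] at this
    linarith
  have h3 := Real.add_one_le_exp (∑ j, Real.log (x j))
  have h4 : ∑ j, (1 - Real.log (x j)) ≤ ∑ j, (x j)⁻¹ := Finset.sum_le_sum (fun j _ => h2 j)
  rw [Finset.sum_sub_distrib] at h4
  simp at h4
  rw [h1]
  linarith

lemma chu_eps (m : Mn G) {d : ℕ} (S : Fin d → Mk m) (f : Bf G) (hf : In01 f) (δ : ℝ)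
    (hδ : 0 < δ) (hm : (m f).re = δ) (ε : ℝ) (hε : 0 < ε) :
    δ ^ (d + 1) ≤ (m (f * ∏ j, ((S j).T ((S j).T f) + Bf.const G (ε : ℂ)))).re := by
  have hTf : ∀ j, In01 ((S j).T f) := fun j => (S j).in01 hf
  have hTTf : ∀ j, In01 ((S j).T ((S j).T f)) := fun j => (S j).in01 (hTf j)
  have h1 := m.re_mono
    (((δ ^ d * (d + 1) : ℝ) : ℂ) • f -
      ((δ ^ (d + 1) : ℝ) : ℂ) • ∑ j, f * (S j).T (rinv ε hε ((S j).T f) (hTf j)))
    (f * ∏ j, ((S j).T ((S j).T f) + Bf.const G (ε : ℂ))) (fun x => by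
      obtain ⟨hx0, hx1, hxr⟩ := hf.re x
      have e1 : (∏ j, ((S j).T ((S j).T f) + Bf.const G (ε : ℂ)) : Bf G) x =
          ((∏ j, (((S j).T ((S j).T f) x).re + ε) : ℝ) : ℂ) := by
        rw [Bf.prod_apply]
        push_cast
        refine Finset.prod_congr rfl fun j _ => ?_
        rw [Bf.add_apply, Bf.const_apply, ← ((hTTf j).re x).2.2]
      have e2 : ∀ j, (S j).T (rinv ε hε ((S j).T f) (hTf j)) x =
          (((S j).T (rinv ε hε ((S j).T f) (hTf j)) x).re : ℂ) := by
        intro j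
        rw [(S j).hT]
        have := ((S j).L x).real_of_real (rinv ε hε ((S j).T f) (hTf j)) (fun y => by
          rw [rinv_apply, Complex.ofReal_im])
        apply Complex.ext <;> simp [this]
      have e3 : ∀ j, (((S j).T ((S j).T f) x).re + ε)⁻¹ ≤
          ((S j).T (rinv ε hε ((S j).T f) (hTf j)) x).re := by
        intro j
        rw [(S j).hT ((S j).T f), (S j).hT (rinv _ _ _ _)]
        exact jensen_inv _ _ _ _ _
      have e4 := amgm (fun j => (((S j).T ((S j).T f) x).re + ε) / δ) (fun j => by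
        have := ((hTTf j).re x).1
        positivity)
      simp only [Finset.prod_div_distrib, Finset.prod_const, Finset.card_univ, Fintype.card_fin,
        inv_div] at e4
      have e5 : ∑ j, δ / (((S j).T ((S j).T f) x).re + ε) ≤
          ∑ j, δ * ((S j).T (rinv ε hε ((S j).T f) (hTf j)) x).re := by
        refine Finset.sum_le_sum fun j _ => ?_
        rw [div_eq_mul_inv]
        exact mul_le_mul_of_nonneg_left (e3 j) hδ.le
      rw [← Finset.mul_sum] at e5
      have e6 : δ ^ d * (d + 1) - δ ^ (d + 1) *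
          ∑ j, ((S j).T (rinv ε hε ((S j).T f) (hTf j)) x).re ≤
          ∏ j, (((S j).T ((S j).T f) x).re + ε) := by
        have hd : 0 < δ ^ d := by positivity
        have : (d:ℝ) + 1 - δ * ∑ j, ((S j).T (rinv ε hε ((S j).T f) (hTf j)) x).re ≤
            (∏ j, (((S j).T ((S j).T f) x).re + ε)) / δ ^ d := by linarith
        rw [le_div_iff₀ hd] at this
        calc _ = ((d:ℝ) + 1 - δ * ∑ j, ((S j).T (rinv ε hε ((S j).T f) (hTf j)) x).re) * δ ^ d := by
              ring
          _ ≤ _ := this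
      have e7 : ((((δ ^ d * (d + 1) : ℝ) : ℂ) • f -
        ((δ ^ (d + 1) : ℝ) : ℂ) • ∑ j, f * (S j).T (rinv ε hε ((S j).T f) (hTf j)) : Bf G) x).re =
        (f x).re * (δ ^ d * (d + 1) - δ ^ (d + 1) *
          ∑ j, ((S j).T (rinv ε hε ((S j).T f) (hTf j)) x).re) := by
        rw [Bf.sub_apply, Bf.smul_apply, Bf.smul_apply, Bf.sum_apply, Complex.sub_re,
          Complex.re_ofReal_mul, Complex.re_ofReal_mul, Complex.re_sum]
        have : ∀ j, ((f * (S j).T (rinv ε hε ((S j).T f) (hTf j)) : Bf G) x).re =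
            (f x).re * ((S j).T (rinv ε hε ((S j).T f) (hTf j)) x).re := by
          intro j
          rw [Bf.mul_apply, hxr, Complex.re_ofReal_mul, Complex.ofReal_re]
        simp only [this, ← Finset.mul_sum]
        ring
      rw [e7, Bf.mul_apply, e1, hxr, Complex.re_ofReal_mul, Complex.ofReal_re, Complex.ofReal_re]
      exact mul_le_mul_of_nonneg_left e6 hx0)
  refine le_trans ?_ h1
  rw [map_sub, m.map_smul', m.map_smul', map_sum, Complex.sub_re, Complex.re_ofReal_mul,
    Complex.re_ofReal_mul, Complex.re_sum, hm]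
  have h2 : ∑ j, (m (f * (S j).T (rinv ε hε ((S j).T f) (hTf j)))).re ≤ d := by
    have : ∀ j ∈ (Finset.univ : Finset (Fin d)),
        (m (f * (S j).T (rinv ε hε ((S j).T f) (hTf j)))).re ≤ 1 := by
      intro j _
      rw [← (S j).sa]
      have h3 := m.re_mono ((S j).T f * rinv ε hε ((S j).T f) (hTf j)) 1 (fun x => by
        obtain ⟨hx0, hx1, hxr⟩ := (hTf j).re x
        rw [Bf.mul_apply, rinv_apply, hxr, Complex.re_ofReal_mul, Complex.ofReal_re,
          Complex.ofReal_re, Bf.one_apply, Complex.one_re, ← div_eq_mul_inv,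
          div_le_one (by linarith)]
        linarith)
      rwa [m.one', Complex.one_re] at h3
    calc _ ≤ ∑ j : Fin d, (1:ℝ) := Finset.sum_le_sum this
      _ = d := by simp
  have hd : 0 < δ ^ (d + 1) := by positivity
  calc δ ^ (d + 1) = δ ^ d * (d + 1) * δ - δ ^ (d + 1) * d := by ring
    _ ≤ _ := by
      have := mul_le_mul_of_nonneg_left h2 hd.le
      linarith

/-- lower bound for products of smoothings -/
theorem chu (m : Mn G) {d : ℕ} (S : Fin d → Mk m) (f : Bf G) (hf : In01 f) (δ : ℝ)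
    (hδ : 0 < δ) (hm : (m f).re = δ) :
    δ ^ (d + 1) ≤ (m (∏ j, (S j).T ((S j).T f))).re := by
  have hTTf : ∀ j, In01 ((S j).T ((S j).T f)) := fun j => (S j).in01 ((S j).in01 hf)
  have key : ∀ ε : ℝ, 0 < ε → δ ^ (d + 1) ≤ (m (∏ j, (S j).T ((S j).T f))).re +
      ((1 + ε) ^ d - 1) := by
    intro ε hε
    refine (chu_eps m S f hf δ hδ hm ε hε).trans ?_
    have h1 := m.re_mono (f * ∏ j, ((S j).T ((S j).T f) + Bf.const G (ε : ℂ)))
      (∏ j, (S j).T ((S j).T f) + Bf.const G (((1 + ε) ^ d - 1 : ℝ) : ℂ)) (fun x => by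
        obtain ⟨hx0, hx1, hxr⟩ := hf.re x
        have e1 : (∏ j, ((S j).T ((S j).T f) + Bf.const G (ε : ℂ)) : Bf G) x =
            ((∏ j, (((S j).T ((S j).T f) x).re + ε) : ℝ) : ℂ) := by
          rw [Bf.prod_apply]
          push_cast
          refine Finset.prod_congr rfl fun j _ => ?_
          rw [Bf.add_apply, Bf.const_apply, ← ((hTTf j).re x).2.2]
        have e2 : (∏ j, (S j).T ((S j).T f) : Bf G) x =
            ((∏ j, ((S j).T ((S j).T f) x).re : ℝ) : ℂ) := by
          rw [Bf.prod_apply]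
          push_cast
          refine Finset.prod_congr rfl fun j _ => ?_
          rw [← ((hTTf j).re x).2.2]
        rw [Bf.mul_apply, e1, hxr, Complex.re_ofReal_mul, Complex.ofReal_re, Bf.add_apply, e2,
          Bf.const_apply, Complex.add_re, Complex.ofReal_re, Complex.ofReal_re]
        have e3 : 0 ≤ ∏ j, (((S j).T ((S j).T f) x).re + ε) :=
          Finset.prod_nonneg (fun j _ => by have := ((hTTf j).re x).1; linarith)
        have e4 : ∏ j, (((S j).T ((S j).T f) x).re + ε) ≤
            ∏ j, ((S j).T ((S j).T f) x).re + ((1 + ε) ^ d - 1) := by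
          have : ∀ s : Finset (Fin d), ∏ j ∈ s, (((S j).T ((S j).T f) x).re + ε) ≤
              ∏ j ∈ s, ((S j).T ((S j).T f) x).re + ((1 + ε) ^ s.card - 1) := by
            intro s
            induction s using Finset.induction_on with
            | empty => simp
            | insert a s ha ih =>
              rw [Finset.prod_insert ha, Finset.prod_insert ha, Finset.card_insert_of_notMem ha]
              obtain ⟨ha0, ha1, _⟩ := (hTTf a).re x
              have hp0 : 0 ≤ ∏ j ∈ s, ((S j).T ((S j).T f) x).re :=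
                Finset.prod_nonneg (fun j _ => ((hTTf j).re x).1)
              have hp1 : ∏ j ∈ s, ((S j).T ((S j).T f) x).re ≤ 1 :=
                Finset.prod_le_one (fun j _ => ((hTTf j).re x).1) (fun j _ => ((hTTf j).re x).2.1)
              have hpow : 1 ≤ (1 + ε) ^ s.card := one_le_pow₀ (by linarith)
              set P := ∏ j ∈ s, ((S j).T ((S j).T f) x).re
              set q := (1 + ε) ^ s.card
              calc (((S a).T ((S a).T f) x).re + ε) * ∏ j ∈ s, (((S j).T ((S j).T f) x).re + ε)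
                  ≤ (((S a).T ((S a).T f) x).re + ε) * (P + (q - 1)) := by gcongr
                _ = ((S a).T ((S a).T f) x).re * P + ((S a).T ((S a).T f) x).re * (q - 1) +
                    ε * P + ε * (q - 1) := by ring
                _ ≤ ((S a).T ((S a).T f) x).re * P + 1 * (q - 1) + ε * 1 + ε * (q - 1) := by
                    gcongr
                _ = ((S a).T ((S a).T f) x).re * P + ((1 + ε) * q - 1) := by ring
                _ = _ := by rw [pow_succ]; ring
          simpa using this Finset.univ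
        calc (f x).re * ∏ j, (((S j).T ((S j).T f) x).re + ε) ≤
            1 * ∏ j, (((S j).T ((S j).T f) x).re + ε) := by gcongr
          _ ≤ _ := by rw [one_mul]; exact e4)
    rw [map_add, m.const', Complex.add_re, Complex.ofReal_re] at h1
    exact h1
  have hcont : Tendsto (fun ε : ℝ => (m (∏ j, (S j).T ((S j).T f))).re + ((1 + ε) ^ d - 1))
      (𝓝[>] 0) (𝓝 ((m (∏ j, (S j).T ((S j).T f))).re + ((1 + 0) ^ d - 1))) := by
    apply Tendsto.mono_left _ nhdsWithin_le_nhds
    apply Continuous.tendsto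
    fun_prop
  have := ge_of_tendsto hcont (by
    filter_upwards [self_mem_nhdsWithin] with ε hε
    exact key ε hε)
  simpa using this

end

end Pool.Agent.H64.Bohr
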