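import Pool.Agent.H64.Bohr.Final

/-!
The concrete system of slots, and the final theorem.
-/

namespace Pool.Agent.H64.Bohr

open scoped ComplexOrder ComplexConjugate
open Filter Topology

noncomputable section

universe u

section concrete

variable {G : Type u} [AddCommGroup G] {d : ℕ}

/-- coordinate homs on the group of solutions -/
def solP (φ : Fin d → (G →+ G)) (j : Fin d) : (solHom φ).ker →+ G :=
  (Pi.evalAddMonoidHom (fun _ => G) j).comp (solHom φ).ker.subtype

lemma solP_apply (φ : Fin d → (G →+ G)) (j : Fin d) (u : (solHom φ).ker) : solP φ j u = u.1 j := rfl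

lemma exists_sol_pair (φ : Fin d → (G →+ G)) (j0 j1 : Fin d) (h01 : j1 ≠ j0) (h : G)
    (hh : h ∈ (φ j1).range.comap (φ j0)) :
    ∃ k : (solHom φ).ker, solP φ j0 k = h ∧ ∀ j, j ≠ j0 → j ≠ j1 → solP φ j k = 0 := by
  classical
  rw [AddSubgroup.mem_comap, AddMonoidHom.mem_range] at hh
  obtain ⟨w, hw⟩ := hh
  refine ⟨⟨fun j => if j = j0 then h else if j = j1 then -w else 0, ?_⟩, ?_, ?_⟩
  · rw [AddMonoidHom.mem_ker, solHom_apply]
    have : ∀ j, φ j (if j = j0 then h else if j = j1 then -w else 0) =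
        (if j = j0 then φ j0 h else 0) + (if j = j1 then - φ j0 h else 0) := by
      intro j
      by_cases hj : j = j0
      · subst hj
        simp [h01.symm]
      · by_cases hj1 : j = j1
        · subst hj1
          simp [hj, hw]
        · simp [hj, hj1]
    simp only [this, Finset.sum_add_distrib, Finset.sum_ite_eq', Finset.mem_univ, if_true]
    abel
  · rw [solP_apply]; simp
  · intro j hj hj1
    rw [solP_apply]; simp [hj, hj1]

lemma index_comap_le (f : G →+ G) (H : AddSubgroup G) (hH : H.index ≠ 0) :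
    (H.comap f).index ≠ 0 ∧ (H.comap f).index ≤ H.index := by
  have h1 : (H.comap f).index = H.relIndex f.range := AddSubgroup.index_comap H f
  have h2 : H.relIndex f.range ∣ H.index := AddSubgroup.relIndex_dvd_index_of_normal H f.range
  rw [h1]
  refine ⟨fun h => hH ?_, Nat.le_of_dvd (Nat.pos_of_ne_zero hH) h2⟩
  rw [h] at h2
  exact Nat.eq_zero_of_zero_dvd h2

lemma concrete_slots (hd : 3 ≤ d) (φ : Fin d → (G →+ G)) (r : ℕ)
    (hidx : ∀ j, (φ j).range.index ≠ 0 ∧ (φ j).range.index ≤ r) :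
    Slots (solP φ) (fun j => kerK (φ j)) r where
  two := by
    intro j0
    obtain ⟨j1, j2, h1, h2, h12⟩ : ∃ j1 j2 : Fin d, j1 ≠ j0 ∧ j2 ≠ j0 ∧ j1 ≠ j2 := by
      have hcard : 1 < (Finset.univ.erase j0).card := by
        rw [Finset.card_erase_of_mem (Finset.mem_univ _), Finset.card_univ, Fintype.card_fin]
        omega
      obtain ⟨j1, hj1, j2, hj2, hne⟩ := Finset.one_lt_card.1 hcard
      exact ⟨j1, j2, Finset.ne_of_mem_erase hj1, Finset.ne_of_mem_erase hj2, hne⟩
    have i1 := index_comap_le (φ j0) (φ j1).range (hidx j1).1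
    have i2 := index_comap_le (φ j0) (φ j2).range (hidx j2).1
    refine ⟨j1, h1, (φ j1).range.comap (φ j0), (φ j2).range.comap (φ j0), ⟨i1.1⟩, ⟨i2.1⟩,
      i1.2.trans (hidx j1).2, i2.2.trans (hidx j2).2, ?_, ?_⟩
    · intro h hh
      exact exists_sol_pair φ j0 j1 h1 h hh
    · intro h hh
      obtain ⟨k, hk1, hk2⟩ := exists_sol_pair φ j0 j2 h2 h hh
      exact ⟨k, hk1, hk2 j1 h1 h12⟩
  kill := by
    classical
    intro j0 ψ hψ
    obtain ⟨x, hx, hx1⟩ : ∃ x, φ j0 x = 0 ∧ ψ x ≠ 1 := by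
      by_contra hcon
      push Not at hcon
      exact hψ hcon
    refine ⟨⟨fun j => if j = j0 then x else 0, ?_⟩, ?_, ?_, ?_⟩
    · rw [AddMonoidHom.mem_ker, solHom_apply]
      apply Finset.sum_eq_zero
      intro j _
      by_cases hj : j = j0
      · subst hj; simpa using hx
      · simp [hj]
    · rw [solP_apply]; simpa using hx1
    · intro j hj
      rw [solP_apply]; simp [hj]
    · intro χ hχ
      rw [solP_apply]
      simpa using hχ x hx

end concrete

/-- indicator of a set -/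
def ind {G : Type u} (A : Set G) : Bf G := by
  classical
  exact Bf.mk' (fun x => if x ∈ A then 1 else 0) 1 (fun x => by split_ifs <;> simp)

open Classical in
lemma ind_apply {G : Type u} (A : Set G) (x : G) : ind A x = if x ∈ A then 1 else 0 := rfl

lemma ind_in01 {G : Type u} (A : Set G) : In01 (ind A) := by
  classical
  intro x
  rw [ind_apply]
  split_ifs
  · exact ⟨zero_le_one, le_rfl⟩
  · exact ⟨le_rfl, zero_le_one⟩

lemma mem_of_ind_ne {G : Type u} {A : Set G} {x : G} (h : ind A x ≠ 0) : x ∈ A := by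
  classical
  by_contra hx
  rw [ind_apply, if_neg hx] at h
  exact h rfl

/-- the theorem for means on complex functions -/
theorem main_mean (d : ℕ) (hd : 3 ≤ d) (r : ℕ) (hr : 0 < r) (c : ℝ) (hc : 0 < c) :
    ∃ (k : ℕ) (η : ℝ), 0 < η ∧ ∀ (G : Type u) [AddCommGroup G] (φ : Fin d → (G →+ G))
      (_ : ∀ j, (φ j).range.index ≠ 0 ∧ (φ j).range.index ≤ r) (_ : ∑ j, φ j = 0)
      (m : Mn G) (_ : m.Inv) (A : Set G) (_ : c < (m (ind A)).re),
      ∃ χ : Fin k → AddChar G Circle, ∀ g : G, (∀ i, ‖(χ i g : ℂ) - 1‖ < η) →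
        ∃ a : Fin d → G, (∀ j, a j ∈ A) ∧ ∑ j, φ j (a j) = g := by
  classical
  obtain ⟨k, η, hη, hmain⟩ := uniform.{u, u} d r hr (c ^ (d + 1)) (by positivity)
  have hr' : (0:ℝ) < r := by exact_mod_cast hr
  refine ⟨k + r, min η (1 / r), lt_min hη (by positivity), ?_⟩
  intro G _ φ hidx hsum m hm A hA
  obtain ⟨m', hm', herg, hA'⟩ := exists_erg m hm (ind A) c hA
  obtain ⟨W, hW⟩ := exists_inv_mean (solHom φ).ker
  have hd0 : 0 < d := by omega
  let jd : Fin d := ⟨0, hd0⟩
  obtain ⟨ι, hι, χ, h1, h2, h3⟩ := hmain G (solHom φ).ker W hW m' hm' herg (solP φ)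
    (fun j => kerK (φ j)) (concrete_slots hd φ r hidx) (ind A) (ind_in01 A) (by linarith)
    (by gcongr) jd
  have hX := fun i => char_extend (φ jd) (χ i) (h2 i)
  choose X hX using hX
  obtain ⟨ι', hι', Y, hY1, hY2⟩ := index_bohr (φ jd).range (hidx jd).1
  -- embed the families
  have hcard : Fintype.card (ι ⊕ ι') ≤ Fintype.card (Fin (k + r)) := by
    rw [Fintype.card_sum, Fintype.card_fin, hY1]
    exact Nat.add_le_add h1 (hidx jd).2
  obtain ⟨e⟩ := Function.Embedding.nonempty_of_card_le hcard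
  let Z : Fin (k + r) → AddChar G Circle := fun i =>
    if h : ∃ j, e j = i then Sum.elim X Y h.choose else 1
  have hZ : ∀ j, Z (e j) = Sum.elim X Y j := by
    intro j
    have h : ∃ j', e j' = e j := ⟨j, rfl⟩
    simp only [Z]
    rw [dif_pos h, e.injective h.choose_spec]
  refine ⟨Z, fun g hg => ?_⟩
  have hgR : g ∈ (φ jd).range := by
    apply hY2
    intro i
    have h5 := hg (e (Sum.inr i))
    rw [hZ] at h5
    have hi : ((φ jd).range.index : ℝ) ≤ r := by exact_mod_cast (hidx jd).2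
    have hi0 : (0:ℝ) < (φ jd).range.index := by exact_mod_cast Nat.pos_of_ne_zero (hidx jd).1
    calc _ < _ := h5
      _ ≤ 1 / (r:ℝ) := min_le_right _ _
      _ ≤ _ := by gcongr
  obtain ⟨t, rfl⟩ := hgR
  obtain ⟨u, a, hu1, hu2⟩ := h3 t (fun i => by
    have h5 := hg (e (Sum.inl i))
    rw [hZ, Sum.elim_inl, hX] at h5
    exact (h5.trans_le (min_le_left _ _)).le)
  refine ⟨fun j => a + solP φ j u + (if j = jd then t else 0), fun j => ?_, ?_⟩
  · by_cases hj : j = jd
    · subst hj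
      have := mem_of_ind_ne hu1
      simpa using this
    · have := mem_of_ind_ne (hu2 j hj)
      simpa [hj] using this
  · have e1 : ∀ j, φ j (a + solP φ j u + (if j = jd then t else 0)) =
        φ j a + φ j (u.1 j) + (if j = jd then φ jd t else 0) := by
      intro j
      rw [map_add, map_add, solP_apply]
      by_cases hj : j = jd
      · subst hj; simp
      · simp [hj]
    simp only [e1, Finset.sum_add_distrib]
    have e2 : ∑ j, φ j a = 0 := by
      have := DFunLike.congr_fun hsum a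
      simpa using this
    have e3 : ∑ j, φ j (u.1 j) = 0 := by
      have := u.2
      rwa [AddMonoidHom.mem_ker, solHom_apply] at this
    rw [e2, e3]
    simp

/-- bounded real function -/
lemma mean_of_real {G : Type u} [AddCommGroup G] (μ : (G → ℝ) → ℝ)
    (hadd : ∀ f g : G → ℝ, (∃ C, ∀ x, |f x| ≤ C) → (∃ C, ∀ x, |g x| ≤ C) →
      μ (fun x => f x + g x) = μ f + μ g)
    (hsmul : ∀ (c : ℝ) (f : G → ℝ), (∃ C, ∀ x, |f x| ≤ C) → μ (fun x => c * f x) = c * μ f)
    (hnn : ∀ f : G → ℝ, (∃ C, ∀ x, |f x| ≤ C) → (∀ x, 0 ≤ f x) → 0 ≤ μ f)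
    (hone : μ (fun _ => 1) = 1)
    (hinv : ∀ (f : G → ℝ) (g : G), (∃ C, ∀ x, |f x| ≤ C) → μ (fun x => f (x + g)) = μ f) :
    ∃ m : Mn G, m.Inv ∧ ∀ F : Bf G, (m F).re = μ (fun x => (F x).re) := by
  have hre : ∀ F : Bf G, ∃ C, ∀ x, |(F x).re| ≤ C := fun F => by
    obtain ⟨C, _, hC⟩ := F.exists_bound
    exact ⟨C, fun x => (Complex.abs_re_le_norm _).trans (hC x)⟩
  have him : ∀ F : Bf G, ∃ C, ∀ x, |(F x).im| ≤ C := fun F => by
    obtain ⟨C, _, hC⟩ := F.exists_bound
    exact ⟨C, fun x => (Complex.abs_im_le_norm _).trans (hC x)⟩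
  have hzero : μ (fun _ => 0) = 0 := by
    have := hsmul 0 (fun _ => 0) ⟨0, fun x => by simp⟩
    simpa using this
  have bmul : ∀ (c : ℝ) (f : G → ℝ), (∃ C, ∀ x, |f x| ≤ C) → ∃ C, ∀ x, |c * f x| ≤ C := by
    rintro c f ⟨C, hC⟩
    exact ⟨|c| * C, fun x => by rw [abs_mul]; exact mul_le_mul_of_nonneg_left (hC x) (abs_nonneg _)⟩
  let lin : Bf G →ₗ[ℂ] ℂ :=
    { toFun := fun F => ((μ (fun x => (F x).re) : ℝ) : ℂ) + ((μ (fun x => (F x).im) : ℝ) : ℂ) * Complex.I
      map_add' := by
        intro F F'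
        have e1 : μ (fun x => ((F + F') x).re) = μ (fun x => (F x).re) + μ (fun x => (F' x).re) := by
          rw [← hadd _ _ (hre F) (hre F')]; rfl
        have e2 : μ (fun x => ((F + F') x).im) = μ (fun x => (F x).im) + μ (fun x => (F' x).im) := by
          rw [← hadd _ _ (him F) (him F')]; rfl
        rw [e1, e2]; push_cast; ring
      map_smul' := by
        intro c F
        have e1 : μ (fun x => ((c • F) x).re) = c.re * μ (fun x => (F x).re) +
            (-c.im) * μ (fun x => (F x).im) := by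
          rw [← hsmul _ _ (hre F), ← hsmul _ _ (him F), ← hadd _ _ (bmul _ _ (hre F)) (bmul _ _ (him F))]
          congr 1; funext x
          rw [Bf.smul_apply, Complex.mul_re]; ring
        have e2 : μ (fun x => ((c • F) x).im) = c.re * μ (fun x => (F x).im) +
            c.im * μ (fun x => (F x).re) := by
          rw [← hsmul _ _ (hre F), ← hsmul _ _ (him F), ← hadd _ _ (bmul _ _ (him F)) (bmul _ _ (hre F))]
          congr 1
        rw [e1, e2, RingHom.id_apply, smul_eq_mul]
        apply Complex.ext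
        · simp; ring
        · simp }
  refine ⟨⟨lin, ?_, ?_⟩, ?_, ?_⟩
  · intro F hF
    have e2 : (fun x => (F x).im) = fun _ => (0:ℝ) := by
      funext x; exact (Complex.nonneg_iff.1 (hF x)).2.symm
    show 0 ≤ ((μ (fun x => (F x).re) : ℝ) : ℂ) + ((μ (fun x => (F x).im) : ℝ) : ℂ) * Complex.I
    rw [e2, hzero]
    have := hnn _ (hre F) (fun x => (Complex.nonneg_iff.1 (hF x)).1)
    simpa using this
  · show ((μ (fun x => ((1 : Bf G) x).re) : ℝ) : ℂ) +
      ((μ (fun x => ((1 : Bf G) x).im) : ℝ) : ℂ) * Complex.I = 1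
    have e1 : (fun x => ((1 : Bf G) x).re) = fun _ => (1:ℝ) := by funext x; simp
    have e2 : (fun x => ((1 : Bf G) x).im) = fun _ => (0:ℝ) := by funext x; simp
    rw [e1, e2, hone, hzero]; simp
  · intro k F
    show ((μ (fun x => (F (x + k)).re) : ℝ) : ℂ) + ((μ (fun x => (F (x + k)).im) : ℝ) : ℂ) * Complex.I =
      ((μ (fun x => (F x).re) : ℝ) : ℂ) + ((μ (fun x => (F x).im) : ℝ) : ℂ) * Complex.I
    rw [hinv (fun x => (F x).re) k (hre F), hinv (fun x => (F x).im) k (him F)]
  · intro F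
    show (((μ (fun x => (F x).re) : ℝ) : ℂ) + ((μ (fun x => (F x).im) : ℝ) : ℂ) * Complex.I).re = _
    simp

end

end Pool.Agent.H64.Bohr
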