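import Pool.Agent.H64.Bohr.Decomp

/-!
Counting with several slots.
-/

namespace Pool.Agent.H64.Bohr

open scoped ComplexOrder ComplexConjugate
open Filter Topology

noncomputable section

variable {G : Type*} [AddCommGroup G] {Γ : Type*} [AddCommGroup Γ] {d : ℕ}

/-- the counting form -/
def TT (W : Mn Γ) (m : Mn G) (p : Fin d → (Γ →+ G)) (β : Bf Γ) (A : Fin d → Bf G) : ℂ :=
  (W.prod m) (β.comp Prod.fst * ∏ j, pb (p j) (A j))

lemma pb_add (p : Γ →+ G) (F F' : Bf G) : pb p (F + F') = pb p F + pb p F' := rfl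

lemma pb_norm (p : Γ →+ G) {F : Bf G} (h : ∀ x, ‖F x‖ ≤ 1) (z : Γ × G) : ‖pb p F z‖ ≤ 1 := h _

lemma prod_update (p : Fin d → (Γ →+ G)) (A : Fin d → Bf G) (j0 : Fin d) (x : Bf G) :
    ∏ j, pb (p j) (Function.update A j0 x j) =
      pb (p j0) x * ∏ j ∈ Finset.univ.erase j0, pb (p j) (A j) := by
  rw [← Finset.mul_prod_erase Finset.univ _ (Finset.mem_univ j0), Function.update_self]
  congr 1
  refine Finset.prod_congr rfl fun j hj => ?_
  rw [Function.update_of_ne (Finset.ne_of_mem_erase hj)]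

lemma TT_add (W : Mn Γ) (m : Mn G) (p : Fin d → (Γ →+ G)) (β : Bf Γ) (A : Fin d → Bf G)
    (j0 : Fin d) (x y : Bf G) :
    TT W m p β (Function.update A j0 (x + y)) =
      TT W m p β (Function.update A j0 x) + TT W m p β (Function.update A j0 y) := by
  simp only [TT, prod_update]
  rw [← map_add]
  congr 1
  rw [pb_add]; ring

/-- characters of `Γ` of product form -/
def KK (p : Fin d → (Γ →+ G)) (K : Fin d → Subgroup (AddChar G Circle)) :
    Subgroup (AddChar Γ Circle) where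
  carrier := {χ | ∃ ψ : Fin d → AddChar G Circle, (∀ j, ψ j ∈ K j) ∧ ∀ u, χ u = ∏ j, ψ j (p j u)}
  mul_mem' := by
    rintro a b ⟨ψ, h1, h2⟩ ⟨ψ', h1', h2'⟩
    refine ⟨fun j => ψ j * ψ' j, fun j => (K j).mul_mem (h1 j) (h1' j), fun u => ?_⟩
    rw [AddChar.mul_apply, h2, h2', ← Finset.prod_mul_distrib]
    rfl
  one_mem' := ⟨fun _ => 1, fun j => (K j).one_mem, fun u => by simp⟩
  inv_mem' := by
    rintro a ⟨ψ, h1, h2⟩
    refine ⟨fun j => (ψ j)⁻¹, fun j => (K j).inv_mem (h1 j), fun u => ?_⟩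
    rw [AddChar.inv_apply, h2]
    refine Finset.prod_congr rfl fun j _ => ?_
    rw [AddChar.inv_apply, map_neg]

/-- pulled back character -/
def pc (p : Γ →+ G) (ψ : AddChar G Circle) : AddChar Γ Circle := ψ.compAddMonoidHom p

@[simp] lemma pc_apply (p : Γ →+ G) (ψ : AddChar G Circle) (u : Γ) : pc p ψ u = ψ (p u) := rfl

lemma pc_mem (p : Fin d → (Γ →+ G)) (K : Fin d → Subgroup (AddChar G Circle)) (j : Fin d)
    (ψ : AddChar G Circle) (h : ψ ∈ K j) : pc (p j) ψ ∈ KK p K := by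
  classical
  refine ⟨fun i => if i = j then ψ else 1, fun i => ?_, fun u => ?_⟩
  · dsimp only
    split_ifs with hi
    · rw [hi]; exact h
    · exact (K i).one_mem
  · rw [Finset.prod_eq_single j]
    · dsimp only; rw [if_pos rfl]; rfl
    · intro i _ hi
      dsimp only; rw [if_neg hi]; rfl
    · intro h; exact absurd (Finset.mem_univ _) h

lemma PC.inv_of {p : Fin d → (Γ →+ G)} {K : Fin d → Subgroup (AddChar G Circle)} {n : ℕ}
    {β : Bf Γ} (h : PC (KK p K) n β) (k : Γ) (hk : ∀ j, ∀ χ ∈ K j, χ (p j k) = 1) :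
    β.sh k = β := by
  obtain ⟨ι, _, χ, h1, h2, rfl⟩ := h
  ext u
  simp only [Bf.sh_apply, Bf.sum_apply, ch_apply]
  refine Finset.sum_congr rfl fun i _ => ?_
  obtain ⟨ψ, h3, h4⟩ := h2 i
  rw [AddChar.map_add_eq_mul, h4 k, Finset.prod_eq_one (fun j _ => hk j (ψ j) (h3 j)), mul_one]

/-- killing lemma -/
lemma TT_kill (W : Mn Γ) (hW : W.Inv) (m : Mn G) (p : Fin d → (Γ →+ G))
    (K : Fin d → Subgroup (AddChar G Circle)) {n : ℕ} {β : Bf Γ} (hβ : PC (KK p K) n β)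
    (j0 : Fin d) (ψ : AddChar G Circle)
    (hψ : ∃ k : Γ, ψ (p j0 k) ≠ 1 ∧ (∀ j, j ≠ j0 → p j k = 0) ∧ ∀ χ ∈ K j0, χ (p j0 k) = 1)
    (A : Fin d → Bf G) (c : ℂ) : TT W m p β (Function.update A j0 (c • ch ψ)) = 0 := by
  obtain ⟨k, h1, h2, h3⟩ := hψ
  rw [TT, prod_update]
  set T := β.comp Prod.fst * (pb (p j0) (c • ch ψ) * ∏ j ∈ Finset.univ.erase j0, pb (p j) (A j))
    with hT
  have hβk : β.sh k = β := hβ.inv_of k (fun j χ hχ => by
    by_cases hj : j = j0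
    · subst hj; exact h3 χ hχ
    · rw [h2 j hj]; simp)
  have e : sh1 k T = (ψ (p j0 k) : ℂ) • T := by
    ext z
    have e1 : β (z.1 + k) = β z.1 := by
      conv_rhs => rw [← hβk]
      rfl
    simp only [hT, sh1_apply, Bf.mul_apply, Bf.smul_apply, Bf.comp_apply, pb_apply, Bf.prod_apply,
      map_add, ch_apply]
    have e2 : ∏ j ∈ Finset.univ.erase j0, (A j) (z.2 + ((p j) z.1 + (p j) k)) =
        ∏ j ∈ Finset.univ.erase j0, (A j) (z.2 + (p j) z.1) := by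
      refine Finset.prod_congr rfl fun j hj => ?_
      rw [h2 j (Finset.ne_of_mem_erase hj), add_zero]
    rw [e1, e2, ← add_assoc, AddChar.map_add_eq_mul ψ (z.2 + (p j0) z.1), Circle.coe_mul]
    ring
  have e3 := Mn.prod_sh1 W hW m k T
  rw [e, Mn.map_smul'] at e3
  have e4 : ((ψ (p j0 k) : ℂ) - 1) * (W.prod m) T = 0 := by linear_combination e3
  rcases mul_eq_zero.1 e4 with h | h
  · exfalso
    apply h1
    apply Circle.ext
    rw [Circle.coe_one]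
    exact sub_eq_zero.1 h
  · exact h

lemma TT_zero (W : Mn Γ) (m : Mn G) (p : Fin d → (Γ →+ G)) (β : Bf Γ) (A : Fin d → Bf G)
    (j0 : Fin d) : TT W m p β (Function.update A j0 0) = 0 := by
  have := TT_add W m p β A j0 0 0
  rw [add_zero] at this
  linear_combination -this

lemma TT_kill_sum (W : Mn Γ) (hW : W.Inv) (m : Mn G) (p : Fin d → (Γ →+ G))
    (K : Fin d → Subgroup (AddChar G Circle)) {n : ℕ} {β : Bf Γ} (hβ : PC (KK p K) n β)
    (j0 : Fin d)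
    (hψ : ∀ ψ, ψ ∉ K j0 → ∃ k : Γ, ψ (p j0 k) ≠ 1 ∧ (∀ j, j ≠ j0 → p j k = 0) ∧
      ∀ χ ∈ K j0, χ (p j0 k) = 1)
    (A : Fin d → Bf G) (s : Finset (AddChar G Circle)) (a : AddChar G Circle → ℂ)
    (hs : ∀ ψ ∈ s, ψ ∉ K j0) :
    TT W m p β (Function.update A j0 (∑ ψ ∈ s, a ψ • ch ψ)) = 0 := by
  classical
  induction s using Finset.induction_on with
  | empty => simpa using TT_zero W m p β A j0
  | insert ψ s hψs ih =>
    rw [Finset.sum_insert hψs, TT_add, TT_kill W hW m p K hβ j0 ψ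
      (hψ ψ (hs ψ (Finset.mem_insert_self _ _))), ih (fun χ hχ => hs χ (Finset.mem_insert_of_mem hχ)),
      add_zero]

/-- absolute value -/
def Bf.abs' {X : Type*} (F : Bf X) : Bf X := Bf.mk' (fun x => (‖F x‖ : ℂ)) F.exists_bound.choose
  (fun x => by
    rw [Complex.norm_real, norm_norm]
    exact F.exists_bound.choose_spec.2 x)

@[simp] lemma Bf.abs'_apply {X : Type*} (F : Bf X) (x : X) : F.abs' x = (‖F x‖ : ℂ) := rfl

lemma norm_prod_le_one {X : Type*} {ι : Type*} (s : Finset ι) (F : ι → Bf X)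
    (h : ∀ j ∈ s, ∀ x, ‖F j x‖ ≤ 1) (x : X) : ‖(∏ j ∈ s, F j : Bf X) x‖ ≤ 1 := by
  rw [Bf.prod_apply, norm_prod]
  exact Finset.prod_le_one (fun _ _ => norm_nonneg _) (fun j hj => h j hj x)

/-- `L²` bound -/
lemma TT_l2 (W : Mn Γ) (m : Mn G) (hm : m.Inv) (p : Fin d → (Γ →+ G)) {β : Bf Γ}
    (hβ : ∀ u, 0 ≤ β u) (j0 : Fin d) (A : Fin d → Bf G) (hA : ∀ j x, ‖A j x‖ ≤ 1) (g : Bf G)
    (τ : ℝ) (hτ : 0 ≤ τ) (hg : m.sq g ≤ τ ^ 2) :
    ‖TT W m p β (Function.update A j0 g)‖ ≤ (W β).re * τ := by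
  rw [TT, prod_update]
  have h1 : ‖(W.prod m) (β.comp Prod.fst * (pb (p j0) g *
      ∏ j ∈ Finset.univ.erase j0, pb (p j) (A j)))‖ ≤
      ((W.prod m) (β.comp Prod.fst * pb (p j0) g.abs')).re := by
    apply Mn.norm_le_re
    intro z
    have hb := Complex.nonneg_iff.1 (hβ z.1)
    have hb' : β z.1 = ((β z.1).re : ℂ) := by apply Complex.ext <;> simp [← hb.2]
    have h2 := norm_prod_le_one (Finset.univ.erase j0) (fun j => pb (p j) (A j))
      (fun j _ x => pb_norm (p j) (hA j) x) z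
    simp only [Bf.mul_apply, Bf.comp_apply, pb_apply, Bf.abs'_apply, norm_mul]
    rw [hb', Complex.norm_real, Real.norm_of_nonneg hb.1, ← Complex.ofReal_mul, Complex.ofReal_re]
    have h3 := norm_nonneg (g (z.2 + (p j0) z.1))
    calc (β z.1).re * (‖g (z.2 + (p j0) z.1)‖ * ‖(∏ j ∈ Finset.univ.erase j0, pb (p j) (A j) :
          Bf (Γ × G)) z‖) ≤ (β z.1).re * (‖g (z.2 + (p j0) z.1)‖ * 1) := by
          gcongr
          exact hb.1
      _ = _ := by rw [mul_one]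
  refine h1.trans ?_
  have h4 : (W.prod m) (β.comp Prod.fst * pb (p j0) g.abs') = W β * m g.abs' := by
    rw [Mn.prod_apply]
    have : Mn.slice m (β.comp Prod.fst * pb (p j0) g.abs') = (m g.abs') • β := by
      ext u
      have e : (β.comp Prod.fst * pb (p j0) g.abs').comp (Prod.mk u) =
        (β u) • (g.abs'.sh (p j0 u)) := rfl
      rw [Mn.slice_apply, e, m.map_smul', hm, Bf.smul_apply, mul_comm]
    rw [this, W.map_smul', mul_comm]
  have h5 : (W β).im = 0 := W.real_of_real _ (fun u => (Complex.nonneg_iff.1 (hβ u)).2.symm)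
  have h6 : 0 ≤ (W β).re := W.re_nonneg _ (fun u => (Complex.nonneg_iff.1 (hβ u)).1)
  rw [h4, Complex.mul_re, h5, zero_mul, sub_zero]
  refine mul_le_mul_of_nonneg_left ?_ h6
  have h7 := m.norm_sq_le_sq g.abs'
  have h8 : m.sq g.abs' ≤ m.sq g := m.sq_mono _ _ (fun x => by
    rw [Bf.abs'_apply, Complex.norm_real, norm_norm])
  have h9 : ‖m g.abs'‖ ^ 2 ≤ τ ^ 2 := h7.trans (h8.trans hg)
  have h10 : ‖m g.abs'‖ ≤ τ := by
    exact (sq_le_sq₀ (norm_nonneg _) hτ).1 h9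
  exact (Complex.re_le_norm _).trans h10

/-- uniform bound -/
lemma TT_u2_ch (W : Mn Γ) (hW : W.Inv) (m : Mn G) (hm : m.Inv) (herg : m.Erg)
    (p : Fin d → (Γ →+ G)) (K : Fin d → Subgroup (AddChar G Circle))
    (χ : AddChar Γ Circle) (hχ : χ ∈ KK p K) (j0 j1 : Fin d) (h01 : j1 ≠ j0)
    (H1 H2 : AddSubgroup G) [H1.FiniteIndex] [H2.FiniteIndex]
    (h1 : ∀ h ∈ H1, ∃ k : Γ, p j0 k = h ∧ ∀ j, j ≠ j0 → j ≠ j1 → p j k = 0)
    (h2 : ∀ h ∈ H2, ∃ k : Γ, p j0 k = h ∧ p j1 k = 0)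
    (A : Fin d → Bf G) (hA : ∀ j x, ‖A j x‖ ≤ 1) (g : Bf G) (C : ℝ)
    (hC : ∀ ψ : AddChar G Circle, ‖fc m g ψ‖ ^ 2 ≤ C) :
    ‖TT W m p (ch χ) (Function.update A j0 g)‖ ^ 4 ≤
      (H2.index : ℝ) ^ 2 * (H1.index * (m.sq g * C)) := by
  obtain ⟨ψ, hψ1, hψ2⟩ := hχ
  have hmem : j1 ∈ Finset.univ.erase j0 := Finset.mem_erase.2 ⟨h01, Finset.mem_univ _⟩
  set R : Bf (Γ × G) := (∏ j ∈ (Finset.univ.erase j0).erase j1, pb (p j) (A j * ch (ψ j))) *
    (∏ j, star (ch (ψ j))).comp Prod.snd with hR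
  have e : (ch χ).comp Prod.fst * ∏ j, pb (p j) (Function.update A j0 g j) =
      R * (pb (p j0) (g * ch (ψ j0)) * pb (p j1) (A j1 * ch (ψ j1))) := by
    rw [prod_update, ← Finset.mul_prod_erase (Finset.univ.erase j0) _ hmem]
    ext z
    have e1 : (χ z.1 : ℂ) = ∏ j, ((ψ j (z.2 + p j z.1) : ℂ) * conj (ψ j z.2 : ℂ)) := by
      rw [hψ2]
      refine (map_prod Circle.coeHom _ _).trans ?_
      refine Finset.prod_congr rfl fun j _ => ?_
      rw [add_comm, AddChar.map_add_eq_mul, Circle.coe_mul, mul_assoc, Complex.mul_conj,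
        Circle.normSq_coe, Complex.ofReal_one, mul_one]
      rfl
    rw [Finset.prod_mul_distrib, ← Finset.mul_prod_erase Finset.univ _ (Finset.mem_univ j0),
      ← Finset.mul_prod_erase (Finset.univ.erase j0) _ hmem] at e1
    simp only [hR, Bf.mul_apply, Bf.comp_apply, pb_apply, Bf.prod_apply, Bf.star_apply, ch_apply,
      Finset.prod_mul_distrib, e1]
    ring
  rw [TT, e]
  have hC' : ∀ ψ' : AddChar G Circle, ‖m (g * ch (ψ j0) * star (ch ψ'))‖ ^ 2 ≤ C := by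
    intro ψ'
    have := fc_norm_mul m g ψ' (ψ j0)
    rw [fc] at this
    rw [this]
    exact hC _
  have hunit : ∀ (F : Bf G) (χ : AddChar G Circle), (∀ x, ‖F x‖ ≤ 1) →
      ∀ x, ‖(F * ch χ) x‖ ≤ 1 := by
    intro F χ hF x
    rw [Bf.mul_apply, norm_mul, ch_apply, Circle.norm_coe, mul_one]
    exact hF x
  have hRn : ∀ z, ‖R z‖ ≤ 1 := by
    intro z
    rw [hR, Bf.mul_apply, norm_mul]
    have a1 := norm_prod_le_one ((Finset.univ.erase j0).erase j1)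
      (fun j => pb (p j) (A j * ch (ψ j))) (fun j _ x => pb_norm (p j) (hunit _ _ (hA j)) x) z
    have a2 : ‖((∏ j, star (ch (ψ j))).comp Prod.snd : Bf (Γ × G)) z‖ ≤ 1 := by
      rw [Bf.comp_apply]
      apply norm_prod_le_one
      intro j _ x
      rw [Bf.star_apply, RCLike.norm_conj, ch_apply, Circle.norm_coe]
    have a3 := norm_nonneg ((∏ j ∈ (Finset.univ.erase j0).erase j1, pb (p j) (A j * ch (ψ j)) :
      Bf (Γ × G)) z)
    nlinarith [norm_nonneg (((∏ j, star (ch (ψ j))).comp Prod.snd : Bf (Γ × G)) z)]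
  have hR1 : ∀ h ∈ H1, ∃ k : Γ, p j0 k = h ∧ sh1 k R = R := by
    intro h hh
    obtain ⟨k, hk1, hk2⟩ := h1 h hh
    refine ⟨k, hk1, ?_⟩
    rw [hR, sh1_mul]
    congr 1
    ext z
    simp only [sh1_apply, Bf.prod_apply, pb_apply]
    refine Finset.prod_congr rfl fun j hj => ?_
    have hj1 := Finset.ne_of_mem_erase hj
    have hj0 := Finset.ne_of_mem_erase (Finset.mem_of_mem_erase hj)
    rw [map_add, hk2 j hj0 hj1, add_zero]
  have := u2 W hW m hm herg (p j0) (p j1) H1 H2 R hRn hR1 h2 (g * ch (ψ j0))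
    (A j1 * ch (ψ j1)) (hunit _ _ (hA j1)) C hC'
  rwa [sq_mul_ch] at this

lemma TT_u2 (W : Mn Γ) (hW : W.Inv) (m : Mn G) (hm : m.Inv) (herg : m.Erg)
    (p : Fin d → (Γ →+ G)) (K : Fin d → Subgroup (AddChar G Circle))
    {n : ℕ} {β : Bf Γ} (hβ : PC (KK p K) n β) (r : ℕ) (j0 : Fin d)
    (hAA : ∃ j1 : Fin d, j1 ≠ j0 ∧ ∃ H1 H2 : AddSubgroup G, H1.FiniteIndex ∧ H2.FiniteIndex ∧
      H1.index ≤ r ∧ H2.index ≤ r ∧
      (∀ h ∈ H1, ∃ k : Γ, p j0 k = h ∧ ∀ j, j ≠ j0 → j ≠ j1 → p j k = 0) ∧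
      (∀ h ∈ H2, ∃ k : Γ, p j0 k = h ∧ p j1 k = 0))
    (A : Fin d → Bf G) (hA : ∀ j x, ‖A j x‖ ≤ 1) (g : Bf G) (C : ℝ) (hC0 : 0 ≤ C)
    (hC : ∀ ψ : AddChar G Circle, ‖fc m g ψ‖ ^ 2 ≤ C) (hg : m.sq g ≤ 9) (ρ : ℝ) (hρ : 0 ≤ ρ)
    (hρ4 : 9 * (r : ℝ) ^ 3 * C ≤ ρ ^ 4) :
    ‖TT W m p β (Function.update A j0 g)‖ ≤ n * ρ := by
  obtain ⟨j1, h01, H1, H2, hf1, hf2, hi1, hi2, h1, h2⟩ := hAA
  obtain ⟨ι, _, χ, hn, hχ, rfl⟩ := hβ
  have e : TT W m p (∑ i, ch (χ i)) (Function.update A j0 g) =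
      ∑ i, TT W m p (ch (χ i)) (Function.update A j0 g) := by
    simp only [TT]
    rw [← map_sum, ← Finset.sum_mul]
    congr 2
    ext z
    simp
  rw [e]
  have hr1 : (H1.index : ℝ) ≤ r := by exact_mod_cast hi1
  have hr2 : (H2.index : ℝ) ≤ r := by exact_mod_cast hi2
  have key : ∀ i, ‖TT W m p (ch (χ i)) (Function.update A j0 g)‖ ≤ ρ := by
    intro i
    have h3 := TT_u2_ch W hW m hm herg p K (χ i) (hχ i) j0 j1 h01 H1 H2 h1 h2 A hA g C hC
    have h4 : (H2.index : ℝ) ^ 2 * (H1.index * (m.sq g * C)) ≤ ρ ^ 4 := by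
      refine le_trans ?_ hρ4
      have := m.sq_nonneg g
      calc (H2.index : ℝ) ^ 2 * (H1.index * (m.sq g * C)) ≤ (r : ℝ) ^ 2 * (r * (9 * C)) := by
            gcongr
        _ = _ := by ring
    exact (pow_le_pow_iff_left₀ (norm_nonneg _) hρ (by norm_num : (4:ℕ) ≠ 0)).1 (h3.trans h4)
  calc _ ≤ ∑ i, ‖TT W m p (ch (χ i)) (Function.update A j0 g)‖ := norm_sum_le _ _
    _ ≤ ∑ i : ι, ρ := Finset.sum_le_sum (fun i _ => key i)
    _ = Fintype.card ι * ρ := by simp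
    _ ≤ n * ρ := by gcongr

end

end Pool.Agent.H64.Bohr
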