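import Pool.Agent.H64.Bohr.Smooth

/-!
Fourier coefficients, Bessel, decomposition of a function.
-/

namespace Pool.Agent.H64.Bohr

open scoped ComplexOrder ComplexConjugate
open Filter Topology

noncomputable section

lemma sq_add_le {X : Type*} (m : Mn X) (f g : Bf X) : m.sq (f + g) ≤ 2 * m.sq f + 2 * m.sq g := by
  have h := m.re_mono ((f + g) * star (f + g)) ((2:ℂ) • (f * star f) + (2:ℂ) • (g * star g))
    (fun x => by
      rw [Mn.mul_star_re, Bf.add_apply, Bf.add_apply, Bf.smul_apply, Bf.smul_apply, Complex.add_re]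
      have h2 : ∀ z : ℂ, ((2:ℂ) * z).re = 2 * z.re := fun z => by simp
      rw [h2, h2, Mn.mul_star_re, Mn.mul_star_re]
      have := norm_add_le (f x) (g x)
      have h0 := norm_nonneg (f x + g x)
      nlinarith [sq_nonneg (‖f x‖ - ‖g x‖)])
  rw [map_add, m.map_smul', m.map_smul', Complex.add_re] at h
  have h2 : ∀ z : ℂ, ((2:ℂ) * z).re = 2 * z.re := fun z => by simp
  rw [h2, h2] at h
  exact h

lemma sq_neg {X : Type*} (m : Mn X) (f : Bf X) : m.sq (-f) = m.sq f := by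
  rw [Mn.sq, Mn.sq, star_neg, neg_mul_neg]

lemma sq_in01 {X : Type*} (m : Mn X) {f : Bf X} (hf : In01 f) : m.sq f ≤ 1 := by
  apply m.sq_le
  intro x
  have := hf.norm_le x
  nlinarith [norm_nonneg (f x)]

variable {G : Type*} [AddCommGroup G]

/-- Fourier coefficient -/
def fc (m : Mn G) (f : Bf G) (ψ : AddChar G Circle) : ℂ := m (f * star (ch ψ))

lemma fc_add (m : Mn G) (f g : Bf G) (ψ : AddChar G Circle) :
    fc m (f + g) ψ = fc m f ψ + fc m g ψ := by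
  rw [fc, add_mul, map_add]; rfl

lemma fc_sub (m : Mn G) (f g : Bf G) (ψ : AddChar G Circle) :
    fc m (f - g) ψ = fc m f ψ - fc m g ψ := by
  rw [fc, sub_mul, map_sub]; rfl

lemma fc_norm_sh (m : Mn G) (hm : m.Inv) (f : Bf G) (s : G) (ψ : AddChar G Circle) :
    ‖fc m (f.sh s) ψ‖ = ‖fc m f ψ‖ := by
  have : f.sh s * star (ch ψ) = (ψ s : ℂ) • (f * star (ch ψ)).sh s := by
    ext x
    simp only [Bf.mul_apply, Bf.sh_apply, Bf.smul_apply, Bf.star_apply, ch_apply,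
      AddChar.map_add_eq_mul, Circle.coe_mul, map_mul]
    have h : (ψ s : ℂ) * conj (ψ s : ℂ) = 1 := by
      rw [Complex.mul_conj, Circle.normSq_coe]; simp
    linear_combination (-(f (x + s) * conj (ψ x : ℂ))) * h
  rw [fc, this, m.map_smul', norm_mul, Circle.norm_coe, one_mul, hm]; rfl

lemma fc_norm_mul (m : Mn G) (f : Bf G) (ψ χ : AddChar G Circle) :
    fc m (f * ch χ) ψ = fc m f (ψ * χ⁻¹) := by
  rw [fc, fc, ch_mul, ch_inv, star_mul, star_star]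
  congr 1
  ring

lemma sq_sh (m : Mn G) (hm : m.Inv) (f : Bf G) (s : G) : m.sq (f.sh s) = m.sq f := by
  rw [Mn.sq, Mn.sq, ← hm s (f * star f)]; rfl

lemma sq_mul_ch (m : Mn G) (f : Bf G) (χ : AddChar G Circle) : m.sq (f * ch χ) = m.sq f := by
  rw [Mn.sq, Mn.sq]
  congr 2
  rw [star_mul]
  have := ch_mul_star χ
  linear_combination (f * star f) * this

lemma fc_sum_ch (m : Mn G) (hm : m.Inv) (s : Finset (AddChar G Circle))
    (a : AddChar G Circle → ℂ) (ψ : AddChar G Circle) [Decidable (ψ ∈ s)] :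
    fc m (∑ χ ∈ s, a χ • ch χ) ψ = if ψ ∈ s then a ψ else 0 := by
  classical
  rw [fc, Finset.sum_mul, map_sum]
  have : ∀ χ ∈ s, m (a χ • ch χ * star (ch ψ)) = if χ = ψ then a χ else 0 := by
    intro χ _
    rw [smul_mul_assoc, m.map_smul', ← ch_inv, ← ch_mul, mean_ch m hm]
    by_cases h : χ = ψ
    · rw [if_pos (mul_inv_eq_one.2 h), if_pos h, mul_one]
    · rw [if_neg (fun h' => h (mul_inv_eq_one.1 h')), if_neg h, mul_zero]
  rw [Finset.sum_congr rfl this, Finset.sum_ite_eq']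
  split_ifs <;> rfl

lemma mean_mul_sum_ch (m : Mn G) (f : Bf G) (s : Finset (AddChar G Circle))
    (a : AddChar G Circle → ℂ) :
    m (f * star (∑ χ ∈ s, a χ • ch χ)) = ∑ χ ∈ s, conj (a χ) * fc m f χ := by
  rw [star_sum, Finset.mul_sum, map_sum]
  refine Finset.sum_congr rfl fun χ _ => ?_
  rw [star_smul, mul_smul_comm, m.map_smul']
  rfl

lemma sq_sum_ch (m : Mn G) (hm : m.Inv) (s : Finset (AddChar G Circle))
    (a : AddChar G Circle → ℂ) : m.sq (∑ χ ∈ s, a χ • ch χ) = ∑ χ ∈ s, ‖a χ‖ ^ 2 := by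
  classical
  rw [Mn.sq, mean_mul_sum_ch, Complex.re_sum]
  refine Finset.sum_congr rfl fun χ hχ => ?_
  rw [fc_sum_ch m hm, if_pos hχ, mul_comm, Complex.mul_conj, Complex.normSq_eq_norm_sq,
    Complex.ofReal_re]

lemma bessel (m : Mn G) (hm : m.Inv) (f : Bf G) (s : Finset (AddChar G Circle)) :
    ∑ χ ∈ s, ‖fc m f χ‖ ^ 2 ≤ m.sq f := by
  classical
  set P : Bf G := ∑ χ ∈ s, fc m f χ • ch χ with hP
  have h1 : m.sq P = ∑ χ ∈ s, ‖fc m f χ‖ ^ 2 := sq_sum_ch m hm s _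
  have h2 : m (f * star P) = ((∑ χ ∈ s, ‖fc m f χ‖ ^ 2 : ℝ) : ℂ) := by
    rw [hP, mean_mul_sum_ch]
    push_cast
    refine Finset.sum_congr rfl fun χ _ => ?_
    rw [mul_comm, Complex.mul_conj, Complex.normSq_eq_norm_sq]
    push_cast; rfl
  have h3 := m.sq_nonneg (f - P)
  have h4 : m.sq (f - P) = m.sq f - 2 * (m (f * star P)).re + m.sq P := by
    rw [Mn.sq, Mn.sq, Mn.sq]
    have : (f - P) * star (f - P) = f * star f - f * star P - star (f * star P) + P * star P := by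
      rw [star_mul, star_star, star_sub]; ring
    rw [this, map_add, map_sub, map_sub, m.star']
    simp only [Complex.add_re, Complex.sub_re, Complex.conj_re]
    ring
  rw [h4, h1, h2, Complex.ofReal_re] at h3
  linarith

/-- the set of large Fourier coefficients is finite -/
lemma exists_large (m : Mn G) (hm : m.Inv) {f : Bf G} (hf : In01 f) (C : ℝ) (hC : 0 < C) :
    ∃ Q : Finset (AddChar G Circle), (∀ ψ, ψ ∈ Q ↔ C < ‖fc m f ψ‖ ^ 2) ∧ (Q.card : ℝ) ≤ 1 / C := by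
  classical
  have key : ∀ s : Finset (AddChar G Circle), (∀ ψ ∈ s, C < ‖fc m f ψ‖ ^ 2) →
      (s.card : ℝ) ≤ 1 / C := by
    intro s hs
    have h1 := bessel m hm f s
    have h2 : ∑ ψ ∈ s, C ≤ ∑ χ ∈ s, ‖fc m f χ‖ ^ 2 := Finset.sum_le_sum (fun ψ h => (hs ψ h).le)
    rw [Finset.sum_const, nsmul_eq_mul] at h2
    rw [le_div_iff₀ hC]
    linarith [sq_in01 m hf]
  have hfin : {ψ | C < ‖fc m f ψ‖ ^ 2}.Finite := by
    by_contra hinf
    obtain ⟨n, hn⟩ := exists_nat_gt (1 / C)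
    obtain ⟨t, ht, htc⟩ := Set.Infinite.exists_subset_card_eq hinf n
    have := key t (fun ψ h => ht h)
    rw [htc] at this
    linarith
  refine ⟨hfin.toFinset, fun ψ => by simp, key _ (fun ψ h => by simpa using h)⟩

/-- decomposition -/
theorem decomp (m : Mn G) (hm : m.Inv) (K : Subgroup (AddChar G Circle))
    (Q Q' QK : Finset (AddChar G Circle)) (hQK : ∀ ψ, ψ ∈ QK ↔ ψ ∈ Q ∧ ψ ∈ K)
    {f : Bf G} (hf : In01 f) (N : ℕ) (hN : 0 < N) (S : Sm m K QK N) (C : ℝ) (hC0 : 0 ≤ C)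
    (hC : ∀ ψ, ψ ∉ Q' → ‖fc m f ψ‖ ^ 2 ≤ C) (Q1 : Finset (AddChar G Circle))
    (hQ1 : ∀ ψ, ψ ∈ Q1 ↔ ψ ∈ Q' ∧ ψ ∉ Q) (E : ℝ) (hE : ∑ ψ ∈ Q1, ‖fc m f ψ‖ ^ 2 ≤ E) :
    ∃ g1 g2 g3 : Bf G, f = S.S.T (S.S.T f) + (g1 + g2 + g3) ∧
      (∃ (s : Finset (AddChar G Circle)) (a : AddChar G Circle → ℂ), (∀ ψ ∈ s, ψ ∉ K) ∧
        g1 = ∑ ψ ∈ s, a ψ • ch ψ) ∧
      m.sq g2 ≤ 16 / (N : ℝ) ^ 2 + E ∧ m.sq g3 ≤ 9 ∧ ∀ ψ, ‖fc m g3 ψ‖ ^ 2 ≤ C := by
  classical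
  have hN' : (0:ℝ) < N := by exact_mod_cast hN
  set b : AddChar G Circle → ℂ := fun ψ => ((1 - (S.κ ψ) ^ 2 : ℝ) : ℂ) * fc m f ψ with hb
  have hκ1 : ∀ ψ, ‖((1 - (S.κ ψ) ^ 2 : ℝ) : ℂ)‖ ≤ 1 := by
    intro ψ
    rw [Complex.norm_real, Real.norm_eq_abs, abs_le]
    have h1 := S.nonneg ψ
    have h2 := S.le_one ψ
    constructor <;> nlinarith
  have hb1 : ∀ ψ, ‖b ψ‖ ^ 2 ≤ ‖fc m f ψ‖ ^ 2 := by
    intro ψ
    simp only [hb, norm_mul]
    have := hκ1 ψ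
    have h0 := norm_nonneg ((1 - (S.κ ψ) ^ 2 : ℝ) : ℂ)
    have h1 := norm_nonneg (fc m f ψ)
    gcongr
    nlinarith
  set P : Bf G := ∑ ψ ∈ Q', b ψ • ch ψ with hP
  set g1 : Bf G := ∑ ψ ∈ Q'.filter (fun ψ => ψ ∉ K), b ψ • ch ψ with hg1
  set g2 : Bf G := ∑ ψ ∈ Q'.filter (fun ψ => ψ ∈ K), b ψ • ch ψ with hg2
  have hPg : P = g1 + g2 := by
    rw [hP, hg1, hg2, add_comm]
    exact (Finset.sum_filter_add_sum_filter_not Q' (fun ψ => ψ ∈ K) _).symm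
  refine ⟨g1, g2, f - S.S.T (S.S.T f) - P, by rw [hPg]; ring,
    ⟨_, b, fun ψ hψ => (Finset.mem_filter.1 hψ).2, rfl⟩, ?_, ?_, ?_⟩
  · -- g2
    rw [hg2, sq_sum_ch m hm]
    have h1 : ∀ ψ ∈ Q'.filter (fun ψ => ψ ∈ K), ‖b ψ‖ ^ 2 ≤
        (16 / (N:ℝ) ^ 2) * ‖fc m f ψ‖ ^ 2 + (if ψ ∈ Q1 then ‖fc m f ψ‖ ^ 2 else 0) := by
      intro ψ hψ
      have hψ' := Finset.mem_filter.1 hψ
      by_cases h : ψ ∈ Q
      · have hk : ψ ∈ QK := (hQK ψ).2 ⟨h, hψ'.2⟩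
        have h2 := S.near ψ hk
        have h3 := S.nonneg ψ
        have h4 := S.le_one ψ
        have h5 : |1 - (S.κ ψ) ^ 2| ≤ (4:ℝ) / (N:ℝ) := by
          rw [abs_of_nonneg (by nlinarith)]
          have : (4:ℝ) / N = 2 / N * 2 := by ring
          rw [this]
          have h20 : (0:ℝ) ≤ 2 / N := by positivity
          calc 1 - (S.κ ψ) ^ 2 = (1 - S.κ ψ) * (1 + S.κ ψ) := by ring
            _ ≤ 2 / N * 2 := by gcongr; linarith
        have h6 : ‖b ψ‖ ^ 2 ≤ (16 / (N:ℝ) ^ 2) * ‖fc m f ψ‖ ^ 2 := by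
          simp only [hb, norm_mul, Complex.norm_real, Real.norm_eq_abs, mul_pow]
          have : |1 - (S.κ ψ) ^ 2| ^ 2 ≤ (4 / (N:ℝ)) ^ 2 := by gcongr
          have e : (4 / (N:ℝ)) ^ 2 = 16 / (N:ℝ) ^ 2 := by ring
          rw [e] at this
          gcongr
        refine h6.trans (le_add_of_nonneg_right ?_)
        split_ifs <;> positivity
      · rw [if_pos ((hQ1 ψ).2 ⟨hψ'.1, h⟩)]
        have h7 : 0 ≤ (16 / (N:ℝ) ^ 2) * ‖fc m f ψ‖ ^ 2 := by positivity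
        linarith [hb1 ψ]
    refine (Finset.sum_le_sum h1).trans ?_
    rw [Finset.sum_add_distrib, ← Finset.mul_sum]
    have h2 := bessel m hm f (Q'.filter (fun ψ => ψ ∈ K))
    have h3 := sq_in01 m hf
    have h4 : ∑ ψ ∈ Q'.filter (fun ψ => ψ ∈ K), (if ψ ∈ Q1 then ‖fc m f ψ‖ ^ 2 else 0) ≤ E := by
      rw [← Finset.sum_filter]
      refine (Finset.sum_le_sum_of_subset_of_nonneg (t := Q1) (fun ψ h => (Finset.mem_filter.1 h).2)
        (fun ψ _ _ => by positivity)).trans hE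
    have h5 : (0:ℝ) ≤ 16 / (N:ℝ) ^ 2 := by positivity
    have h6 : (16 / (N:ℝ) ^ 2) * ∑ ψ ∈ Q'.filter (fun ψ => ψ ∈ K), ‖fc m f ψ‖ ^ 2 ≤
        16 / (N:ℝ) ^ 2 * 1 := mul_le_mul_of_nonneg_left (h2.trans h3) h5
    linarith
  · -- g3
    have h1 : m.sq P ≤ 1 := by
      rw [hP, sq_sum_ch m hm]
      exact (Finset.sum_le_sum (fun ψ _ => hb1 ψ)).trans ((bessel m hm f Q').trans (sq_in01 m hf))
    have h2 : m.sq (f - S.S.T (S.S.T f)) ≤ 1 := by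
      apply m.sq_le
      intro x
      obtain ⟨a1, a2, a3⟩ := hf.re x
      obtain ⟨b1, b2, b3⟩ := (S.S.in01 (S.S.in01 hf)).re x
      rw [Bf.sub_apply, a3, b3, ← Complex.ofReal_sub, Complex.norm_real, Real.norm_eq_abs, sq_abs]
      nlinarith
    have h3 := sq_add_le m (f - S.S.T (S.S.T f)) (-P)
    rw [sq_neg, ← sub_eq_add_neg] at h3
    linarith
  · intro ψ
    have h1 : fc m (S.S.T (S.S.T f)) ψ = (((S.κ ψ) ^ 2 : ℝ) : ℂ) * fc m f ψ := by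
      rw [fc, S.mult, S.mult, fc]; push_cast; ring
    rw [fc_sub, fc_sub, h1, hP, fc_sum_ch m hm]
    by_cases h : ψ ∈ Q'
    · rw [if_pos h]
      have : fc m f ψ - (((S.κ ψ) ^ 2 : ℝ) : ℂ) * fc m f ψ - b ψ = 0 := by
        simp only [hb]; push_cast; ring
      rw [this]; simpa using hC0
    · rw [if_neg h, sub_zero]
      have : fc m f ψ - (((S.κ ψ) ^ 2 : ℝ) : ℂ) * fc m f ψ = b ψ := by
        simp only [hb]; push_cast; ring
      rw [this]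
      exact (hb1 ψ).trans (hC ψ h)

end

end Pool.Agent.H64.Bohr
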