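import Pool.Agent.H64.Bohr.Amen

/-!
Ergodic invariant means.
-/

namespace Pool.Agent.H64.Bohr

open scoped ComplexOrder ComplexConjugate
open Filter Topology

noncomputable section

variable {G : Type*} [AddCommGroup G]

namespace Mn

/-- correlation function -/
def corr (m : Mn G) (F Φ : Bf G) : Bf G := Bf.mk' (fun k => m (F * Φ.sh k))
  (F.exists_bound.choose * Φ.exists_bound.choose) (fun k => by
    refine m.norm_le _ _ (fun x => ?_)
    have h1 := F.exists_bound.choose_spec
    have h2 := Φ.exists_bound.choose_spec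
    rw [Bf.mul_apply, norm_mul]
    exact mul_le_mul (h1.2 _) (h2.2 _) (norm_nonneg _) h1.1)

@[simp] lemma corr_apply (m : Mn G) (F Φ : Bf G) (k : G) : m.corr F Φ k = m (F * Φ.sh k) := rfl

lemma corr_add_left (m : Mn G) (A B Φ : Bf G) : m.corr (A + B) Φ = m.corr A Φ + m.corr B Φ := by
  ext k
  simp only [Mn.corr_apply, Bf.add_apply]
  rw [← map_add]; congr 1; ext x; simp; ring

lemma corr_add_right (m : Mn G) (A Φ Ψ : Bf G) :
    m.corr A (Φ + Ψ) = m.corr A Φ + m.corr A Ψ := by
  ext k
  simp only [Mn.corr_apply, Bf.add_apply]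
  rw [← map_add]; congr 1; ext x; simp; ring

lemma corr_smul_left (m : Mn G) (c : ℂ) (A Φ : Bf G) : m.corr (c • A) Φ = c • m.corr A Φ := by
  ext k
  simp only [Mn.corr_apply, Bf.smul_apply]
  rw [← m.map_smul']; congr 1; ext x; simp

lemma corr_smul_right (m : Mn G) (c : ℂ) (A Φ : Bf G) : m.corr A (c • Φ) = c • m.corr A Φ := by
  ext k
  simp only [Mn.corr_apply, Bf.smul_apply]
  rw [← m.map_smul']; congr 1; ext x; simp; ring

/-- ergodicity of an invariant mean (with respect to itself) -/
def Erg (m : Mn G) : Prop := ∀ F Φ : Bf G, m (m.corr F Φ) = m F * m Φ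

end Mn

/-- the set of invariant means, as a set of functionals -/
def IM (G : Type*) [AddCommGroup G] : Set (Bf G → ℂ) :=
  {L | (∀ F Φ, L (F + Φ) = L F + L Φ) ∧ (∀ (c : ℂ) F, L (c • F) = c * L F) ∧
    (∀ F : Bf G, (∀ x, 0 ≤ F x) → 0 ≤ L F) ∧ L 1 = 1 ∧ ∀ (k : G) (F : Bf G), L (F.sh k) = L F}

/-- functional to mean -/
def toMn (L : Bf G → ℂ) (h : L ∈ IM G) : Mn G where
  lin := { toFun := L, map_add' := h.1, map_smul' := fun c F => by simpa using h.2.1 c F }
  nonneg' := h.2.2.1
  one' := h.2.2.2.1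

lemma toMn_inv (L : Bf G → ℂ) (h : L ∈ IM G) : (toMn L h).Inv := h.2.2.2.2

@[simp] lemma toMn_apply (L : Bf G → ℂ) (h : L ∈ IM G) (F : Bf G) : (toMn L h) F = L F := rfl

lemma mem_IM (m : Mn G) (hm : m.Inv) : (fun F => m F) ∈ IM G := by
  refine ⟨fun F Φ => map_add _ _ _, fun c F => by simp, m.nonneg', m.one', hm⟩

lemma isClosed_IM : IsClosed (IM G) := by
  have : IM G = (⋂ F : Bf G, ⋂ Φ : Bf G, {L | L (F + Φ) = L F + L Φ}) ∩
      ((⋂ c : ℂ, ⋂ F : Bf G, {L | L (c • F) = c * L F}) ∩
      ((⋂ F : Bf G, ⋂ _ : (∀ x, 0 ≤ F x), {L | 0 ≤ L F}) ∩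
      ({L | L 1 = 1} ∩ ⋂ k : G, ⋂ F : Bf G, {L | L (F.sh k) = L F}))) := by
    ext L
    simp only [IM, Set.mem_inter_iff, Set.mem_iInter, Set.mem_ofPred_eq]
  rw [this]
  refine IsClosed.inter (isClosed_iInter fun F => isClosed_iInter fun Φ =>
    isClosed_eq (by fun_prop) (by fun_prop)) ?_
  refine IsClosed.inter (isClosed_iInter fun c => isClosed_iInter fun F =>
    isClosed_eq (by fun_prop) (by fun_prop)) ?_
  refine IsClosed.inter (isClosed_iInter fun F => isClosed_iInter fun _ =>
    isClosed_le continuous_const (continuous_apply _)) ?_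
  refine IsClosed.inter (isClosed_eq (continuous_apply _) continuous_const) ?_
  exact isClosed_iInter fun k => isClosed_iInter fun F =>
    isClosed_eq (continuous_apply _) (continuous_apply _)

lemma isCompact_IM : IsCompact (IM G) := by
  have h1 : IsCompact (Set.pi Set.univ
      (fun F : Bf G => Metric.closedBall (0:ℂ) (F.exists_bound.choose))) :=
    isCompact_univ_pi (fun F => isCompact_closedBall _ _)
  refine h1.of_isClosed_subset isClosed_IM ?_
  intro L hL F _
  rw [mem_closedBall_zero_iff]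
  exact (toMn L hL).norm_le F _ (fun x => F.exists_bound.choose_spec.2 x)

lemma convex_IM : Convex ℝ (IM G) := by
  intro L hL M hM a b ha hb hab
  have hab' : (a : ℂ) + (b : ℂ) = 1 := by exact_mod_cast hab
  refine ⟨?_, ?_, ?_, ?_, ?_⟩
  · intro F Φ
    simp only [Pi.add_apply, Pi.smul_apply, Complex.real_smul, hL.1, hM.1]; ring
  · intro c F
    simp only [Pi.add_apply, Pi.smul_apply, Complex.real_smul, hL.2.1, hM.2.1]; ring
  · intro F hF
    simp only [Pi.add_apply, Pi.smul_apply, Complex.real_smul]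
    exact add_nonneg (mul_nonneg (by exact_mod_cast ha) (hL.2.2.1 F hF))
      (mul_nonneg (by exact_mod_cast hb) (hM.2.2.1 F hF))
  · simp only [Pi.add_apply, Pi.smul_apply, Complex.real_smul, hL.2.2.2.1, hM.2.2.2.1, mul_one]
    exact hab'
  · intro k F
    simp only [Pi.add_apply, Pi.smul_apply, Complex.real_smul, hL.2.2.2.2, hM.2.2.2.2]

lemma exists_extreme (m : Mn G) (hm : m.Inv) (f : Bf G) (c : ℝ) (hc : c < (m f).re) :
    ∃ L ∈ (IM G).extremePoints ℝ, c < (L f).re := by
  by_contra hcon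
  push Not at hcon
  have hsub : closure (convexHull ℝ ((IM G).extremePoints ℝ)) ⊆ {L : Bf G → ℂ | (L f).re ≤ c} := by
    apply closure_minimal
    · apply convexHull_min
      · intro L hL; exact hcon L hL
      · intro L hL M hM a b ha hb hab
        simp only [Set.mem_ofPred_eq, Pi.add_apply, Pi.smul_apply, Complex.add_re,
          Complex.real_smul, Complex.re_ofReal_mul] at hL hM ⊢
        calc a * (L f).re + b * (M f).re ≤ a * c + b * c :=
              add_le_add (mul_le_mul_of_nonneg_left hL ha) (mul_le_mul_of_nonneg_left hM hb)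
          _ = c := by rw [← add_mul, hab, one_mul]
    · exact isClosed_le (Complex.continuous_re.comp (continuous_apply _)) continuous_const
  rw [closure_convexHull_extremePoints isCompact_IM convex_IM] at hsub
  have := hsub (mem_IM m hm)
  simp only [Set.mem_ofPred_eq] at this
  exact absurd this (not_le.2 hc)

/-- a real function with values in `[0,1]`: the basic identity -/
lemma erg_aux (L : Bf G → ℂ) (hL : L ∈ (IM G).extremePoints ℝ) (F : Bf G)
    (h0 : ∀ x, 0 ≤ F x) (h1 : ∀ x, 0 ≤ (1 - F) x) (Φ : Bf G) :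
    (toMn L hL.1) ((toMn L hL.1).corr F Φ) = L F * L Φ := by
  set m := toMn L hL.1 with hm
  have hinv : m.Inv := toMn_inv _ _
  have hmF : ∀ F, m F = L F := fun _ => rfl
  -- properties of `corr`
  have cadd := m.corr_add_right
  have csmul : ∀ (A : Bf G) (c : ℂ) (Φ : Bf G), m.corr A (c • Φ) = c • m.corr A Φ :=
    fun A c Φ => m.corr_smul_right c A Φ
  have cnn : ∀ (A Φ : Bf G), (∀ x, 0 ≤ A x) → (∀ x, 0 ≤ Φ x) → 0 ≤ m (m.corr A Φ) := by
    intro A Φ hA hΦ
    apply m.nonneg'
    intro k
    apply m.nonneg'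
    intro x
    exact mul_nonneg (hA x) (hΦ _)
  have cone : ∀ A : Bf G, m (m.corr A 1) = m A := by
    intro A
    have : m.corr A 1 = Bf.const G (m A) := by
      ext k
      simp only [Mn.corr_apply, Bf.const_apply]
      congr 1; ext x; simp
    rw [this, m.const']
  have cshift : ∀ (A : Bf G) (k : G) (Φ : Bf G), m (m.corr A (Φ.sh k)) = m (m.corr A Φ) := by
    intro A k Φ
    rw [← hinv k (m.corr A Φ)]
    congr 1
    ext l
    simp only [Mn.corr_apply, Bf.sh_apply]
    congr 1; ext x
    simp only [Bf.mul_apply, Bf.sh_apply]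
    rw [add_assoc]
  have cinv1 : ∀ Φ : Bf G, m (m.corr 1 Φ) = m Φ := by
    intro Φ
    have : m.corr 1 Φ = Bf.const G (m Φ) := by
      ext k
      simp only [Mn.corr_apply, Bf.const_apply, one_mul]
      exact hinv k Φ
    rw [this, m.const']
  have csub : ∀ Φ, m (m.corr (1 - F) Φ) = m Φ - m (m.corr F Φ) := by
    intro Φ
    rw [← cinv1 Φ, ← map_sub]
    congr 1
    ext k
    simp only [Mn.corr_apply, Bf.sub_apply]
    rw [← map_sub]; congr 1; ext x; simp; ring
  have hF1 : 0 ≤ m F := m.nonneg' F h0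
  have hF2 : 0 ≤ 1 - m F := by
    have := m.nonneg' (1 - F) h1
    rwa [map_sub, m.one'] at this
  -- the two functionals
  let P : Bf G → ℂ := fun Φ => m (m.corr F Φ) + (1 - m F) * m Φ
  let M : Bf G → ℂ := fun Φ => m (m.corr (1 - F) Φ) + m F * m Φ
  have hP : P ∈ IM G := by
    refine ⟨?_, ?_, ?_, ?_, ?_⟩
    · intro Φ Ψ; simp only [P, cadd, map_add]; ring
    · intro c Φ; simp only [P, csmul, map_smul, smul_eq_mul]; ring
    · intro Φ hΦ
      exact add_nonneg (cnn _ _ h0 hΦ) (mul_nonneg hF2 (m.nonneg' _ hΦ))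
    · simp only [P, cone, m.one']; ring
    · intro k Φ; simp only [P, cshift]; rw [hinv]
  have hM : M ∈ IM G := by
    refine ⟨?_, ?_, ?_, ?_, ?_⟩
    · intro Φ Ψ; simp only [M, cadd, map_add]; ring
    · intro c Φ; simp only [M, csmul, map_smul, smul_eq_mul]; ring
    · intro Φ hΦ
      exact add_nonneg (cnn _ _ h1 hΦ) (mul_nonneg hF1 (m.nonneg' _ hΦ))
    · simp only [M, cone, m.one', map_sub]; ring
    · intro k Φ; simp only [M, cshift]; rw [hinv]
  have hseg : L ∈ openSegment ℝ P M := by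
    refine ⟨1/2, 1/2, by norm_num, by norm_num, by norm_num, ?_⟩
    funext Φ
    simp only [P, M, Pi.add_apply, Pi.smul_apply, csub, hmF, Complex.real_smul]
    push_cast
    ring
  have hPL : P = L := hL.2 hP hM hseg
  have := congrFun hPL Φ
  simp only [P, hmF] at this
  show m (m.corr F Φ) = L F * L Φ
  rw [hmF] at *
  linear_combination this

theorem erg_of_extreme (L : Bf G → ℂ) (hL : L ∈ (IM G).extremePoints ℝ) :
    (toMn L hL.1).Erg := by
  intro F Φ
  set m := toMn L hL.1 with hm
  have cadd := m.corr_add_left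
  have csmul : ∀ (A : Bf G) (c : ℂ) (Φ : Bf G), m.corr (c • A) Φ = c • m.corr A Φ :=
    fun A c Φ => m.corr_smul_left c A Φ
  -- real functions
  have hreal : ∀ A : Bf G, (∀ x, (A x).im = 0) → m (m.corr A Φ) = m A * m Φ := by
    intro A hA
    obtain ⟨C, hC0, hC⟩ := A.exists_bound
    set D : ℝ := C + 1 with hD
    have hDpos : 0 < D := by linarith
    have hDc : (D : ℂ) ≠ 0 := by exact_mod_cast hDpos.ne'
    obtain ⟨B, hB⟩ : ∃ B : Bf G, B = (1/(2 * (D : ℂ))) • (A + (D : ℂ) • 1) := ⟨_, rfl⟩
    have hBx : ∀ x, B x = (((A x).re + D) / (2 * D) : ℝ) := by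
      intro x
      have : A x = ((A x).re : ℂ) := by
        apply Complex.ext <;> simp [hA x]
      simp only [hB, Bf.smul_apply, Bf.add_apply, Bf.one_apply]
      rw [this]; push_cast
      simp only [Complex.ofReal_re]
      field_simp
    have hb : ∀ x, -C ≤ (A x).re ∧ (A x).re ≤ C := fun x =>
      abs_le.1 ((Complex.abs_re_le_norm (A x)).trans (hC x))
    have e := erg_aux L hL B (fun x => by
        rw [hBx x]
        have := (hb x).1
        exact_mod_cast div_nonneg (by linarith) (by linarith)) (fun x => by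
        rw [Bf.sub_apply, Bf.one_apply, hBx x]
        have h2 := (hb x).2
        have : ((A x).re + D) / (2 * D) ≤ 1 := by
          rw [div_le_one (by linarith)]; linarith
        have h3 : (0:ℝ) ≤ 1 - ((A x).re + D) / (2 * D) := by linarith
        exact_mod_cast h3) Φ
    have hA' : A = (2 * (D:ℂ)) • B + (-(D:ℂ)) • 1 := by
      ext x
      simp only [hB, Bf.add_apply, Bf.smul_apply, Bf.one_apply]
      field_simp
      ring
    have e1 := erg_aux L hL 1 (fun x => by simp) (fun x => by simp) Φ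
    change m (m.corr B Φ) = m B * m Φ at e
    change m (m.corr 1 Φ) = m 1 * m Φ at e1
    rw [hA', cadd, csmul, csmul, map_add, map_smul, map_smul, e, e1, map_add, map_smul, map_smul]
    simp only [smul_eq_mul]
    ring
  have hF : F = F.rea + Complex.I • F.ima := F.eq_rea_add_ima
  rw [hF, cadd, csmul, map_add, map_smul, map_add, map_smul,
    hreal F.rea (fun x => by rw [Bf.rea_apply]; simp),
    hreal F.ima (fun x => by rw [Bf.ima_apply]; simp)]
  simp only [smul_eq_mul]
  ring

/-- existence of ergodic means giving at least the weight `c` to a given function -/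
theorem exists_erg (m : Mn G) (hm : m.Inv) (f : Bf G) (c : ℝ) (hc : c < (m f).re) :
    ∃ m' : Mn G, m'.Inv ∧ m'.Erg ∧ c < (m' f).re := by
  obtain ⟨L, hL, hcL⟩ := exists_extreme m hm f c hc
  exact ⟨toMn L hL.1, toMn_inv _ _, erg_of_extreme L hL, hcL⟩

end

end Pool.Agent.H64.Bohr
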