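import Pool.Agent.H64.Bohr.Level2

/-!
Extending characters, and subgroups of finite index.
-/

namespace Pool.Agent.H64.Bohr

open scoped ComplexOrder ComplexConjugate
open Filter Topology

noncomputable section

open Classical in
instance divCircle : DivisibleBy (Additive Circle) ℤ where
  div a n := if n = 0 then 0 else Additive.ofMul (Circle.exp (Complex.arg (Additive.toMul a : Circle) / n))
  div_zero a := if_pos rfl
  div_cancel := by
    intro n a hn
    rw [if_neg hn]
    apply Additive.toMul.injective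
    rw [toMul_zsmul, toMul_ofMul]
    have hn' : (n : ℝ) ≠ 0 := by exact_mod_cast hn
    have h1 : (Circle.exp (Complex.arg (Additive.toMul a : Circle) / n)) ^ n =
        Circle.exp (n * (Complex.arg (Additive.toMul a : Circle) / n)) := by
      have := map_zsmul Circle.expHom n (Complex.arg (Additive.toMul a : Circle) / n)
      have h2 := congrArg Additive.toMul this
      rw [toMul_zsmul] at h2
      rw [zsmul_eq_mul] at h2
      exact h2.symm
    rw [h1, mul_div_cancel₀ _ hn', Circle.exp_arg]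

variable {G H : Type*} [AddCommGroup G] [AddCommGroup H]

/-- extension of characters -/
lemma char_extend (f : G →+ H) (ψ : AddChar G Circle) (hψ : ∀ x, f x = 0 → ψ x = 1) :
    ∃ X : AddChar H Circle, ∀ x, X (f x) = ψ x := by
  let ψ' : G →+ Additive Circle :=
    { toFun := fun x => Additive.ofMul (ψ x)
      map_zero' := by simp
      map_add' := fun x y => by rw [AddChar.map_add_eq_mul]; rfl }
  let g : G ⧸ f.ker →+ Additive Circle := QuotientAddGroup.lift f.ker ψ' (fun x hx => by
    show Additive.ofMul (ψ x) = 0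
    rw [hψ x hx]; rfl)
  obtain ⟨h, hh⟩ := (Module.Baer.of_divisible (A := Additive Circle)).extension_property_addMonoidHom
    (QuotientAddGroup.kerLift f) (QuotientAddGroup.kerLift_injective f) g
  refine ⟨{ toFun := fun y => Additive.toMul (h y)
            map_zero_eq_one' := by simp
            map_add_eq_mul' := fun x y => by rw [map_add]; rfl }, fun x => ?_⟩
  have := DFunLike.congr_fun hh (x : G ⧸ f.ker)
  exact congrArg Additive.toMul this

lemma root_far (z : ℂ) (n : ℕ) (hn : 0 < n) (hz : z ^ n = 1) (hz1 : z ≠ 1) : 1 / (n:ℝ) ≤ ‖z - 1‖ := by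
  by_contra hcon
  push Not at hcon
  have hn' : (0:ℝ) < n := by exact_mod_cast hn
  have hznorm : ‖z‖ = 1 := Complex.norm_eq_one_of_pow_eq_one hz hn.ne'
  have hgeom : ∑ i ∈ Finset.range n, z ^ i = 0 := by
    have := geom_sum_mul z n
    rw [hz, sub_self] at this
    rcases mul_eq_zero.1 this with h | h
    · exact h
    · exact absurd (sub_eq_zero.1 h) hz1
  have h1 : ∀ i : ℕ, ‖z ^ i - 1‖ ≤ i * ‖z - 1‖ := by
    intro i
    induction i with
    | zero => simp
    | succ i ih =>
      have : z ^ (i + 1) - 1 = z * (z ^ i - 1) + (z - 1) := by ring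
      rw [this]
      calc _ ≤ _ := norm_add_le _ _
        _ ≤ 1 * (i * ‖z - 1‖) + ‖z - 1‖ := by
            rw [norm_mul, hznorm]; gcongr
        _ = _ := by push_cast; ring
  have h2 : (n : ℂ) = - ∑ i ∈ Finset.range n, (z ^ i - 1) := by
    rw [Finset.sum_sub_distrib, hgeom]; simp
  have h3 : (n : ℝ) ≤ ∑ i ∈ Finset.range n, (i:ℝ) * ‖z - 1‖ := by
    calc (n:ℝ) = ‖(n:ℂ)‖ := by simp
      _ = ‖∑ i ∈ Finset.range n, (z ^ i - 1)‖ := by rw [h2, norm_neg]
      _ ≤ ∑ i ∈ Finset.range n, ‖z ^ i - 1‖ := norm_sum_le _ _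
      _ ≤ _ := Finset.sum_le_sum fun i _ => h1 i
  have h4 : ∑ i ∈ Finset.range n, (i:ℝ) * ‖z - 1‖ < n := by
    have h5 : ∀ i ∈ Finset.range n, (i:ℝ) * ‖z - 1‖ < 1 := by
      intro i hi
      have hi' : (i:ℝ) ≤ n := by exact_mod_cast (Finset.mem_range.1 hi).le
      calc (i:ℝ) * ‖z - 1‖ ≤ n * ‖z - 1‖ := by gcongr
        _ < n * (1 / n) := by gcongr
        _ = 1 := by field_simp
    calc _ < ∑ i ∈ Finset.range n, (1:ℝ) :=
          Finset.sum_lt_sum_of_nonempty (by rw [Finset.nonempty_range_iff]; exact hn.ne') h5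
      _ = n := by simp
  linarith

/-- subgroups of finite index contain Bohr sets -/
lemma index_bohr (R : AddSubgroup G) (hR : R.index ≠ 0) :
    ∃ (ι : Type) (_ : Fintype ι) (X : ι → AddChar G Circle), Fintype.card ι = R.index ∧
      ∀ g : G, (∀ i, ‖(X i g : ℂ) - 1‖ < 1 / (R.index : ℝ)) → g ∈ R := by
  classical
  have : R.FiniteIndex := ⟨hR⟩
  let _ : Fintype (G ⧸ R) := Fintype.ofFinite _
  have hcard : Fintype.card (G ⧸ R) = R.index := by
    rw [AddSubgroup.index, Nat.card_eq_fintype_card]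
  have key : ∀ q : G ⧸ R, ∃ ψ : AddChar (G ⧸ R) Circle, q ≠ 0 → ψ q ≠ 1 := by
    intro q
    by_cases hq : q = 0
    · exact ⟨1, fun h => absurd hq h⟩
    · obtain ⟨ψ, hψ⟩ := AddChar.exists_apply_ne_zero.2 hq
      refine ⟨AddChar.circleEquivComplex.symm ψ, fun _ h => hψ ?_⟩
      have h1 : AddChar.circleEquivComplex (AddChar.circleEquivComplex.symm ψ) q = ψ q := by
        rw [AddEquiv.apply_symm_apply]
      rw [← h1]
      show ((AddChar.circleEquivComplex.symm ψ q : Circle) : ℂ) = 1
      rw [h, Circle.coe_one]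
  choose Y hY using key
  refine ⟨Fin (Fintype.card (G ⧸ R)), inferInstance,
    fun i => (Y ((Fintype.equivFin _).symm i)).compAddMonoidHom (QuotientAddGroup.mk' R), by simp [hcard], ?_⟩
  intro g hg
  by_contra hcon
  have hq : (g : G ⧸ R) ≠ 0 := fun h => hcon ((QuotientAddGroup.eq_zero_iff g).1 h)
  have h1 := hg (Fintype.equivFin _ (g : G ⧸ R))
  simp only [Equiv.symm_apply_apply] at h1
  have h2 : ((Y (g : G ⧸ R)).compAddMonoidHom (QuotientAddGroup.mk' R)) g = Y (g : G ⧸ R) (g : G ⧸ R) := rfl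
  rw [h2] at h1
  have h3 : (Y (g : G ⧸ R) (g : G ⧸ R) : ℂ) ^ R.index = 1 := by
    rw [← Circle.coe_pow, ← AddChar.map_nsmul_eq_pow, ← hcard, card_nsmul_eq_zero,
      AddChar.map_zero_eq_one, Circle.coe_one]
  have h4 : (Y (g : G ⧸ R) (g : G ⧸ R) : ℂ) ≠ 1 := by
    intro h
    apply hY _ hq
    apply Circle.ext
    rw [h, Circle.coe_one]
  have := root_far _ _ (Nat.pos_of_ne_zero hR) h3 h4
  linarith

end

end Pool.Agent.H64.Bohr
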