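import Pool.Agent.H64.Bohr.Ext

/-!
Uniform parameters and the final theorem for ergodic means.
-/

namespace Pool.Agent.H64.Bohr

open scoped ComplexOrder ComplexConjugate
open Filter Topology

noncomputable section

universe u v

/-- parameter functions -/
def prq (C : ℝ) : ℕ := ⌊1 / C⌋₊

/-- bound for the number of characters -/
def prB (d N : ℕ) (C : ℝ) : ℕ := d * N ^ (2 * prq C)

/-- length of the Dirichlet sums -/
def prM (d N : ℕ) (D C : ℝ) : ℕ := ⌈16 * (prB d N C : ℝ) / D⌉₊ + 1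

/-- smallness of the uniform part -/
def prρ (d N : ℕ) (D τ C : ℝ) : ℝ := τ / ((prM d N D C : ℝ) ^ 2) ^ (2 * prB d N C)

/-- next threshold -/
def prnext (d r N : ℕ) (D τ C : ℝ) : ℝ := min C (prρ d N D τ C ^ 4 / (9 * (r:ℝ) ^ 3))

/-- sequence of thresholds -/
def prC (d r N : ℕ) (D τ : ℝ) : ℕ → ℝ
  | 0 => 1
  | i + 1 => prnext d r N D τ (prC d r N D τ i)

lemma prM_pos (d N : ℕ) (D C : ℝ) : 0 < prM d N D C := Nat.succ_pos _

lemma prρ_pos (d N : ℕ) (D τ C : ℝ) (hτ : 0 < τ) : 0 < prρ d N D τ C := by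
  have : (0:ℝ) < prM d N D C := by exact_mod_cast prM_pos d N D C
  unfold prρ
  positivity

lemma prC_pos (d r N : ℕ) (hr : 0 < r) (D τ : ℝ) (hτ : 0 < τ) (i : ℕ) : 0 < prC d r N D τ i := by
  induction i with
  | zero => exact one_pos
  | succ i ih =>
    have h1 := prρ_pos d N D τ (prC d r N D τ i) hτ
    have h2 : (0:ℝ) < r := by exact_mod_cast hr
    exact lt_min ih (by positivity)

theorem uniform (d r : ℕ) (hr : 0 < r) (D : ℝ) (hD : 0 < D) :
    ∃ (k : ℕ) (η : ℝ), 0 < η ∧ ∀ (G : Type u) [AddCommGroup G] (Γ : Type v) [AddCommGroup Γ]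
      (W : Mn Γ) (_ : W.Inv) (m : Mn G) (_ : m.Inv) (_ : m.Erg) (p : Fin d → (Γ →+ G))
      (K : Fin d → Subgroup (AddChar G Circle)) (_ : Slots p K r) (f : Bf G) (_ : In01 f)
      (_ : 0 < (m f).re) (_ : D ≤ (m f).re ^ (d + 1)) (jd : Fin d),
      ∃ (ι : Type) (_ : Fintype ι) (χ : ι → AddChar G Circle), Fintype.card ι ≤ k ∧
        (∀ i, χ i ∈ K jd) ∧ ∀ t : G, (∀ i, ‖(χ i t : ℂ) - 1‖ ≤ η) →
          ∃ (u : Γ) (a : G), f (a + p jd u + t) ≠ 0 ∧ ∀ j, j ≠ jd → f (a + p j u) ≠ 0 := by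
  classical
  set τ : ℝ := D / (8 * (d + 1)) with hτdef
  have hτ : 0 < τ := by positivity
  set N : ℕ := ⌈6 / τ⌉₊ + 1 with hNdef
  have hN : 0 < N := Nat.succ_pos _
  have hN6 : 6 / τ ≤ N := by
    rw [hNdef]; push_cast
    exact (Nat.le_ceil _).trans (by linarith)
  set L : ℕ := ⌈2 / τ ^ 2⌉₊ + 1 with hLdef
  have hL : 0 < L := Nat.succ_pos _
  have hL2 : 2 / τ ^ 2 ≤ L := by
    rw [hLdef]; push_cast
    exact (Nat.le_ceil _).trans (by linarith)
  set Cs : ℕ → ℝ := prC d r N D τ with hCs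
  have hCpos : ∀ i, 0 < Cs i := prC_pos d r N hr D τ hτ
  have hr' : (0:ℝ) < r := by exact_mod_cast hr
  set Bt : ℕ := ∑ i ∈ Finset.range L, prB d N (Cs i) with hBt
  set kt : ℕ := ∑ i ∈ Finset.range L, N ^ (2 * prq (Cs i)) with hkt
  refine ⟨kt, D / (8 * (Bt + 1)), by positivity, ?_⟩
  intro G _ Γ _ W hW m hm herg p K hS f hf hpos hDm jd
  -- large spectra
  have hlarge := fun i => exists_large m hm hf (Cs i) (hCpos i)
  choose Q hQ1 hQ2 using hlarge
  have hmono : ∀ i, Q i ⊆ Q (i + 1) := by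
    intro i ψ hψ
    rw [hQ1] at hψ ⊢
    refine lt_of_le_of_lt ?_ hψ
    exact min_le_left _ _
  set S : ℕ → ℝ := fun i => ∑ ψ ∈ Q i, ‖fc m f ψ‖ ^ 2 with hSdef
  obtain ⟨i, hiL, hi⟩ : ∃ i ∈ Finset.range L, S (i + 1) - S i ≤ 1 / L := by
    by_contra hcon
    push Not at hcon
    have hL' : (0:ℝ) < L := by exact_mod_cast hL
    have h1 : ∑ i ∈ Finset.range L, (1 / (L:ℝ)) < ∑ i ∈ Finset.range L, (S (i + 1) - S i) :=
      Finset.sum_lt_sum_of_nonempty (by rw [Finset.nonempty_range_iff]; exact hL.ne') hcon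
    rw [Finset.sum_range_sub, Finset.sum_const, Finset.card_range, nsmul_eq_mul,
      mul_one_div_cancel hL'.ne'] at h1
    have h2 : S L ≤ 1 := (bessel m hm f (Q L)).trans (sq_in01 m hf)
    have h3 : 0 ≤ S 0 := Finset.sum_nonneg (fun _ _ => by positivity)
    linarith
  have hL' : (0:ℝ) < L := by exact_mod_cast hL
  have hE : ∑ ψ ∈ Q (i + 1) \ Q i, ‖fc m f ψ‖ ^ 2 ≤ τ ^ 2 / 2 := by
    have h1 : ∑ ψ ∈ Q (i + 1) \ Q i, ‖fc m f ψ‖ ^ 2 = S (i + 1) - S i := by
      have := Finset.sum_sdiff (hmono i) (f := fun ψ => ‖fc m f ψ‖ ^ 2)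
      simp only [hSdef]
      linarith
    rw [h1]
    refine hi.trans ?_
    rw [div_le_iff₀ hL']
    have := (div_le_iff₀ (by positivity)).1 hL2
    nlinarith
  set C := Cs i with hC
  set q := prq C with hq
  set B := prB d N C with hB
  set M := prM d N D C with hM
  set ρ := prρ d N D τ C with hρ
  have hM0 : 0 < M := prM_pos _ _ _ _
  have hM0' : (0:ℝ) < M := by exact_mod_cast hM0
  have hρ0 : 0 < ρ := prρ_pos _ _ _ _ _ hτ
  have hBle : B ≤ Bt := by
    rw [hBt]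
    exact Finset.single_le_sum (f := fun i => prB d N (Cs i)) (fun _ _ => Nat.zero_le _) hiL
  have hkle : N ^ (2 * q) ≤ kt := by
    rw [hkt]
    exact Finset.single_le_sum (f := fun i => N ^ (2 * prq (Cs i))) (fun _ _ => Nat.zero_le _) hiL
  have hBt' : (B:ℝ) ≤ Bt := by exact_mod_cast hBle
  have hB0 : (0:ℝ) ≤ B := Nat.cast_nonneg _
  obtain ⟨ι, hι, χ, h1, h2, h3⟩ := level W hW m hm herg p K r hS hf (m f).re hpos rfl
    (Q i) (Q (i + 1)) (Q (i + 1) \ Q i) (fun ψ => by rw [Finset.mem_sdiff]) N M q B hN hM0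
    (by
      rw [hq, prq]
      exact Nat.le_floor (hQ2 i))
    (Cs (i + 1)) τ ρ (τ ^ 2 / 2) (D / (8 * (Bt + 1))) (hCpos _).le hτ.le hρ0.le (by positivity)
    (fun ψ hψ => by
      rw [hQ1] at hψ
      exact not_lt.1 hψ) hE le_rfl
    (by
      have hN' : (0:ℝ) < N := by exact_mod_cast hN
      have h4 : 6 ≤ N * τ := by
        rw [div_le_iff₀ hτ] at hN6; exact hN6
      have h5 : 16 / (N:ℝ) ^ 2 ≤ τ ^ 2 / 2 := by
        rw [div_le_iff₀ (by positivity)]
        have : (36:ℝ) ≤ (N * τ) ^ 2 := by nlinarith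
        nlinarith
      linarith)
    (by
      have h4 : 16 * (B:ℝ) / D ≤ M := by
        rw [hM, prM]; push_cast
        exact (Nat.le_ceil _).trans (by linarith)
      rw [div_le_iff₀ hD] at h4
      have h5 : (B:ℝ) * (2 / M) ≤ D / 8 := by
        rw [mul_div_assoc', div_le_div_iff₀ hM0' (by norm_num)]
        linarith
      linarith)
    (by
      rw [hρ, prρ, ← hM, ← hB]
      have : (0:ℝ) < ((M:ℝ) ^ 2) ^ (2 * B) := by positivity
      rw [mul_div_cancel₀ _ this.ne'])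
    (by
      have h4 : Cs (i + 1) ≤ ρ ^ 4 / (9 * (r:ℝ) ^ 3) := min_le_right _ _
      rw [le_div_iff₀ (by positivity)] at h4
      linarith)
    (by
      have h4 : (B:ℝ) * (D / (8 * (Bt + 1))) ≤ D / 8 := by
        rw [mul_div_assoc', div_le_div_iff₀ (by positivity) (by norm_num)]
        nlinarith
      linarith)
    (by
      have h4 : (d:ℝ) * (2 * τ) ≤ D / 4 := by
        rw [hτdef]
        have hd : (0:ℝ) ≤ d := Nat.cast_nonneg _
        have : (d:ℝ) * (2 * (D / (8 * (d + 1)))) = D / 4 * (d / (d + 1)) := by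
          field_simp
          ring
        rw [this]
        have h5 : (d:ℝ) / (d + 1) ≤ 1 := by
          rw [div_le_one (by positivity)]; linarith
        calc _ ≤ D / 4 * 1 := by gcongr
          _ = _ := mul_one _
      linarith) jd
  exact ⟨ι, hι, χ, h1.trans hkle, h2, h3⟩

section concrete

variable {G : Type u} [AddCommGroup G] {d : ℕ}

/-- the group of solutions -/
def solHom (φ : Fin d → (G →+ G)) : (Fin d → G) →+ G := ∑ j, (φ j).comp (Pi.evalAddMonoidHom (fun _ => G) j)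

lemma solHom_apply (φ : Fin d → (G →+ G)) (u : Fin d → G) : solHom φ u = ∑ j, φ j (u j) := by
  simp [solHom]

/-- characters trivial on the kernel -/
def kerK (f : G →+ G) : Subgroup (AddChar G Circle) where
  carrier := {ψ | ∀ x, f x = 0 → ψ x = 1}
  mul_mem' := fun {a b} ha hb x hx => by rw [AddChar.mul_apply, ha x hx, hb x hx, one_mul]
  one_mem' := fun x _ => rfl
  inv_mem' := fun {a} ha x hx => by rw [AddChar.inv_apply, AddChar.map_neg_eq_inv, ha x hx, inv_one]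

end concrete

end

end Pool.Agent.H64.Bohr
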