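import Pool.Agent.H64.Bohr.U2

/-!
Nonnegative trigonometric kernels.
-/

namespace Pool.Agent.H64.Bohr

open scoped ComplexOrder ComplexConjugate
open Filter Topology

noncomputable section

variable {X : Type*} [AddCommGroup X]

lemma ch_mul (ψ χ : AddChar X Circle) : ch (ψ * χ) = ch ψ * ch χ := by
  ext x
  simp only [Bf.mul_apply, ch_apply, AddChar.mul_apply, Circle.coe_mul]

lemma ch_one : ch (1 : AddChar X Circle) = 1 := by
  ext x
  simp only [Bf.one_apply, ch_apply, AddChar.one_apply, Circle.coe_one]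

lemma ch_inv (ψ : AddChar X Circle) : ch (ψ⁻¹) = star (ch ψ) := by
  ext x
  rw [ch_apply, Bf.star_apply, ch_apply, AddChar.inv_apply', Circle.coe_inv_eq_conj]

lemma ch_pow (ψ : AddChar X Circle) (n : ℕ) : ch (ψ ^ n) = ch ψ ^ n := by
  ext x
  rw [ch_apply, Bf.pow_apply, ch_apply, AddChar.pow_apply, Circle.coe_pow]

open Classical in
lemma mean_ch (m : Mn X) (hm : m.Inv) (ψ : AddChar X Circle) :
    m (ch ψ) = if ψ = 1 then 1 else 0 := by
  split_ifs with h
  · rw [h, ch_one, m.one']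
  · obtain ⟨g, hg⟩ : ∃ g, ψ g ≠ 1 := by
      by_contra hcon
      push Not at hcon
      exact h (by ext x; rw [hcon x]; rfl)
    have h1 : (ch ψ).sh g = (ψ g : ℂ) • ch ψ := by
      ext x
      simp only [Bf.sh_apply, Bf.smul_apply, ch_apply, AddChar.map_add_eq_mul, Circle.coe_mul]
      ring
    have h2 := hm g (ch ψ)
    rw [h1, m.map_smul'] at h2
    have h3 : ((ψ g : ℂ) - 1) * m (ch ψ) = 0 := by linear_combination h2
    rcases mul_eq_zero.1 h3 with h4 | h4
    · exfalso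
      apply hg
      apply Circle.ext
      rw [Circle.coe_one]
      exact sub_eq_zero.1 h4
    · exact h4

/-- sums of `≤ n` characters from the subgroup `K` -/
def PC (K : Subgroup (AddChar X Circle)) (n : ℕ) (β : Bf X) : Prop :=
  ∃ (ι : Type) (_ : Fintype ι) (χ : ι → AddChar X Circle), Fintype.card ι ≤ n ∧
    (∀ i, χ i ∈ K) ∧ β = ∑ i, ch (χ i)

namespace PC

variable {K : Subgroup (AddChar X Circle)} {n n' : ℕ} {β β' : Bf X}

lemma one : PC K 1 (1 : Bf X) :=
  ⟨Unit, inferInstance, fun _ => 1, by simp, fun _ => K.one_mem, by simp [ch_one]⟩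

lemma ch' {ψ : AddChar X Circle} (h : ψ ∈ K) : PC K 1 (ch ψ) :=
  ⟨Unit, inferInstance, fun _ => ψ, by simp, fun _ => h, by simp⟩

lemma mul (h : PC K n β) (h' : PC K n' β') : PC K (n * n') (β * β') := by
  obtain ⟨ι, _, χ, h1, h2, rfl⟩ := h
  obtain ⟨ι', _, χ', h1', h2', rfl⟩ := h'
  refine ⟨ι × ι', inferInstance, fun p => χ p.1 * χ' p.2, ?_, fun p => K.mul_mem (h2 _) (h2' _), ?_⟩
  · rw [Fintype.card_prod]; exact Nat.mul_le_mul h1 h1'
  · rw [Finset.sum_mul_sum, Fintype.sum_prod_type]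
    simp only [ch_mul]

lemma re_nonneg (m : Mn X) (hm : m.Inv) (h : PC K n β) : 0 ≤ (m β).re := by
  classical
  obtain ⟨ι, _, χ, h1, h2, rfl⟩ := h
  rw [map_sum, Complex.re_sum]
  apply Finset.sum_nonneg
  intro i _
  rw [mean_ch m hm]
  split_ifs <;> simp

end PC

/-- Dirichlet sum -/
def ds (N : ℕ) (θ : AddChar X Circle) : Bf X := ∑ n ∈ Finset.range N, ch θ ^ n

/-- Fejer type kernel -/
def dk (N : ℕ) (θ : AddChar X Circle) : Bf X := ds N θ * star (ds N θ)

lemma dk_nonneg (N : ℕ) (θ : AddChar X Circle) (x : X) : 0 ≤ dk N θ x := by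
  rw [dk, Bf.mul_apply, Bf.star_apply, Complex.mul_conj]
  exact_mod_cast Complex.normSq_nonneg _

lemma dk_zero (N : ℕ) (θ : AddChar X Circle) : dk N θ 0 = (N : ℂ) ^ 2 := by
  rw [dk, Bf.mul_apply, Bf.star_apply, ds, Bf.sum_apply]
  simp [ch_apply, sq]

lemma dk_eq (N : ℕ) (θ : AddChar X Circle) :
    dk N θ = ∑ a ∈ Finset.range N, ∑ b ∈ Finset.range N, ch (θ ^ a * (θ ^ b)⁻¹) := by
  rw [dk, ds, star_sum, Finset.sum_mul_sum]
  refine Finset.sum_congr rfl fun a _ => Finset.sum_congr rfl fun b _ => ?_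
  rw [ch_mul, ch_inv, ch_pow, ch_pow]

lemma dk_pc (K : Subgroup (AddChar X Circle)) (N : ℕ) (θ : AddChar X Circle) (h : θ ∈ K) :
    PC K (N ^ 2) (dk N θ) := by
  refine ⟨Fin N × Fin N, inferInstance, fun p => θ ^ (p.1 : ℕ) * (θ ^ (p.2 : ℕ))⁻¹, ?_, ?_, ?_⟩
  · simp [sq]
  · intro p
    exact K.mul_mem (K.pow_mem h _) (K.inv_mem (K.pow_mem h _))
  · rw [dk_eq, Fintype.sum_prod_type, Finset.sum_range]
    refine Finset.sum_congr rfl fun a _ => ?_
    rw [Finset.sum_range]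

lemma dk_diff (N : ℕ) (θ : AddChar X Circle) (x : X) :
    (dk N θ x).re * ‖(θ x : ℂ) - 1‖ ^ 2 ≤ 4 := by
  have h1 : (dk N θ x).re = ‖ds N θ x‖ ^ 2 := by
    rw [dk]; exact Mn.mul_star_re _ _
  have h2 : ds N θ x * ((θ x : ℂ) - 1) = (θ x : ℂ) ^ N - 1 := by
    rw [ds, Bf.sum_apply]
    simp only [Bf.pow_apply, ch_apply]
    exact geom_sum_mul _ _
  rw [h1, ← mul_pow, ← norm_mul, h2]
  have h3 : ‖(θ x : ℂ) ^ N - 1‖ ≤ 2 := by
    calc _ ≤ ‖(θ x : ℂ) ^ N‖ + ‖(1:ℂ)‖ := norm_sub_le _ _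
      _ = 2 := by rw [norm_pow, Circle.norm_coe]; norm_num
  nlinarith [norm_nonneg ((θ x : ℂ) ^ N - 1)]

lemma mean_mul_dk (m : Mn X) (hm : m.Inv) {K : Subgroup (AddChar X Circle)} {n : ℕ} {β : Bf X}
    (h : PC K n β) (N : ℕ) (θ : AddChar X Circle) (hθ : θ ∈ K) :
    (N : ℝ) * (m β).re ≤ (m (β * dk N θ)).re := by
  classical
  rw [dk_eq, Finset.mul_sum, map_sum, Complex.re_sum]
  have h1 : ∀ a ∈ Finset.range N, (m β).re ≤
      (m (β * ∑ b ∈ Finset.range N, ch (θ ^ a * (θ ^ b)⁻¹))).re := by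
    intro a ha
    rw [Finset.mul_sum, map_sum, Complex.re_sum]
    have h2 : (m β).re = (m (β * ch (θ ^ a * (θ ^ a)⁻¹))).re := by
      rw [mul_inv_cancel, ch_one, mul_one]
    rw [h2]
    refine Finset.single_le_sum (f := fun b => (m (β * ch (θ ^ a * (θ ^ b)⁻¹))).re)
      (fun b _ => ?_) ha
    exact PC.re_nonneg m hm
      (h.mul (PC.ch' (K.mul_mem (K.pow_mem hθ a) (K.inv_mem (K.pow_mem hθ b)))))
  calc (N : ℝ) * (m β).re = ∑ a ∈ Finset.range N, (m β).re := by simp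
    _ ≤ _ := Finset.sum_le_sum h1

/-- product kernel -/
def DK {I : Type*} (N : ℕ) (s : Finset I) (θ : I → AddChar X Circle) : Bf X := ∏ i ∈ s, dk N (θ i)

section

variable {I : Type*} (N : ℕ) (s : Finset I) (θ : I → AddChar X Circle)

lemma DK_nonneg (x : X) : 0 ≤ DK N s θ x := by
  rw [DK, Bf.prod_apply]
  exact Finset.prod_nonneg (fun i _ => dk_nonneg _ _ _)

lemma DK_zero : DK N s θ 0 = (N : ℂ) ^ (2 * s.card) := by
  rw [DK, Bf.prod_apply]
  simp only [dk_zero, Finset.prod_const, ← pow_mul]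

lemma DK_pc (K : Subgroup (AddChar X Circle)) (h : ∀ i ∈ s, θ i ∈ K) :
    PC K (N ^ (2 * s.card)) (DK N s θ) := by
  classical
  induction s using Finset.induction_on with
  | empty => simpa [DK] using (PC.one (K := K))
  | insert a s ha ih =>
    rw [DK, Finset.prod_insert ha, Finset.card_insert_of_notMem ha]
    have h1 := (dk_pc K N (θ a) (h a (Finset.mem_insert_self _ _))).mul
      (ih (fun i hi => h i (Finset.mem_insert_of_mem hi)))
    convert h1 using 1
    · ring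
    · rfl

lemma one_le_DK (m : Mn X) (hm : m.Inv) (hN : 0 < N) : 1 ≤ (m (DK N s θ)).re := by
  classical
  induction s using Finset.induction_on with
  | empty => simp [DK, m.one']
  | insert a s ha ih =>
    rw [DK, Finset.prod_insert ha, mul_comm]
    have h1 := mean_mul_dk m hm (K := ⊤) (DK_pc N s θ ⊤ (fun i _ => Subgroup.mem_top _)) N (θ a)
      (Subgroup.mem_top _)
    have hN' : (1:ℝ) ≤ N := by exact_mod_cast hN
    calc (1:ℝ) ≤ N * (m (DK N s θ)).re := by nlinarith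
      _ ≤ _ := h1

/-- squared distance of a character to `1` -/
def df (θ : AddChar X Circle) : Bf X := (ch θ - 1) * star (ch θ - 1)

lemma df_re (θ : AddChar X Circle) (x : X) : (df θ x).re = ‖(θ x : ℂ) - 1‖ ^ 2 := by
  rw [df, Mn.mul_star_re]; rfl

lemma df_im (θ : AddChar X Circle) (x : X) : (df θ x).im = 0 := by
  rw [df, Bf.mul_apply, Bf.star_apply, Complex.mul_conj, Complex.ofReal_im]

lemma DK_diff (m : Mn X) (hm : m.Inv) (hN : 0 < N) (i : I) (hi : i ∈ s) :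
    (m (DK N s θ * df (θ i))).re ≤ 4 / N * (m (DK N s θ)).re := by
  classical
  have hN' : (0:ℝ) < N := by exact_mod_cast hN
  have h1 : DK N s θ = DK N (s.erase i) θ * dk N (θ i) := by
    rw [DK, DK, mul_comm, Finset.mul_prod_erase s (fun i => dk N (θ i)) hi]
  have h2 := mean_mul_dk m hm (K := ⊤)
    (DK_pc N (s.erase i) θ ⊤ (fun i _ => Subgroup.mem_top _)) N (θ i) (Subgroup.mem_top _)
  rw [← h1] at h2
  have h3 := m.re_mono (DK N s θ * df (θ i)) (((4:ℝ) : ℂ) • DK N (s.erase i) θ) (fun x => by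
    have a1 := Complex.nonneg_iff.1 (DK_nonneg N (s.erase i) θ x)
    have a2 := Complex.nonneg_iff.1 (dk_nonneg N (θ i) x)
    have a3 := df_re (θ i) x
    have a4 := df_im (θ i) x
    have a5 := dk_diff N (θ i) x
    rw [h1, Bf.mul_apply, Bf.mul_apply, Bf.smul_apply, Complex.re_ofReal_mul]
    simp only [Complex.mul_re, Complex.mul_im, ← a1.2, ← a2.2, a3, a4]
    nlinarith)
  rw [m.map_smul', Complex.re_ofReal_mul] at h3
  rw [div_mul_eq_mul_div, le_div_iff₀ hN']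
  nlinarith

end

end

end Pool.Agent.H64.Bohr
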