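import Pool.Agent.H64.Bohr.Count

/-!
Main term and the estimate at one level.
-/

namespace Pool.Agent.H64.Bohr

open scoped ComplexOrder ComplexConjugate
open Filter Topology

noncomputable section

variable {G : Type*} [AddCommGroup G] {Γ : Type*} [AddCommGroup Γ] {d : ℕ}

lemma Mn.prod_fst {X Y : Type*} (W : Mn X) (m : Mn Y) (F : Bf X) :
    (W.prod m) (F.comp Prod.fst) = W F := by
  have : F.comp Prod.fst = tn F (1 : Bf Y) := by
    ext z; simp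
  rw [this, Mn.prod_tn, m.one', mul_one]

lemma prod_diff_le {ι : Type*} (s : Finset ι) (x y : ι → ℝ) (hx : ∀ i ∈ s, 0 ≤ x i ∧ x i ≤ 1)
    (hy : ∀ i ∈ s, 0 ≤ y i ∧ y i ≤ 1) :
    ∏ i ∈ s, x i - ∑ i ∈ s, |y i - x i| ≤ ∏ i ∈ s, y i := by
  classical
  induction s using Finset.induction_on with
  | empty => simp
  | insert a s ha ih =>
    rw [Finset.prod_insert ha, Finset.prod_insert ha, Finset.sum_insert ha]
    have h1 := ih (fun i hi => hx i (Finset.mem_insert_of_mem hi))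
      (fun i hi => hy i (Finset.mem_insert_of_mem hi))
    obtain ⟨a0, a1⟩ := hx a (Finset.mem_insert_self _ _)
    obtain ⟨b0, b1⟩ := hy a (Finset.mem_insert_self _ _)
    have p0 : 0 ≤ ∏ i ∈ s, x i :=
      Finset.prod_nonneg (fun i hi => (hx i (Finset.mem_insert_of_mem hi)).1)
    have p1 : ∏ i ∈ s, x i ≤ 1 :=
      Finset.prod_le_one (fun i hi => (hx i (Finset.mem_insert_of_mem hi)).1)
        (fun i hi => (hx i (Finset.mem_insert_of_mem hi)).2)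
    have s0 : 0 ≤ ∑ i ∈ s, |y i - x i| := Finset.sum_nonneg (fun i _ => abs_nonneg _)
    set P := ∏ i ∈ s, x i
    set Q := ∏ i ∈ s, y i
    set S := ∑ i ∈ s, |y i - x i|
    have h2 : x a - y a ≤ |y a - x a| := by
      rw [abs_sub_comm]; exact le_abs_self _
    have h3 : x a * P - y a * Q = (x a - y a) * P + y a * (P - Q) := by ring
    have h4 : (x a - y a) * P ≤ |y a - x a| * 1 := by
      have := abs_nonneg (y a - x a)
      calc (x a - y a) * P ≤ |y a - x a| * P := mul_le_mul_of_nonneg_right h2 p0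
        _ ≤ |y a - x a| * 1 := mul_le_mul_of_nonneg_left p1 this
    have h5 : y a * (P - Q) ≤ S := by
      calc y a * (P - Q) ≤ y a * S := mul_le_mul_of_nonneg_left (by linarith) b0
        _ ≤ 1 * S := mul_le_mul_of_nonneg_right b1 s0
        _ = S := one_mul _
    linarith

/-- main term -/
lemma TT_main (W : Mn Γ) (hW : W.Inv) (m : Mn G) (p : Fin d → (Γ →+ G))
    (ι : Fin d → Type) [∀ j, Fintype (ι j)] (χ : ∀ j, ι j → AddChar G Circle)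
    (F : Fin d → Bf G) (hF : ∀ j, In01 (F j)) (a : ∀ j, ι j → ℂ) (ha : ∀ j i, ‖a j i‖ ≤ 1)
    (hFa : ∀ j, F j = ∑ i, a j i • ch (χ j i)) (M : ℕ) (hM : 0 < M) (s : Fin d → G) :
    (W (DK (M ^ 2) Finset.univ (fun x : (Σ j, ι j) => pc (p x.1) (χ x.1 x.2)))).re *
      ((m (∏ j, F j)).re - ∑ x : (Σ j, ι j), (2 / (M:ℝ) + ‖(χ x.1 x.2 (s x.1) : ℂ) - 1‖)) ≤
    (TT W m p (DK (M ^ 2) Finset.univ (fun x : (Σ j, ι j) => pc (p x.1) (χ x.1 x.2)))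
      (fun j => (F j).sh (s j))).re := by
  set θ : (Σ j, ι j) → AddChar Γ Circle := fun x => pc (p x.1) (χ x.1 x.2) with hθ
  set β := DK (M ^ 2) Finset.univ θ with hβ
  have hM' : (0:ℝ) < M := by exact_mod_cast hM
  have hM2 : 0 < M ^ 2 := by positivity
  have hβ0 : ∀ u, 0 ≤ (β u).re ∧ β u = ((β u).re : ℂ) := by
    intro u
    have := Complex.nonneg_iff.1 (DK_nonneg (M ^ 2) Finset.univ θ u)
    exact ⟨this.1, by apply Complex.ext <;> simp [hβ, ← this.2]⟩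
  -- pointwise estimate for one function
  have e1 : ∀ (j : Fin d) (x : G) (u : Γ), |(F j (x + p j u + s j)).re - (F j x).re| ≤
      ∑ i, ((M / 4 : ℝ) * (df (θ ⟨j, i⟩) u).re + 1 / (M:ℝ) + ‖(χ j i (s j) : ℂ) - 1‖) := by
    intro j x u
    rw [← Complex.sub_re]
    refine (Complex.abs_re_le_norm _).trans ?_
    rw [hFa j, Bf.sum_apply, Bf.sum_apply, ← Finset.sum_sub_distrib]
    refine (norm_sum_le _ _).trans (Finset.sum_le_sum fun i _ => ?_)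
    have h1 : (a j i • ch (χ j i) : Bf G) (x + p j u + s j) - (a j i • ch (χ j i) : Bf G) x =
        a j i * (χ j i x : ℂ) * (((θ ⟨j, i⟩ u : ℂ) - 1) * (χ j i (s j) : ℂ) +
          ((χ j i (s j) : ℂ) - 1)) := by
      simp only [Bf.smul_apply, ch_apply, AddChar.map_add_eq_mul, Circle.coe_mul, hθ, pc_apply]
      ring
    rw [h1, norm_mul, norm_mul, Circle.norm_coe, mul_one]
    have h2 : ‖((θ ⟨j, i⟩ u : ℂ) - 1) * (χ j i (s j) : ℂ) + ((χ j i (s j) : ℂ) - 1)‖ ≤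
        ‖(θ ⟨j, i⟩ u : ℂ) - 1‖ + ‖(χ j i (s j) : ℂ) - 1‖ := by
      refine (norm_add_le _ _).trans ?_
      rw [norm_mul, Circle.norm_coe, mul_one]
    have h3 : ‖(θ ⟨j, i⟩ u : ℂ) - 1‖ ≤ (M / 4 : ℝ) * (df (θ ⟨j, i⟩) u).re + 1 / (M:ℝ) := by
      rw [df_re]
      set y := ‖(θ ⟨j, i⟩ u : ℂ) - 1‖
      have : (M / 4 : ℝ) * y ^ 2 + 1 / (M:ℝ) - y = (M * y - 2) ^ 2 / (4 * M) := by
        field_simp
        ring
      have h4 : 0 ≤ (M * y - 2) ^ 2 / (4 * (M:ℝ)) := by positivity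
      linarith
    calc ‖a j i‖ * ‖((θ ⟨j, i⟩ u : ℂ) - 1) * (χ j i (s j) : ℂ) + ((χ j i (s j) : ℂ) - 1)‖
        ≤ 1 * (‖(θ ⟨j, i⟩ u : ℂ) - 1‖ + ‖(χ j i (s j) : ℂ) - 1‖) := by
          gcongr
          exact ha j i
      _ ≤ _ := by rw [one_mul]; linarith
  -- pointwise estimate for the product
  have e2 := (W.prod m).re_mono
    (tn β (∏ j, F j) - ∑ x : (Σ j, ι j), (((M / 4 : ℝ) : ℂ) • (β * df (θ x)).comp Prod.fst +
      ((1 / (M:ℝ) + ‖(χ x.1 x.2 (s x.1) : ℂ) - 1‖ : ℝ) : ℂ) • β.comp Prod.fst))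
    (β.comp Prod.fst * ∏ j, pb (p j) ((F j).sh (s j))) (fun z => by
      obtain ⟨b0, br⟩ := hβ0 z.1
      have c1 : ((∏ j, F j : Bf G) z.2) = ((∏ j, (F j z.2).re : ℝ) : ℂ) := by
        rw [Bf.prod_apply]; push_cast
        exact Finset.prod_congr rfl fun j _ => ((hF j).re _).2.2
      have c2 : ((∏ j, pb (p j) ((F j).sh (s j)) : Bf (Γ × G)) z) =
          ((∏ j, (F j (z.2 + p j z.1 + s j)).re : ℝ) : ℂ) := by
        rw [Bf.prod_apply]; push_cast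
        exact Finset.prod_congr rfl fun j _ => ((hF j).re _).2.2
      have c3 := prod_diff_le Finset.univ (fun j => (F j z.2).re)
        (fun j => (F j (z.2 + p j z.1 + s j)).re)
        (fun j _ => ⟨((hF j).re _).1, ((hF j).re _).2.1⟩)
        (fun j _ => ⟨((hF j).re _).1, ((hF j).re _).2.1⟩)
      have c4 : ∑ j, |(F j (z.2 + p j z.1 + s j)).re - (F j z.2).re| ≤
          ∑ x : (Σ j, ι j), ((M / 4 : ℝ) * (df (θ x) z.1).re + 1 / (M:ℝ) +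
            ‖(χ x.1 x.2 (s x.1) : ℂ) - 1‖) := by
        rw [Fintype.sum_sigma]
        exact Finset.sum_le_sum fun j _ => e1 j z.2 z.1
      have c5 : ((∑ x : (Σ j, ι j), (((M / 4 : ℝ) : ℂ) • (β * df (θ x)).comp Prod.fst +
          ((1 / (M:ℝ) + ‖(χ x.1 x.2 (s x.1) : ℂ) - 1‖ : ℝ) : ℂ) • β.comp Prod.fst) :
          Bf (Γ × G)) z).re = (β z.1).re * ∑ x : (Σ j, ι j), ((M / 4 : ℝ) * (df (θ x) z.1).re +
          1 / (M:ℝ) + ‖(χ x.1 x.2 (s x.1) : ℂ) - 1‖) := by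
        rw [Bf.sum_apply, Complex.re_sum, Finset.mul_sum]
        refine Finset.sum_congr rfl fun x _ => ?_
        rw [Bf.add_apply, Bf.smul_apply, Bf.smul_apply, Complex.add_re, Complex.re_ofReal_mul,
          Complex.re_ofReal_mul, Bf.comp_apply, Bf.comp_apply, Bf.mul_apply, br,
          Complex.re_ofReal_mul, Complex.ofReal_re]
        ring
      rw [Bf.sub_apply, Complex.sub_re, c5, tn_apply, c1, br, ← Complex.ofReal_mul,
        Complex.ofReal_re, Bf.mul_apply, Bf.comp_apply, c2, br, ← Complex.ofReal_mul,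
        Complex.ofReal_re, Complex.ofReal_re, ← mul_sub]
      exact mul_le_mul_of_nonneg_left (by linarith) b0)
  have hWim : (W β).im = 0 := W.real_of_real _ (fun u =>
    (Complex.nonneg_iff.1 (DK_nonneg (M ^ 2) Finset.univ θ u)).2.symm)
  have hWre : 0 ≤ (W β).re := W.re_nonneg _ (fun u => (hβ0 u).1)
  refine le_trans ?_ e2
  rw [map_sub, Mn.prod_tn, map_sum, Complex.sub_re, Complex.re_sum, Complex.mul_re, hWim, zero_mul,
    sub_zero, mul_sub]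
  apply sub_le_sub_left
  rw [Finset.mul_sum]
  refine Finset.sum_le_sum fun x _ => ?_
  rw [map_add, Mn.map_smul', Mn.map_smul', Mn.prod_fst, Mn.prod_fst, Complex.add_re,
    Complex.re_ofReal_mul, Complex.re_ofReal_mul]
  have h1 := DK_diff (M ^ 2) Finset.univ θ W hW hM2 x (Finset.mem_univ x)
  have h2 : (M / 4 : ℝ) * (W (β * df (θ x))).re ≤ 1 / (M:ℝ) * (W β).re := by
    calc (M / 4 : ℝ) * (W (β * df (θ x))).re ≤ (M / 4 : ℝ) * (4 / ((M ^ 2 : ℕ) : ℝ) * (W β).re) := by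
          gcongr
      _ = _ := by push_cast; field_simp
  have h3 : (W β).re * (2 / (M:ℝ) + ‖(χ x.1 x.2 (s x.1) : ℂ) - 1‖) =
      1 / (M:ℝ) * (W β).re + (1 / (M:ℝ) + ‖(χ x.1 x.2 (s x.1) : ℂ) - 1‖) * (W β).re := by ring
  rw [h3]
  linarith

/-- one slot error -/
lemma slot_err (W : Mn Γ) (hW : W.Inv) (m : Mn G) (hm : m.Inv) (herg : m.Erg)
    (p : Fin d → (Γ →+ G)) (K : Fin d → Subgroup (AddChar G Circle)) (r : ℕ)
    (hAA : ∀ j0, ∃ j1 : Fin d, j1 ≠ j0 ∧ ∃ H1 H2 : AddSubgroup G, H1.FiniteIndex ∧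
      H2.FiniteIndex ∧ H1.index ≤ r ∧ H2.index ≤ r ∧
      (∀ h ∈ H1, ∃ k : Γ, p j0 k = h ∧ ∀ j, j ≠ j0 → j ≠ j1 → p j k = 0) ∧
      (∀ h ∈ H2, ∃ k : Γ, p j0 k = h ∧ p j1 k = 0))
    (hBB : ∀ j0, ∀ ψ, ψ ∉ K j0 → ∃ k : Γ, ψ (p j0 k) ≠ 1 ∧ (∀ j, j ≠ j0 → p j k = 0) ∧
      ∀ χ ∈ K j0, χ (p j0 k) = 1)
    {n : ℕ} {β : Bf Γ} (hβ : PC (KK p K) n β) (hβ0 : ∀ u, 0 ≤ β u) (hβ1 : 1 ≤ (W β).re)
    (j0 : Fin d) (A : Fin d → Bf G) (hA : ∀ j x, ‖A j x‖ ≤ 1)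
    (g1 g2 g3 : Bf G) (C τ ρ : ℝ) (hC0 : 0 ≤ C) (hτ : 0 ≤ τ) (hρ : 0 ≤ ρ)
    (hg1 : ∃ (s : Finset (AddChar G Circle)) (a : AddChar G Circle → ℂ), (∀ ψ ∈ s, ψ ∉ K j0) ∧
        g1 = ∑ ψ ∈ s, a ψ • ch ψ)
    (hg2 : m.sq g2 ≤ τ ^ 2) (hg3 : m.sq g3 ≤ 9) (hg3' : ∀ ψ, ‖fc m g3 ψ‖ ^ 2 ≤ C)
    (hρ4 : 9 * (r : ℝ) ^ 3 * C ≤ ρ ^ 4) (hn : n * ρ ≤ τ) (t : G) :
    ‖TT W m p β (Function.update A j0 ((g1 + g2 + g3).sh t))‖ ≤ (W β).re * (2 * τ) := by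
  obtain ⟨s, a, hs, rfl⟩ := hg1
  have e : ((∑ ψ ∈ s, a ψ • ch ψ + g2 + g3 : Bf G)).sh t =
      (∑ ψ ∈ s, (a ψ * (ψ t : ℂ)) • ch ψ) + g2.sh t + g3.sh t := by
    ext x
    simp only [Bf.sh_apply, Bf.add_apply, Bf.sum_apply, Bf.smul_apply, ch_apply,
      AddChar.map_add_eq_mul, Circle.coe_mul]
    congr 2
    refine Finset.sum_congr rfl fun ψ _ => by ring
  rw [e, TT_add, TT_add, TT_kill_sum W hW m p K hβ j0 (hBB j0) A s (fun ψ => a ψ * (ψ t : ℂ)) hs,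
    zero_add]
  have h2 := TT_l2 W m hm p hβ0 j0 A hA (g2.sh t) τ hτ (by rw [sq_sh m hm]; exact hg2)
  have h3 := TT_u2 W hW m hm herg p K hβ r j0 (hAA j0) A hA (g3.sh t) C hC0
    (fun ψ => by rw [fc_norm_sh m hm]; exact hg3' ψ) (by rw [sq_sh m hm]; exact hg3) ρ hρ hρ4
  calc _ ≤ _ := norm_add_le _ _
    _ ≤ (W β).re * τ + n * ρ := add_le_add h2 h3
    _ ≤ (W β).re * τ + 1 * τ := by linarith
    _ ≤ (W β).re * τ + (W β).re * τ := by gcongr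
    _ = _ := by ring

end

end Pool.Agent.H64.Bohr
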