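import Pool.Agent.H64.Bohr.Level

/-!
The conclusion at one level.
-/

namespace Pool.Agent.H64.Bohr

open scoped ComplexOrder ComplexConjugate
open Filter Topology

noncomputable section

variable {G : Type*} [AddCommGroup G] {Γ : Type*} [AddCommGroup Γ] {d : ℕ}

/-- structural hypotheses on the system of slots -/
structure Slots (p : Fin d → (Γ →+ G)) (K : Fin d → Subgroup (AddChar G Circle)) (r : ℕ) : Prop where
  two : ∀ j0, ∃ j1 : Fin d, j1 ≠ j0 ∧ ∃ H1 H2 : AddSubgroup G, H1.FiniteIndex ∧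
      H2.FiniteIndex ∧ H1.index ≤ r ∧ H2.index ≤ r ∧
      (∀ h ∈ H1, ∃ k : Γ, p j0 k = h ∧ ∀ j, j ≠ j0 → j ≠ j1 → p j k = 0) ∧
      (∀ h ∈ H2, ∃ k : Γ, p j0 k = h ∧ p j1 k = 0)
  kill : ∀ j0, ∀ ψ, ψ ∉ K j0 → ∃ k : Γ, ψ (p j0 k) ≠ 1 ∧ (∀ j, j ≠ j0 → p j k = 0) ∧
      ∀ χ ∈ K j0, χ (p j0 k) = 1

lemma telescope (W : Mn Γ) (m : Mn G) (p : Fin d → (Γ →+ G)) (β : Bf Γ)
    (A B : Fin d → Bf G) (hA : ∀ j x, ‖A j x‖ ≤ 1) (hB : ∀ j x, ‖B j x‖ ≤ 1) (g : Fin d → Bf G)
    (hg : ∀ j, A j = B j + g j) (e : ℝ)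
    (he : ∀ (j0 : Fin d) (D : Fin d → Bf G), (∀ j x, ‖D j x‖ ≤ 1) →
      ‖TT W m p β (Function.update D j0 (g j0))‖ ≤ e) :
    ‖TT W m p β B - TT W m p β A‖ ≤ d * e := by
  classical
  have key : ∀ s : Finset (Fin d),
      ‖TT W m p β (fun j => if j ∈ s then B j else A j) - TT W m p β A‖ ≤ s.card * e := by
    intro s
    induction s using Finset.induction_on with
    | empty => simp
    | insert j0 s hj ih =>
      have h1 : (fun j => if j ∈ insert j0 s then B j else A j) =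
          Function.update (fun j => if j ∈ s then B j else A j) j0 (B j0) := by
        funext j
        by_cases h : j = j0
        · subst h; simp
        · rw [Function.update_of_ne h]
          simp [h]
      have h2 : (fun j => if j ∈ s then B j else A j) =
          Function.update (fun j => if j ∈ s then B j else A j) j0 (B j0 + g j0) := by
        rw [← hg j0]
        funext j
        by_cases h : j = j0
        · subst h; simp [hj]
        · rw [Function.update_of_ne h]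
      have h3 : TT W m p β (fun j => if j ∈ s then B j else A j) =
          TT W m p β (fun j => if j ∈ insert j0 s then B j else A j) +
          TT W m p β (Function.update (fun j => if j ∈ s then B j else A j) j0 (g j0)) := by
        rw [h1]
        conv_lhs => rw [h2]
        rw [TT_add]
      have h4 := he j0 (fun j => if j ∈ s then B j else A j) (fun j x => by
        split_ifs
        · exact hB j x
        · exact hA j x)
      have h5 : TT W m p β (fun j => if j ∈ insert j0 s then B j else A j) - TT W m p β A =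
          (TT W m p β (fun j => if j ∈ s then B j else A j) - TT W m p β A) -
          TT W m p β (Function.update (fun j => if j ∈ s then B j else A j) j0 (g j0)) := by
        rw [h3]; ring
      rw [h5, Finset.card_insert_of_notMem hj]
      push_cast
      calc _ ≤ _ := norm_sub_le _ _
        _ ≤ s.card * e + e := add_le_add ih h4
        _ = _ := by ring
  have := key Finset.univ
  simpa using this

theorem level (W : Mn Γ) (hW : W.Inv) (m : Mn G) (hm : m.Inv) (herg : m.Erg)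
    (p : Fin d → (Γ →+ G)) (K : Fin d → Subgroup (AddChar G Circle)) (r : ℕ)
    (hS : Slots p K r) {f : Bf G} (hf : In01 f) (δ : ℝ) (hδ : 0 < δ) (hmf : (m f).re = δ)
    (Q Q' Q1 : Finset (AddChar G Circle)) (hQ1 : ∀ ψ, ψ ∈ Q1 ↔ ψ ∈ Q' ∧ ψ ∉ Q)
    (N M q B : ℕ) (hN : 0 < N) (hM : 0 < M) (hq : Q.card ≤ q)
    (C τ ρ E η : ℝ) (hC0 : 0 ≤ C) (hτ : 0 ≤ τ) (hρ : 0 ≤ ρ) (hη : 0 ≤ η)
    (hC : ∀ ψ, ψ ∉ Q' → ‖fc m f ψ‖ ^ 2 ≤ C) (hE : ∑ ψ ∈ Q1, ‖fc m f ψ‖ ^ 2 ≤ E)
    (hB : d * N ^ (2 * q) ≤ B)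
    (hP1 : 16 / (N : ℝ) ^ 2 + E ≤ τ ^ 2)
    (hP2 : B * (2 / (M:ℝ)) ≤ δ ^ (d + 1) / 8)
    (hP3 : ((M:ℝ) ^ 2) ^ (2 * B) * ρ ≤ τ)
    (hP3' : 9 * (r : ℝ) ^ 3 * C ≤ ρ ^ 4)
    (hP4 : B * η ≤ δ ^ (d + 1) / 8)
    (hP5 : d * (2 * τ) ≤ δ ^ (d + 1) / 4) (jd : Fin d) :
    ∃ (ι : Type) (_ : Fintype ι) (χ : ι → AddChar G Circle), Fintype.card ι ≤ N ^ (2 * q) ∧
      (∀ i, χ i ∈ K jd) ∧ ∀ t : G, (∀ i, ‖(χ i t : ℂ) - 1‖ ≤ η) →
        ∃ (u : Γ) (a : G), f (a + p jd u + t) ≠ 0 ∧ ∀ j, j ≠ jd → f (a + p j u) ≠ 0 := by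
  classical
  have hSm : ∀ j, Nonempty (Sm m (K j) (Q.filter (fun ψ => ψ ∈ K j)) N) := fun j =>
    exists_sm m hm (K j) _ (fun ψ hψ => (Finset.mem_filter.1 hψ).2) N hN
  let S := fun j => (hSm j).some
  let _ : ∀ j, Fintype (S j).ι := fun j => (S j).ft
  have hdec := fun j => decomp m hm (K j) Q Q' (Q.filter (fun ψ => ψ ∈ K j))
    (fun ψ => by rw [Finset.mem_filter]) hf N hN (S j) C hC0 hC Q1 hQ1 E hE
  choose g1 g2 g3 hdec1 hdec2 hdec3 hdec4 hdec5 using hdec
  have hcardι : ∀ j, Fintype.card (S j).ι ≤ N ^ (2 * q) := by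
    intro j
    refine ((S j).card_le).trans (Nat.pow_le_pow_right hN ?_)
    exact Nat.mul_le_mul_left 2 ((Finset.card_filter_le _ _).trans hq)
  refine ⟨(S jd).ι, (S jd).ft, (S jd).χ, hcardι jd, (S jd).mem, ?_⟩
  intro t ht
  set s : Fin d → G := fun j => if j = jd then t else 0 with hs
  -- structured parts
  set F : Fin d → Bf G := fun j => (S j).S.T ((S j).S.T f) with hF
  have hF01 : ∀ j, In01 (F j) := fun j => (S j).S.in01 ((S j).S.in01 hf)
  have hspec := fun j => (S j).spec ((S j).S.T f) (fun x => ((S j).S.in01 hf).norm_le x)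
  choose a ha1 ha2 using hspec
  have hmain := TT_main W hW m p (fun j => (S j).ι) (fun j => (S j).χ) F hF01 a ha1 ha2 M hM s
  set θ : (Σ j, (S j).ι) → AddChar Γ Circle := fun x => pc (p x.1) ((S x.1).χ x.2) with hθ
  set β := DK (M ^ 2) Finset.univ θ with hβ
  have hM2 : 0 < M ^ 2 := by positivity
  have hM' : (0:ℝ) < M := by exact_mod_cast hM
  have hcardS : Fintype.card (Σ j, (S j).ι) ≤ B := by
    rw [Fintype.card_sigma]
    refine le_trans ?_ hB
    calc ∑ j, Fintype.card (S j).ι ≤ ∑ j : Fin d, N ^ (2 * q) := Finset.sum_le_sum fun j _ => hcardι j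
      _ = _ := by simp
  have hβpc : PC (KK p K) ((M ^ 2) ^ (2 * B)) β := by
    have h1 := DK_pc (M ^ 2) Finset.univ θ (KK p K) (fun x _ => pc_mem p K x.1 _ ((S x.1).mem x.2))
    obtain ⟨ι, hι, χ, h2, h3, h4⟩ := h1
    refine ⟨ι, hι, χ, h2.trans ?_, h3, h4⟩
    apply Nat.pow_le_pow_right hM2
    rw [Finset.card_univ]
    omega
  have hβ0 : ∀ u, 0 ≤ β u := DK_nonneg _ _ _
  have hβ1 : 1 ≤ (W β).re := one_le_DK _ _ _ W hW hM2
  -- errors
  have herr : ∀ (j0 : Fin d) (D : Fin d → Bf G), (∀ j x, ‖D j x‖ ≤ 1) →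
      ‖TT W m p β (Function.update D j0 ((g1 j0 + g2 j0 + g3 j0).sh (s j0)))‖ ≤
        (W β).re * (2 * τ) := by
    intro j0 D hD
    refine slot_err W hW m hm herg p K r hS.two hS.kill hβpc hβ0 hβ1 j0 D hD (g1 j0) (g2 j0)
      (g3 j0) C τ ρ hC0 hτ hρ (hdec2 j0) ((hdec3 j0).trans hP1) (hdec4 j0) (hdec5 j0) hP3' ?_ (s j0)
    push_cast
    exact hP3
  have htel := telescope W m p β (fun j => f.sh (s j)) (fun j => (F j).sh (s j))
    (fun j x => hf.norm_le _) (fun j x => (hF01 j).norm_le _)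
    (fun j => (g1 j + g2 j + g3 j).sh (s j)) (fun j => by
      conv_lhs => rw [hdec1 j]
      rfl) ((W β).re * (2 * τ)) herr
  -- lower bound of the main term
  have hchu := chu m (fun j => (S j).S) f hf δ hδ hmf
  have hsum : ∑ x : (Σ j, (S j).ι), (2 / (M:ℝ) + ‖((S x.1).χ x.2 (s x.1) : ℂ) - 1‖) ≤
      δ ^ (d + 1) / 4 := by
    have h1 : ∀ x : (Σ j, (S j).ι), (2 / (M:ℝ) + ‖((S x.1).χ x.2 (s x.1) : ℂ) - 1‖) ≤
        2 / (M:ℝ) + η := by
      rintro ⟨j, i⟩
      simp only [hs]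
      split_ifs with h
      · subst h
        have := ht i
        linarith
      · simp only [AddChar.map_zero_eq_one, Circle.coe_one, sub_self, norm_zero]
        linarith
    calc _ ≤ ∑ x : (Σ j, (S j).ι), (2 / (M:ℝ) + η) := Finset.sum_le_sum fun x _ => h1 x
      _ = Fintype.card (Σ j, (S j).ι) * (2 / (M:ℝ) + η) := by
          rw [Finset.sum_const, Finset.card_univ, nsmul_eq_mul]
      _ ≤ B * (2 / (M:ℝ) + η) := by
          have h2 : (Fintype.card (Σ j, (S j).ι) : ℝ) ≤ B := by exact_mod_cast hcardS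
          gcongr
      _ = B * (2 / (M:ℝ)) + B * η := by ring
      _ ≤ δ ^ (d + 1) / 8 + δ ^ (d + 1) / 8 := add_le_add hP2 hP4
      _ = _ := by ring
  have hδ' : 0 < δ ^ (d + 1) := by positivity
  have hpos : 0 < (TT W m p β (fun j => f.sh (s j))).re := by
    have h1 : (W β).re * (δ ^ (d + 1) * (3 / 4)) ≤ (TT W m p β (fun j => (F j).sh (s j))).re := by
      refine le_trans ?_ hmain
      have h0 : 0 ≤ (W β).re := by linarith
      apply mul_le_mul_of_nonneg_left _ h0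
      linarith
    have h2 := (Complex.re_le_norm (TT W m p β (fun j => (F j).sh (s j)) -
      TT W m p β (fun j => f.sh (s j)))).trans htel
    rw [Complex.sub_re] at h2
    have h3 : (d:ℝ) * ((W β).re * (2 * τ)) ≤ (W β).re * (δ ^ (d + 1) / 4) := by
      have h0 : 0 ≤ (W β).re := by linarith
      calc (d:ℝ) * ((W β).re * (2 * τ)) = (W β).re * (d * (2 * τ)) := by ring
        _ ≤ _ := mul_le_mul_of_nonneg_left hP5 h0
    have h4 : 0 < (W β).re * (δ ^ (d + 1) / 2) := by positivity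
    nlinarith
  -- extract a point
  by_contra hcon
  push Not at hcon
  have hzero : β.comp Prod.fst * ∏ j, pb (p j) (f.sh (s j)) = 0 := by
    ext z
    rw [Bf.mul_apply, Bf.prod_apply, Bf.zero_apply]
    apply mul_eq_zero_of_right
    by_cases h : f (z.2 + p jd z.1 + t) = 0
    · apply Finset.prod_eq_zero (Finset.mem_univ jd)
      rw [pb_apply, Bf.sh_apply]
      simp only [hs, if_true]
      exact h
    · obtain ⟨j, hj, hj0⟩ := hcon z.1 z.2 h
      apply Finset.prod_eq_zero (Finset.mem_univ j)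
      rw [pb_apply, Bf.sh_apply]
      simp only [hs, if_neg hj, add_zero]
      exact hj0
  rw [TT, hzero, map_zero] at hpos
  simp at hpos

end

end Pool.Agent.H64.Bohr
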