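import Pool.Agent.H64.Bohr.Seq

/-!
Positive definite functions on abelian groups: extreme normalised ones are characters.
-/

namespace Pool.Agent.H64.Bohr

open scoped ComplexOrder ComplexConjugate
open Filter Topology

noncomputable section

variable {G : Type*} [AddCommGroup G]

/-- positive definite function -/
def PD (ρ : G → ℂ) : Prop := ∀ (n : ℕ) (k : Fin n → G) (ξ : Fin n → ℂ),
  0 ≤ ∑ i, ∑ j, ξ i * conj (ξ j) * ρ (k i - k j)

namespace PD

variable {ρ : G → ℂ} (h : PD ρ)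

include h

lemma fintype {ι : Type*} [Fintype ι] (k : ι → G) (ξ : ι → ℂ) :
    0 ≤ ∑ i, ∑ j, ξ i * conj (ξ j) * ρ (k i - k j) := by
  have h1 := h _ (k ∘ (Fintype.equivFin ι).symm) (ξ ∘ (Fintype.equivFin ι).symm)
  have h2 : ∑ i, ∑ j, ξ i * conj (ξ j) * ρ (k i - k j) =
      ∑ i, ∑ j, (ξ ∘ (Fintype.equivFin ι).symm) i * conj ((ξ ∘ (Fintype.equivFin ι).symm) j) *
        ρ ((k ∘ (Fintype.equivFin ι).symm) i - (k ∘ (Fintype.equivFin ι).symm) j) := by
    rw [← (Fintype.equivFin ι).symm.sum_comp]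
    apply Finset.sum_congr rfl
    intro i _
    rw [← (Fintype.equivFin ι).symm.sum_comp]
    rfl
  rw [h2]; exact h1

lemma zero_nonneg : 0 ≤ ρ 0 := by
  simpa using h 1 (fun _ => 0) (fun _ => 1)

lemma two (x : G) (a b : ℂ) :
    0 ≤ (a * conj a + b * conj b) * ρ 0 + a * conj b * ρ x + b * conj a * ρ (-x) := by
  have := h 2 ![x, 0] ![a, b]
  simp only [Fin.sum_univ_two, Matrix.cons_val_zero, Matrix.cons_val_one, sub_self, sub_zero,
    zero_sub] at this
  convert this using 1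
  ring

lemma herm (x : G) : ρ (-x) = conj (ρ x) := by
  have h0 : (ρ 0).im = 0 := (Complex.nonneg_iff.1 h.zero_nonneg).2.symm
  have h1 := (Complex.nonneg_iff.1 (h.two x 1 1)).2
  have h2 := (Complex.nonneg_iff.1 (h.two x Complex.I 1)).2
  simp [h0] at h1 h2
  apply Complex.ext
  · simp; linarith
  · simp; linarith

lemma norm_le (x : G) : ‖ρ x‖ ≤ (ρ 0).re := by
  obtain ⟨c, hc, hc2⟩ : ∃ c : ℂ, ‖c‖ = 1 ∧ c * ρ x = -‖ρ x‖ := by
    by_cases h0 : ρ x = 0
    · exact ⟨1, by simp, by simp [h0]⟩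
    · refine ⟨-(conj (ρ x) / ‖ρ x‖), ?_, ?_⟩
      · rw [norm_neg, norm_div]; simp [h0]
      · have : (‖ρ x‖ : ℂ) ≠ 0 := by simpa using h0
        rw [neg_mul, div_mul_eq_mul_div, Complex.conj_mul', neg_inj, div_eq_iff this]; ring
  have h1 := (Complex.nonneg_iff.1 (h.two x c 1)).1
  rw [h.herm x] at h1
  have e1 : c * conj c = 1 := by
    rw [Complex.mul_conj, Complex.normSq_eq_norm_sq, hc]; simp
  have e2 : conj c * conj (ρ x) = -‖ρ x‖ := by
    rw [← map_mul, hc2]; simp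
  simp only [e1, map_one, mul_one, one_mul, hc2, e2] at h1
  have e3 : ((1 + 1 : ℂ) * ρ 0).re = 2 * (ρ 0).re := by
    have : ((1 + 1 : ℂ) * ρ 0) = ((2 : ℝ) : ℂ) * ρ 0 := by push_cast; ring
    rw [this, Complex.re_ofReal_mul]
  simp only [Complex.add_re, e3, Complex.neg_re, Complex.ofReal_re] at h1
  linarith

lemma eq_zero (h0 : ρ 0 = 0) (x : G) : ρ x = 0 := by
  have := h.norm_le x
  rw [h0] at this
  simpa using this

lemma smul {a : ℝ} (ha : 0 ≤ a) : PD (fun x => (a : ℂ) * ρ x) := by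
  intro n k ξ
  have : ∑ i, ∑ j, ξ i * conj (ξ j) * ((a : ℂ) * ρ (k i - k j)) =
      (a : ℂ) * ∑ i, ∑ j, ξ i * conj (ξ j) * ρ (k i - k j) := by
    simp only [Finset.mul_sum]
    refine Finset.sum_congr rfl fun i _ => Finset.sum_congr rfl fun j _ => by ring
  rw [this]
  exact mul_nonneg (by exact_mod_cast ha) (h n k ξ)

lemma add {σ : G → ℂ} (h' : PD σ) : PD (fun x => ρ x + σ x) := by
  intro n k ξ
  have : ∑ i, ∑ j, ξ i * conj (ξ j) * (ρ (k i - k j) + σ (k i - k j)) =
      ∑ i, ∑ j, ξ i * conj (ξ j) * ρ (k i - k j) + ∑ i, ∑ j, ξ i * conj (ξ j) * σ (k i - k j) := by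
    simp only [mul_add, Finset.sum_add_distrib]
  rw [this]
  exact add_nonneg (h n k ξ) (h' n k ξ)

/-- the shifted positive definite functions -/
lemma shift (g : G) (c : ℂ) (hc : c * conj c = 1) :
    PD (fun x => 2 * ρ x + c * ρ (x + g) + conj c * ρ (x - g)) := by
  intro n k ξ
  have h1 := h.fintype (ι := Fin n ⊕ Fin n) (Sum.elim k (fun i => k i + g))
    (Sum.elim ξ (fun i => c * ξ i))
  simp only [Fintype.sum_sum_type, Sum.elim_inl, Sum.elim_inr, map_mul] at h1
  convert h1 using 1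
  rw [← Finset.sum_add_distrib]
  apply Finset.sum_congr rfl
  intro i _
  rw [← Finset.sum_add_distrib, ← Finset.sum_add_distrib, ← Finset.sum_add_distrib]
  apply Finset.sum_congr rfl
  intro j _
  have e1 : k i - (k j + g) = k i - k j - g := by abel
  have e2 : k i + g - k j = k i - k j + g := by abel
  have e3 : k i + g - (k j + g) = k i - k j := by abel
  rw [e1, e2, e3]
  linear_combination (-(ξ i * conj (ξ j) * ρ (k i - k j))) * hc

end PD

/-- normalised positive definite functions -/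
def NPD (G : Type*) [AddCommGroup G] : Set (G → ℂ) := {ρ | PD ρ ∧ ρ 0 = 1}

lemma NPD.norm_le {ρ : G → ℂ} (h : ρ ∈ NPD G) (x : G) : ‖ρ x‖ ≤ 1 := by
  have := h.1.norm_le x
  rwa [h.2, Complex.one_re] at this

lemma isClosed_NPD : IsClosed (NPD G) := by
  have : NPD G = (⋂ n : ℕ, ⋂ k : Fin n → G, ⋂ ξ : Fin n → ℂ,
      {ρ : G → ℂ | 0 ≤ ∑ i, ∑ j, ξ i * conj (ξ j) * ρ (k i - k j)}) ∩ {ρ | ρ 0 = 1} := by
    ext ρ
    simp only [NPD, PD, Set.mem_inter_iff, Set.mem_iInter, Set.mem_ofPred_eq]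
  rw [this]
  refine IsClosed.inter (isClosed_iInter fun n => isClosed_iInter fun k => isClosed_iInter fun ξ =>
    isClosed_le continuous_const (by fun_prop)) (isClosed_eq (by fun_prop) (by fun_prop))

lemma isCompact_NPD : IsCompact (NPD G) := by
  have h1 : IsCompact (Set.pi Set.univ (fun _ : G => Metric.closedBall (0:ℂ) 1)) :=
    isCompact_univ_pi (fun _ => isCompact_closedBall _ _)
  refine h1.of_isClosed_subset isClosed_NPD ?_
  intro ρ hρ x _
  rw [mem_closedBall_zero_iff]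
  exact NPD.norm_le hρ x

/-- extreme points: proportionality of summands -/
lemma NPD.prop_of_extreme {ρ : G → ℂ} (hρ : ρ ∈ (NPD G).extremePoints ℝ) {α β : G → ℂ}
    (hα : PD α) (hβ : PD β) (hs : ∀ x, α x + β x = ρ x) (x : G) : α x = α 0 * ρ x := by
  have ha := Complex.nonneg_iff.1 hα.zero_nonneg
  have hb := Complex.nonneg_iff.1 hβ.zero_nonneg
  have ha' : α 0 = ((α 0).re : ℂ) := by apply Complex.ext <;> simp [← ha.2]
  have hb' : β 0 = ((β 0).re : ℂ) := by apply Complex.ext <;> simp [← hb.2]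
  have hsum : (α 0).re + (β 0).re = 1 := by
    have := hs 0
    rw [hρ.1.2] at this
    have := congrArg Complex.re this
    simpa using this
  rcases ha.1.eq_or_lt with h0 | h0
  · have h1 : α 0 = 0 := by rw [ha', ← h0]; simp
    rw [hα.eq_zero h1 x, h1, zero_mul]
  rcases hb.1.eq_or_lt with h0' | h0'
  · have h1 : β 0 = 0 := by rw [hb', ← h0']; simp
    have h2 : α 0 = 1 := by rw [ha']; rw [← h0'] at hsum; simp at hsum; rw [hsum]; simp
    rw [h2, one_mul, ← hs x, hβ.eq_zero h1 x, add_zero]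
  have hac : ((α 0).re : ℂ) ≠ 0 := by exact_mod_cast h0.ne'
  have hbc : ((β 0).re : ℂ) ≠ 0 := by exact_mod_cast h0'.ne'
  have m1 : (fun x => (((α 0).re⁻¹ : ℝ) : ℂ) * α x) ∈ NPD G := by
    refine ⟨hα.smul (inv_nonneg.2 ha.1), ?_⟩
    show (((α 0).re⁻¹ : ℝ) : ℂ) * α 0 = 1
    conv_lhs => rw [ha']
    push_cast; simp only [Complex.ofReal_re]; field_simp
  have m2 : (fun x => (((β 0).re⁻¹ : ℝ) : ℂ) * β x) ∈ NPD G := by
    refine ⟨hβ.smul (inv_nonneg.2 hb.1), ?_⟩
    show (((β 0).re⁻¹ : ℝ) : ℂ) * β 0 = 1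
    conv_lhs => rw [hb']
    push_cast; simp only [Complex.ofReal_re]; field_simp
  have hseg : ρ ∈ openSegment ℝ (fun x => (((α 0).re⁻¹ : ℝ) : ℂ) * α x)
      (fun x => (((β 0).re⁻¹ : ℝ) : ℂ) * β x) := by
    refine ⟨(α 0).re, (β 0).re, h0, h0', hsum, ?_⟩
    funext y
    simp only [Pi.add_apply, Pi.smul_apply, Complex.real_smul]
    rw [← hs y]
    push_cast
    field_simp
  have := hρ.2 m1 m2 hseg
  have h3 := congrFun this x
  rw [← h3]
  conv_rhs => rw [ha']
  push_cast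
  simp only [Complex.ofReal_re]
  field_simp

lemma NPD.mul_of_extreme {ρ : G → ℂ} (hρ : ρ ∈ (NPD G).extremePoints ℝ) (x g : G) :
    ρ (x + g) = ρ x * ρ g := by
  have key : ∀ c : ℂ, c * conj c = 1 →
      c * ρ (x + g) + conj c * ρ (x - g) = (c * ρ g + conj c * ρ (-g)) * ρ x := by
    intro c hc
    have h1 := (hρ.1.1.shift g c hc).smul (a := 1/4) (by norm_num)
    have h2 := (hρ.1.1.shift g (-c) (by rw [map_neg]; linear_combination hc)).smul
      (a := 1/4) (by norm_num)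
    have h3 := NPD.prop_of_extreme hρ h1 h2 (fun y => by push_cast; rw [map_neg]; ring) x
    simp only [zero_add, zero_sub, hρ.1.2] at h3
    push_cast at h3
    linear_combination 4 * h3
  have k1 := key 1 (by simp)
  have k2 := key Complex.I (by simp)
  simp only [map_one, one_mul, Complex.conj_I] at k1 k2
  have k3 : Complex.I * (ρ (x + g) - ρ (x - g)) = Complex.I * ((ρ g - ρ (-g)) * ρ x) := by
    linear_combination k2
  have k4 := mul_left_cancel₀ Complex.I_ne_zero k3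
  linear_combination (k1 + k4) / 2

lemma NPD.norm_of_extreme {ρ : G → ℂ} (hρ : ρ ∈ (NPD G).extremePoints ℝ) (x : G) :
    ‖ρ x‖ = 1 := by
  have h1 := NPD.mul_of_extreme hρ x (-x)
  rw [add_neg_cancel, hρ.1.2] at h1
  have h2 := congrArg norm h1
  rw [norm_mul, norm_one] at h2
  have h3 := NPD.norm_le hρ.1 x
  have h4 := NPD.norm_le hρ.1 (-x)
  nlinarith [norm_nonneg (ρ x), norm_nonneg (ρ (-x))]

/-- extreme points are characters -/
lemma NPD.exists_char {ρ : G → ℂ} (hρ : ρ ∈ (NPD G).extremePoints ℝ) :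
    ∃ ψ : AddChar G Circle, ∀ x, (ψ x : ℂ) = ρ x := by
  refine ⟨{ toFun := fun x => ⟨ρ x, mem_sphere_zero_iff_norm.2 (NPD.norm_of_extreme hρ x)⟩
            map_zero_eq_one' := by
              apply Circle.ext; exact hρ.1.2
            map_add_eq_mul' := by
              intro x y; apply Circle.ext; exact NPD.mul_of_extreme hρ x y }, fun x => rfl⟩

end

end Pool.Agent.H64.Bohr
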