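import Pool.Agent.H64.Bohr.Erg

/-!
Choosing finite families with almost minimal correlations.
-/

namespace Pool.Agent.H64.Bohr

open scoped ComplexOrder ComplexConjugate
open Filter Topology

noncomputable section

variable {G : Type*} [AddCommGroup G]

/-- indicator of a coset -/
def cosInd (H : AddSubgroup G) (q : G ⧸ H) : Bf G := by
  classical
  exact Bf.mk' (fun x => if (x : G ⧸ H) = q then 1 else 0) 1 (fun x => by split_ifs <;> simp)

open Classical in
lemma cosInd_apply (H : AddSubgroup G) (q : G ⧸ H) (x : G) :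
    cosInd H q x = if (x : G ⧸ H) = q then 1 else 0 := rfl

lemma cosInd_zero_mem (H : AddSubgroup G) {x : G} (hx : x ∈ H) : cosInd H 0 x = 1 := by
  classical
  rw [cosInd_apply, if_pos]
  exact (QuotientAddGroup.eq_zero_iff x).2 hx

lemma cosInd_zero_not_mem (H : AddSubgroup G) {x : G} (hx : x ∉ H) : cosInd H 0 x = 0 := by
  classical
  rw [cosInd_apply, if_neg]
  exact fun h => hx ((QuotientAddGroup.eq_zero_iff x).1 h)

lemma sum_cosInd (H : AddSubgroup G) [Fintype (G ⧸ H)] : ∑ q : G ⧸ H, cosInd H q = 1 := by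
  classical
  ext x
  simp [cosInd_apply]

lemma cosInd_eq_sh (H : AddSubgroup G) (g : G) :
    cosInd H (g : G ⧸ H) = (cosInd H 0).sh (-g) := by
  classical
  ext x
  rw [Bf.sh_apply, cosInd_apply, cosInd_apply]
  congr 1
  rw [eq_iff_iff, QuotientAddGroup.mk_add, QuotientAddGroup.mk_neg, ← sub_eq_add_neg, sub_eq_zero]

lemma mean_cosInd (m : Mn G) (hm : m.Inv) (H : AddSubgroup G) [H.FiniteIndex] :
    (H.index : ℂ) * m (cosInd H 0) = 1 := by
  classical
  let _ : Fintype (G ⧸ H) := Fintype.ofFinite _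
  have h1 : ∀ q : G ⧸ H, m (cosInd H q) = m (cosInd H 0) := by
    intro q
    obtain ⟨g, rfl⟩ := QuotientAddGroup.mk_surjective q
    rw [cosInd_eq_sh, hm]
  have h2 : m (∑ q : G ⧸ H, cosInd H q) = 1 := by rw [sum_cosInd, m.one']
  rw [map_sum] at h2
  simp only [h1, Finset.sum_const, nsmul_eq_mul] at h2
  rw [← h2]
  congr 1
  rw [Finset.card_univ, AddSubgroup.index, Nat.card_eq_fintype_card]

/-- one more element with small total correlation -/
lemma seq_step (m : Mn G) (hm : m.Inv) (H : AddSubgroup G) [H.FiniteIndex] (c : Bf G)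
    {ι : Type*} (s : Finset ι) (k : ι → G) (hk : ∀ i ∈ s, k i ∈ H) (V : ℝ)
    (hV : (H.index : ℝ) * (m (cosInd H 0 * c)).re < V) (hs : s.Nonempty) :
    ∃ x ∈ H, ∑ i ∈ s, (c (x - k i)).re ≤ s.card * V := by
  classical
  by_contra hcon
  push Not at hcon
  have hidx : (0:ℝ) < H.index := by
    exact_mod_cast Nat.pos_of_ne_zero (AddSubgroup.FiniteIndex.index_ne_zero)
  have hcard : (0:ℝ) < s.card := by exact_mod_cast hs.card_pos
  have h1 := m.re_mono (((s.card * V : ℝ) : ℂ) • cosInd H 0)
    (∑ i ∈ s, (cosInd H 0 * c).sh (-(k i))) (fun x => by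
      rw [Bf.smul_apply, Bf.sum_apply, Complex.re_ofReal_mul, Complex.re_sum]
      by_cases hx : x ∈ H
      · rw [cosInd_zero_mem H hx]
        have : ∀ i ∈ s, (((cosInd H 0 * c).sh (-(k i)) : Bf G) x).re = (c (x - k i)).re := by
          intro i hi
          rw [Bf.sh_apply, Bf.mul_apply, ← sub_eq_add_neg,
            cosInd_zero_mem H (H.sub_mem hx (hk i hi)), one_mul]
        rw [Finset.sum_congr rfl this]
        simpa using (hcon x hx).le
      · rw [cosInd_zero_not_mem H hx]
        have : ∀ i ∈ s, (((cosInd H 0 * c).sh (-(k i)) : Bf G) x).re = 0 := by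
          intro i hi
          have hx' : x + -(k i) ∉ H := by
            intro h
            apply hx
            have := H.add_mem h (hk i hi)
            simpa using this
          rw [Bf.sh_apply, Bf.mul_apply, cosInd_zero_not_mem H hx', zero_mul, Complex.zero_re]
        rw [Finset.sum_congr rfl this]
        simp)
  rw [m.map_smul', map_sum, Complex.re_ofReal_mul, Complex.re_sum] at h1
  have hsh : ∀ i, m ((cosInd H 0 * c).sh (-(k i))) = m (cosInd H 0 * c) := fun i => hm _ _
  simp only [hsh] at h1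
  rw [Finset.sum_const, nsmul_eq_mul] at h1
  have h2 : (H.index : ℝ) * (m (cosInd H 0)).re = 1 := by
    have := congrArg Complex.re (mean_cosInd m hm H)
    rw [← Complex.ofReal_natCast, Complex.re_ofReal_mul] at this
    simpa using this
  have h3 : (m (cosInd H 0)).re = 1 / H.index := by
    field_simp; linarith
  rw [h3, mul_assoc, mul_le_mul_iff_right₀ hcard] at h1
  rw [mul_one_div, div_le_iff₀ hidx] at h1
  linarith

/-- a family of elements of `H` with almost minimal correlations -/
lemma seq (m : Mn G) (hm : m.Inv) (H : AddSubgroup G) [H.FiniteIndex] (c : Bf G)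
    (hev : ∀ x, (c (-x)).re = (c x).re) (V : ℝ)
    (hV : (H.index : ℝ) * (m (cosInd H 0 * c)).re < V) :
    ∃ (n : ℕ) (k : Fin n → G), 0 < n ∧ (∀ i, k i ∈ H) ∧
      ∑ i, ∑ j, (c (k i - k j)).re ≤ (n : ℝ) ^ 2 * V := by
  obtain ⟨V', hV', hV'V⟩ := exists_between hV
  have key : ∀ n : ℕ, ∃ k : Fin n → G, (∀ i, k i ∈ H) ∧
      ∑ i, ∑ j, (c (k i - k j)).re ≤ n * (c 0).re + ((n : ℝ) ^ 2 - n) * V' := by
    intro n
    induction n with
    | zero => exact ⟨fun _ => 0, fun _ => H.zero_mem, by simp⟩
    | succ n ih =>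
      obtain ⟨k, hk, hs⟩ := ih
      obtain ⟨x, hx, hxs⟩ : ∃ x ∈ H, ∑ i : Fin n, (c (x - k i)).re ≤ n * V' := by
        rcases Nat.eq_zero_or_pos n with rfl | hn
        · exact ⟨0, H.zero_mem, by simp⟩
        · have : Nonempty (Fin n) := ⟨⟨0, hn⟩⟩
          have := seq_step m hm H c (Finset.univ : Finset (Fin n)) k (fun i _ => hk i) V' hV'
            Finset.univ_nonempty
          simpa using this
      refine ⟨Fin.cons x k, ?_, ?_⟩
      · intro i
        refine Fin.cases ?_ (fun i => ?_) i
        · simpa using hx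
        · simpa using hk i
      · simp only [Fin.sum_univ_succ, Fin.cons_zero, Fin.cons_succ, sub_self]
        rw [Finset.sum_add_distrib]
        have h1 : ∑ i : Fin n, (c (k i - x)).re = ∑ i : Fin n, (c (x - k i)).re := by
          apply Finset.sum_congr rfl
          intro i _
          rw [← hev (k i - x), neg_sub]
        rw [h1]
        push_cast
        nlinarith
  obtain ⟨n, hn⟩ := exists_nat_gt (((c 0).re - V') / (V - V'))
  have hn1 : ((c 0).re - V') / (V - V') < ((n + 1 : ℕ) : ℝ) := by push_cast; linarith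
  obtain ⟨k, hk, hs⟩ := key (n + 1)
  refine ⟨n + 1, k, Nat.succ_pos _, hk, hs.trans ?_⟩
  rw [div_lt_iff₀ (by linarith)] at hn1
  have hpos : (0:ℝ) < ((n + 1 : ℕ) : ℝ) := by positivity
  nlinarith

end

end Pool.Agent.H64.Bohr
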