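import Pool.Agent.H64.Bohr.Chu

/-!
Smoothing operators with spectrum in a given subgroup of characters.
-/

namespace Pool.Agent.H64.Bohr

open scoped ComplexOrder ComplexConjugate
open Filter Topology

noncomputable section

variable {G : Type*} [AddCommGroup G]

lemma mean_refl {m : Mn G} (hm : m.Inv) {ι : Type} [Fintype ι] (χ : ι → AddChar G Circle) (x : G) :
    m ((∑ i, ch (χ i)).comp (fun y => x - y)) = m (∑ i, ch (χ i)) := by
  classical
  have h1 : (∑ i, ch (χ i)).comp (fun y => x - y) = ∑ i, (χ i x : ℂ) • ch (χ i)⁻¹ := by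
    ext y
    simp only [Bf.comp_apply, Bf.sum_apply, Bf.smul_apply, ch_apply]
    refine Finset.sum_congr rfl fun i _ => ?_
    rw [sub_eq_add_neg, AddChar.map_add_eq_mul, Circle.coe_mul, AddChar.inv_apply]
  rw [h1, map_sum, map_sum]
  refine Finset.sum_congr rfl fun i _ => ?_
  rw [m.map_smul', mean_ch m hm, mean_ch m hm]
  by_cases h : χ i = 1
  · rw [h]; simp
  · rw [if_neg h, if_neg (by simpa using h), mul_zero]

/-- pointwise mean of the smoothing operator -/
def smL (m : Mn G) (hm : m.Inv) {ι : Type} [Fintype ι] (χ : ι → AddChar G Circle)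
    (hpos : ∀ x, 0 ≤ (∑ i, ch (χ i) : Bf G) x) (c : ℝ) (hc : 0 ≤ c)
    (h1 : (c : ℂ) * m (∑ i, ch (χ i)) = 1) (x : G) : Mn G where
  lin :=
    { toFun := fun F => m (F * ((c : ℂ) • (∑ i, ch (χ i)).comp (fun y => x - y)))
      map_add' := fun F F' => by rw [add_mul, map_add]
      map_smul' := fun a F => by
        rw [RingHom.id_apply, smul_mul_assoc, map_smul] }
  nonneg' := by
    intro F hF
    apply m.nonneg'
    intro y
    rw [Bf.mul_apply, Bf.smul_apply, Bf.comp_apply]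
    exact mul_nonneg (hF y) (mul_nonneg (by exact_mod_cast hc) (hpos _))
  one' := by
    show m (1 * ((c : ℂ) • (∑ i, ch (χ i)).comp (fun y => x - y))) = 1
    rw [one_mul, m.map_smul', mean_refl hm, h1]

/-- smoothing operator -/
def smT (m : Mn G) {ι : Type} [Fintype ι] (χ : ι → AddChar G Circle) (c : ℝ) (F : Bf G) : Bf G :=
  ∑ i, ((c : ℂ) * m (F * star (ch (χ i)))) • ch (χ i)

lemma smT_apply (m : Mn G) (hm : m.Inv) {ι : Type} [Fintype ι] (χ : ι → AddChar G Circle)
    (hpos : ∀ x, 0 ≤ (∑ i, ch (χ i) : Bf G) x) (c : ℝ) (hc : 0 ≤ c)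
    (h1 : (c : ℂ) * m (∑ i, ch (χ i)) = 1) (F : Bf G) (x : G) :
    smT m χ c F x = smL m hm χ hpos c hc h1 x F := by
  show _ = m (F * ((c : ℂ) • (∑ i, ch (χ i)).comp (fun y => x - y)))
  have e : F * ((c : ℂ) • (∑ i, ch (χ i)).comp (fun y => x - y)) =
      ∑ i, ((c : ℂ) * (χ i x : ℂ)) • (F * star (ch (χ i))) := by
    ext y
    simp only [Bf.mul_apply, Bf.smul_apply, Bf.comp_apply, Bf.sum_apply, ch_apply, Bf.star_apply,
      Finset.mul_sum]
    refine Finset.sum_congr rfl fun i _ => ?_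
    rw [sub_eq_add_neg, AddChar.map_add_eq_mul, Circle.coe_mul, AddChar.map_neg_eq_inv,
      Circle.coe_inv_eq_conj]
    ring
  rw [e, map_sum, smT, Bf.sum_apply]
  refine Finset.sum_congr rfl fun i _ => ?_
  rw [Bf.smul_apply, m.map_smul', ch_apply]
  ring

/-- the smoothing operator as Markov operator -/
def smM (m : Mn G) (hm : m.Inv) {ι : Type} [Fintype ι] (χ : ι → AddChar G Circle)
    (hpos : ∀ x, 0 ≤ (∑ i, ch (χ i) : Bf G) x) (c : ℝ) (hc : 0 ≤ c)
    (h1 : (c : ℂ) * m (∑ i, ch (χ i)) = 1) : Mk m where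
  T := smT m χ c
  L := smL m hm χ hpos c hc h1
  hT := smT_apply m hm χ hpos c hc h1
  sa := by
    intro Φ Ψ
    have hreal : ∀ x : G, conj ((∑ i, ch (χ i) : Bf G) x) = (∑ i, ch (χ i) : Bf G) x := by
      intro x
      exact Complex.conj_eq_iff_im.2 (Complex.nonneg_iff.1 (hpos x)).2.symm
    have e1 : m (smT m χ c Φ * Ψ) = (m.prod m)
        ((c:ℂ) • ∑ i, tn (Ψ * ch (χ i)) (Φ * star (ch (χ i)))) := by
      rw [smT, Finset.sum_mul, map_sum, Mn.map_smul', map_sum, Finset.mul_sum]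
      refine Finset.sum_congr rfl fun i _ => ?_
      rw [Mn.prod_tn, smul_mul_assoc, m.map_smul', mul_comm (ch (χ i)) Ψ]
      ring
    have e2 : m (Φ * smT m χ c Ψ) = (m.prod m)
        ((c:ℂ) • ∑ i, tn (Ψ * star (ch (χ i))) (Φ * ch (χ i))) := by
      rw [smT, Finset.mul_sum, map_sum, Mn.map_smul', map_sum, Finset.mul_sum]
      refine Finset.sum_congr rfl fun i _ => ?_
      rw [Mn.prod_tn, mul_smul_comm, m.map_smul']
      ring
    rw [e1, e2]
    congr 2
    ext z
    have h2 := hreal (z.1 - z.2)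
    simp only [Bf.sum_apply, ch_apply, map_sum] at h2
    simp only [Bf.sum_apply, tn_apply, Bf.mul_apply, Bf.star_apply, ch_apply]
    have h3 : ∀ i, (χ i (z.1 - z.2) : ℂ) = (χ i z.1 : ℂ) * conj (χ i z.2 : ℂ) := by
      intro i
      rw [sub_eq_add_neg, AddChar.map_add_eq_mul, Circle.coe_mul, AddChar.map_neg_eq_inv,
        Circle.coe_inv_eq_conj]
    simp only [h3, map_mul, Complex.conj_conj] at h2
    calc ∑ i, Ψ z.1 * (χ i z.1 : ℂ) * (Φ z.2 * conj (χ i z.2 : ℂ))
        = Ψ z.1 * Φ z.2 * ∑ i, (χ i z.1 : ℂ) * conj (χ i z.2 : ℂ) := by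
          rw [Finset.mul_sum]; refine Finset.sum_congr rfl fun i _ => by ring
      _ = Ψ z.1 * Φ z.2 * ∑ i, conj (χ i z.1 : ℂ) * (χ i z.2 : ℂ) := by rw [← h2]
      _ = _ := by
          rw [Finset.mul_sum]; refine Finset.sum_congr rfl fun i _ => by ring

/-- the data of a good smoothing operator -/
structure Sm (m : Mn G) (K : Subgroup (AddChar G Circle)) (Q : Finset (AddChar G Circle))
    (N : ℕ) where
  S : Mk m
  ι : Type
  ft : Fintype ι
  χ : ι → AddChar G Circle
  κ : AddChar G Circle → ℝ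
  card_le : Fintype.card ι ≤ N ^ (2 * Q.card)
  mem : ∀ i, χ i ∈ K
  spec : ∀ Φ : Bf G, (∀ x, ‖Φ x‖ ≤ 1) → ∃ a : ι → ℂ, (∀ i, ‖a i‖ ≤ 1) ∧
    S.T Φ = ∑ i, a i • ch (χ i)
  nonneg : ∀ ψ, 0 ≤ κ ψ
  le_one : ∀ ψ, κ ψ ≤ 1
  off : ∀ ψ, ψ ∉ K → κ ψ = 0
  near : ∀ ψ ∈ Q, 1 - κ ψ ≤ 2 / N
  mult : ∀ ψ Φ, m (S.T Φ * star (ch ψ)) = (κ ψ : ℂ) * m (Φ * star (ch ψ))

theorem exists_sm (m : Mn G) (hm : m.Inv) (K : Subgroup (AddChar G Circle))
    (Q : Finset (AddChar G Circle)) (hQ : ∀ ψ ∈ Q, ψ ∈ K) (N : ℕ) (hN : 0 < N) :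
    Nonempty (Sm m K Q N) := by
  classical
  obtain ⟨ι, hι, χ, h1, h2, h3⟩ := DK_pc N Q id K hQ
  have hpos : ∀ x, 0 ≤ (∑ i, ch (χ i) : Bf G) x := by
    intro x; rw [← h3]; exact DK_nonneg _ _ _ _
  have hone := one_le_DK N Q id m hm hN
  have hreal : (m (DK N Q id)).im = 0 := m.real_of_real _ (fun x =>
    (Complex.nonneg_iff.1 (DK_nonneg N Q id x)).2.symm)
  set c : ℝ := ((m (DK N Q id)).re)⁻¹ with hc
  have hc0 : 0 ≤ c := inv_nonneg.2 (by linarith)
  have hc1 : c ≤ 1 := inv_le_one_of_one_le₀ hone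
  have hmeq : m (DK N Q id) = ((m (DK N Q id)).re : ℂ) := by
    apply Complex.ext <;> simp [hreal]
  have hcm : c * (m (DK N Q id)).re = 1 := by
    rw [hc]; exact inv_mul_cancel₀ (by linarith)
  have hcD : (c : ℂ) * m (DK N Q id) = 1 := by
    rw [hmeq]; exact_mod_cast hcm
  have hcD' : (c : ℂ) * m (∑ i, ch (χ i)) = 1 := by rw [← h3]; exact hcD
  have hκ : ∀ ψ, (c : ℂ) * m (DK N Q id * star (ch ψ)) =
      ((c * ((Finset.univ.filter (fun i => χ i = ψ)).card : ℝ) : ℝ) : ℂ) := by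
    intro ψ
    rw [h3, Finset.sum_mul, map_sum]
    have : ∀ i, m (ch (χ i) * star (ch ψ)) = if χ i = ψ then 1 else 0 := by
      intro i
      rw [← ch_inv, ← ch_mul, mean_ch m hm]
      congr 1
      rw [eq_iff_iff, mul_inv_eq_one]
    simp only [this]
    rw [Finset.sum_boole]
    push_cast; rfl
  refine ⟨{ S := smM m hm χ hpos c hc0 hcD', ι := ι, ft := hι, χ := χ,
            κ := fun ψ => c * ((Finset.univ.filter (fun i => χ i = ψ)).card : ℝ),
            card_le := h1, mem := h2, spec := ?_, nonneg := ?_, le_one := ?_, off := ?_,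
            near := ?_, mult := ?_ }⟩
  · intro Φ hΦ
    refine ⟨fun i => (c : ℂ) * m (Φ * star (ch (χ i))), fun i => ?_, rfl⟩
    rw [norm_mul, Complex.norm_real, Real.norm_of_nonneg hc0]
    have : ‖m (Φ * star (ch (χ i)))‖ ≤ 1 := by
      apply m.norm_le
      intro x
      rw [Bf.mul_apply, norm_mul, Bf.star_apply, RCLike.norm_conj, ch_apply, Circle.norm_coe,
        mul_one]
      exact hΦ x
    nlinarith [norm_nonneg (m (Φ * star (ch (χ i))))]
  · intro ψ; exact mul_nonneg hc0 (Nat.cast_nonneg _)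
  · intro ψ
    have e1 := hκ ψ
    have e2 : ‖m (DK N Q id * star (ch ψ))‖ ≤ (m (DK N Q id)).re := by
      apply m.norm_le_re
      intro x
      rw [Bf.mul_apply, norm_mul, Bf.star_apply, RCLike.norm_conj, ch_apply, Circle.norm_coe,
        mul_one]
      have := Complex.nonneg_iff.1 (DK_nonneg N Q id x)
      have h5 : DK N Q id x = ((DK N Q id x).re : ℂ) := by
        apply Complex.ext <;> simp [← this.2]
      rw [h5, Complex.norm_real, Real.norm_of_nonneg this.1, Complex.ofReal_re]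
    have e3 := congrArg norm e1
    rw [norm_mul, Complex.norm_real, Complex.norm_real, Real.norm_of_nonneg hc0,
      Real.norm_of_nonneg (mul_nonneg hc0 (Nat.cast_nonneg _))] at e3
    show c * _ ≤ 1
    rw [← e3]
    calc c * ‖m (DK N Q id * star (ch ψ))‖ ≤ c * (m (DK N Q id)).re := by gcongr
      _ = 1 := hcm
  · intro ψ hψ
    have : Finset.univ.filter (fun i => χ i = ψ) = ∅ := by
      rw [Finset.filter_eq_empty_iff]
      intro i _ h
      exact hψ (h ▸ h2 i)
    rw [this]; simp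
  · intro ψ hψ
    have e1 := congrArg Complex.re (hκ ψ)
    rw [Complex.re_ofReal_mul, Complex.ofReal_re] at e1
    rw [← e1]
    have e2 := DK_diff N Q id m hm hN ψ hψ
    have e3 : (m (DK N Q id * df (id ψ))).re = 2 * (m (DK N Q id)).re -
        2 * (m (DK N Q id * star (ch ψ))).re := by
      have : DK N Q id * df (id ψ) = (2:ℂ) • DK N Q id - DK N Q id * ch ψ -
          DK N Q id * star (ch ψ) := by
        have h4 := ch_mul_star ψ
        rw [df, id, star_sub, star_one]
        have : (2:ℂ) • DK N Q id = DK N Q id + DK N Q id := two_smul _ _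
        rw [this]
        linear_combination (DK N Q id) * h4
      rw [this, map_sub, map_sub, m.map_smul']
      have h5 : m (DK N Q id * ch ψ) = conj (m (DK N Q id * star (ch ψ))) := by
        rw [← m.star']
        congr 1
        ext x
        have h6 := Complex.conj_eq_iff_im.2 (Complex.nonneg_iff.1 (DK_nonneg N Q id x)).2.symm
        simp only [Bf.mul_apply, Bf.star_apply, map_mul, Complex.conj_conj, h6]
      rw [h5]
      simp only [Complex.sub_re, Complex.conj_re, Complex.mul_re, Complex.re_ofNat,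
        Complex.im_ofNat, zero_mul, sub_zero]
      ring
    rw [e3] at e2
    have h7 : 0 < (m (DK N Q id)).re := by linarith
    have e4 : c * (2 * (m (DK N Q id)).re - 2 * (m (DK N Q id * star (ch ψ))).re) ≤
        c * (4 / N * (m (DK N Q id)).re) := mul_le_mul_of_nonneg_left e2 hc0
    have e5 : c * (4 / N * (m (DK N Q id)).re) = 4 / N := by
      calc _ = 4 / N * (c * (m (DK N Q id)).re) := by ring
        _ = _ := by rw [hcm, mul_one]
    have e6 : c * (2 * (m (DK N Q id)).re - 2 * (m (DK N Q id * star (ch ψ))).re) =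
        2 * (1 - c * (m (DK N Q id * star (ch ψ))).re) := by
      calc _ = 2 * (c * (m (DK N Q id)).re) - 2 * (c * (m (DK N Q id * star (ch ψ))).re) := by ring
        _ = _ := by rw [hcm]; ring
    rw [e5, e6] at e4
    have e7 : (4:ℝ) / N = 2 * (2 / N) := by ring
    rw [e7] at e4
    linarith
  · intro ψ Φ
    show m (smT m χ c Φ * star (ch ψ)) = _
    rw [smT, Finset.sum_mul, map_sum]
    have : ∀ i, m (((c : ℂ) * m (Φ * star (ch (χ i)))) • ch (χ i) * star (ch ψ)) =
        if χ i = ψ then (c : ℂ) * m (Φ * star (ch ψ)) else 0 := by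
      intro i
      rw [smul_mul_assoc, m.map_smul', ← ch_inv, ← ch_inv, ← ch_mul, mean_ch m hm]
      split_ifs with h h' h'
      · rw [h']; ring
      · exact absurd (mul_inv_eq_one.1 h) h'
      · exact absurd (mul_inv_eq_one.2 h') h
      · ring
    simp only [this]
    rw [← Finset.sum_filter, Finset.sum_const, nsmul_eq_mul]
    push_cast; ring

end

end Pool.Agent.H64.Bohr
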