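import Pool.Agent.H64.Bohr.Wiener

/-!
Fourier control of the correlation form.
-/

namespace Pool.Agent.H64.Bohr

open scoped ComplexOrder ComplexConjugate
open Filter Topology

noncomputable section

variable {G : Type*} [AddCommGroup G]

/-- tensor product of functions -/
def tn {X Y : Type*} (A : Bf X) (B : Bf Y) : Bf (X × Y) := A.comp Prod.fst * B.comp Prod.snd

@[simp] lemma tn_apply {X Y : Type*} (A : Bf X) (B : Bf Y) (z : X × Y) :
    tn A B z = A z.1 * B z.2 := rfl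

lemma Mn.prod_tn {X Y : Type*} (W : Mn X) (m : Mn Y) (A : Bf X) (B : Bf Y) :
    (W.prod m) (tn A B) = W A * m B := by
  rw [Mn.prod_apply]
  have : Mn.slice m (tn A B) = (m B) • A := by
    ext x
    rw [Mn.slice_apply, Bf.smul_apply, mul_comm, ← m.map_smul']
    congr 1
  rw [this, W.map_smul', mul_comm]

/-- Hilbert-Schmidt lemma -/
lemma Mn.hs (m : Mn G) {n : ℕ} (v : Fin n → Bf G) (E : Bf G) (hE : ∀ x, ‖E x‖ ≤ 1) :
    ∑ i, ∑ j, ‖m (v i * star (v j) * E)‖ ^ 2 ≤ ∑ i, ∑ j, ‖m (v i * star (v j))‖ ^ 2 := by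
  set S : Bf (G × G) := ∑ i, tn (v i) (star (v i)) with hS
  have e1 : ∀ E : Bf G, ((∑ i, ∑ j, ‖m (v i * star (v j) * E)‖ ^ 2 : ℝ) : ℂ) =
      (m.prod m) (S * star S * tn E (star E)) := by
    intro E
    have : S * star S * tn E (star E) =
        ∑ i, ∑ j, tn (v i * star (v j) * E) (star (v i * star (v j) * E)) := by
      ext z
      simp only [hS, Bf.mul_apply, Bf.sum_apply, Bf.star_apply, tn_apply, map_sum, map_mul,
        Complex.conj_conj]
      rw [Finset.sum_mul_sum, Finset.sum_mul]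
      refine Finset.sum_congr rfl fun i _ => ?_
      rw [Finset.sum_mul]
      refine Finset.sum_congr rfl fun j _ => ?_
      ring
    rw [this]
    simp only [map_sum, Mn.prod_tn, m.star', Complex.mul_conj, Complex.normSq_eq_norm_sq]
    push_cast
    rfl
  have e2 := e1 E
  have e3 := e1 1
  have e4 : S * star S * tn 1 (star 1) = S * star S := by
    ext z; simp
  rw [e4] at e3
  simp only [mul_one] at e3
  have h1 := (m.prod m).norm_le_re (S * star S * tn E (star E)) (S * star S) (fun z => by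
    rw [Mn.mul_star_re, Bf.mul_apply, norm_mul, Bf.mul_apply, norm_mul, tn_apply, norm_mul,
      Bf.star_apply, Bf.star_apply, RCLike.norm_conj, RCLike.norm_conj]
    have a1 := hE z.1
    have a2 := hE z.2
    have b1 := norm_nonneg (E z.1)
    have b2 := norm_nonneg (E z.2)
    have b3 := norm_nonneg (S z)
    have : ‖E z.1‖ * ‖E z.2‖ ≤ 1 := by nlinarith
    calc ‖S z‖ * ‖S z‖ * (‖E z.1‖ * ‖E z.2‖) ≤ ‖S z‖ * ‖S z‖ * 1 := by gcongr
      _ = ‖S z‖ ^ 2 := by ring)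
  rw [← e2, ← e3, Complex.ofReal_re, Complex.norm_real] at h1
  exact (le_abs_self _).trans h1

section

variable {Γ : Type*} [AddCommGroup Γ]

/-- pull back along `(u,a) ↦ a + p u` -/
def pb (p : Γ →+ G) (F : Bf G) : Bf (Γ × G) := F.comp (fun z => z.2 + p z.1)

@[simp] lemma pb_apply (p : Γ →+ G) (F : Bf G) (z : Γ × G) : pb p F z = F (z.2 + p z.1) := rfl

/-- shift in the first variable -/
def sh1 {Y : Type*} (k : Γ) (F : Bf (Γ × Y)) : Bf (Γ × Y) := F.comp (fun z => (z.1 + k, z.2))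

@[simp] lemma sh1_apply {Y : Type*} (k : Γ) (F : Bf (Γ × Y)) (z : Γ × Y) :
    sh1 k F z = F (z.1 + k, z.2) := rfl

lemma Mn.prod_sh1 (W : Mn Γ) (hW : W.Inv) (m : Mn G) (k : Γ) (F : Bf (Γ × G)) :
    (W.prod m) (sh1 k F) = (W.prod m) F := by
  rw [Mn.prod_apply, Mn.prod_apply]
  exact hW k (Mn.slice m F)

lemma Mn.prod_pb (W : Mn Γ) (m : Mn G) (hm : m.Inv) (p : Γ →+ G) (F : Bf G) :
    (W.prod m) (pb p F) = m F := by
  rw [Mn.prod_apply]
  have : Mn.slice m (pb p F) = Bf.const Γ (m F) := by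
    ext u
    rw [Mn.slice_apply, Bf.const_apply]
    exact hm (p u) F
  rw [this, W.const']

lemma sh1_pb (k : Γ) (p : Γ →+ G) (F : Bf G) : sh1 k (pb p F) = pb p (F.sh (p k)) := by
  ext z
  simp only [sh1_apply, pb_apply, Bf.sh_apply, map_add, add_assoc]

lemma sh1_mul {Y : Type*} (k : Γ) (A B : Bf (Γ × Y)) : sh1 k (A * B) = sh1 k A * sh1 k B := rfl

lemma Mn.sq_pb (W : Mn Γ) (m : Mn G) (hm : m.Inv) (p : Γ →+ G) (F : Bf G) :
    (W.prod m).sq (pb p F) = m.sq F := by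
  rw [Mn.sq, Mn.sq, ← W.prod_pb m hm p]
  rfl

/-- the square norm of a sum of translates -/
lemma Mn.sq_sum_sh (m : Mn G) (hm : m.Inv) {n : ℕ} (F : Bf G) (l : Fin n → G) :
    m.sq (∑ t, F.sh (l t)) = ∑ s, ∑ t, (m.corr (star F) F (l s - l t)).re := by
  rw [Mn.sq, star_sum, Finset.sum_mul_sum, map_sum, Complex.re_sum]
  refine Finset.sum_congr rfl fun s _ => ?_
  rw [map_sum, Complex.re_sum]
  refine Finset.sum_congr rfl fun t _ => ?_
  rw [Mn.corr_apply, ← hm (l t) (star F * F.sh (l s - l t))]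
  congr 2
  ext x
  simp only [Bf.mul_apply, Bf.sh_apply, Bf.star_apply]
  rw [mul_comm]
  congr 2
  abel

lemma Mn.corr_ind (m : Mn G) (H : AddSubgroup G) [Fintype (G ⧸ H)] (P : Bf G) :
    cosInd H 0 * m.corr (star P) P =
      ∑ q : G ⧸ H, m.corr (star P * cosInd H q) (P * cosInd H q) := by
  classical
  ext k
  simp only [Bf.mul_apply, Bf.sum_apply, Mn.corr_apply]
  rw [← map_sum, ← m.map_smul']
  congr 1
  ext x
  simp only [Bf.smul_apply, Bf.mul_apply, Bf.sum_apply, Bf.sh_apply, Bf.star_apply, cosInd_apply]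
  have : ∀ q : G ⧸ H, conj (P x) * (if (x : G ⧸ H) = q then (1:ℂ) else 0) *
      (P (x + k) * if ((x + k : G) : G ⧸ H) = q then (1:ℂ) else 0) =
      if (x : G ⧸ H) = q then (conj (P x) * P (x + k) *
        (if ((x + k : G) : G ⧸ H) = q then (1:ℂ) else 0)) else 0 := by
    intro q
    split_ifs <;> ring
  simp only [this, Finset.sum_ite_eq, Finset.mem_univ, if_true]
  have h2 : (((x + k : G) : G ⧸ H) = (x : G ⧸ H)) ↔ ((k : G ⧸ H) = 0) := by
    rw [QuotientAddGroup.mk_add, add_eq_left]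
  simp only [h2]
  ring

lemma Mn.mean_corr_ind (m : Mn G) (herg : m.Erg) (H : AddSubgroup G) [Fintype (G ⧸ H)]
    (P : Bf G) :
    (m (cosInd H 0 * m.corr (star P) P)).re = ∑ q : G ⧸ H, ‖m (P * cosInd H q)‖ ^ 2 := by
  classical
  rw [m.corr_ind, map_sum, Complex.re_sum]
  refine Finset.sum_congr rfl fun q _ => ?_
  rw [herg]
  have : star P * cosInd H q = star (P * cosInd H q) := by
    ext x
    simp only [Bf.mul_apply, Bf.star_apply, cosInd_apply, map_mul]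
    split_ifs <;> simp
  rw [this, m.star', mul_comm, Complex.mul_conj, Complex.normSq_eq_norm_sq, Complex.ofReal_re]

/-- two point step -/
lemma two_point (W : Mn Γ) (hW : W.Inv) (m : Mn G) (hm : m.Inv) (herg : m.Erg)
    (p0 p1 : Γ →+ G) (H : AddSubgroup G) [H.FiniteIndex] [Fintype (G ⧸ H)]
    (hH : ∀ h ∈ H, ∃ k : Γ, p0 k = h ∧ p1 k = 0) (P Q : Bf G) (hQ : ∀ x, ‖Q x‖ ≤ 1) :
    ‖(W.prod m) (pb p0 P * pb p1 Q)‖ ^ 2 ≤ H.index * ∑ q : G ⧸ H, ‖m (P * cosInd H q)‖ ^ 2 := by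
  apply le_of_forall_gt
  intro V hV
  obtain ⟨V', hV1, hV2⟩ := exists_between hV
  rw [← m.mean_corr_ind herg] at hV1
  obtain ⟨n, l, hn, hl, hs⟩ := seq m hm H (m.corr (star P) P) (fun x => by
    have h1 : m.corr (star P) P (-x) = conj (m.corr (star P) P x) := by
      rw [Mn.corr_apply, Mn.corr_apply, ← m.star', ← hm x (star P * P.sh (-x))]
      congr 1
      ext y
      simp only [Bf.sh_apply, Bf.mul_apply, Bf.star_apply, map_mul, Complex.conj_conj,
        add_neg_cancel_right]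
      ring
    rw [h1, Complex.conj_re]) V' hV1
  choose k hk0 hk1 using fun i => hH (l i) (hl i)
  have e1 : (n : ℂ) * (W.prod m) (pb p0 P * pb p1 Q) =
      (W.prod m) (pb p0 (∑ t, P.sh (l t)) * pb p1 Q) := by
    have : pb p0 (∑ t, P.sh (l t)) * pb p1 Q = ∑ t, sh1 (k t) (pb p0 P * pb p1 Q) := by
      ext z
      simp only [Bf.mul_apply, Bf.sum_apply, pb_apply, sh1_apply, Bf.sh_apply, map_add, hk0, hk1,
        add_zero, Finset.sum_mul, add_assoc]
    rw [this, map_sum]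
    simp only [Mn.prod_sh1 W hW m]
    simp
  have e2 := (W.prod m).cs (pb p0 (∑ t, P.sh (l t))) (pb p1 Q)
  rw [← e1, W.sq_pb m hm, m.sq_sum_sh hm, norm_mul, mul_pow] at e2
  have e3 : (W.prod m).sq (pb p1 Q) ≤ 1 := by
    apply Mn.sq_le
    intro z
    have := hQ (z.2 + p1 z.1)
    rw [pb_apply]
    nlinarith [norm_nonneg (Q (z.2 + p1 z.1))]
  have e4 : 0 ≤ ∑ s, ∑ t, (m.corr (star P) P (l s - l t)).re := by
    rw [← m.sq_sum_sh hm]; exact m.sq_nonneg _
  have hn' : (0:ℝ) < (n:ℝ) ^ 2 := by positivity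
  have e5 : (n:ℝ) ^ 2 * ‖(W.prod m) (pb p0 P * pb p1 Q)‖ ^ 2 ≤ (n:ℝ) ^ 2 * V' := by
    calc _ = ‖(n:ℂ)‖ ^ 2 * ‖(W.prod m) (pb p0 P * pb p1 Q)‖ ^ 2 := by
          rw [Complex.norm_natCast]
      _ ≤ _ := e2
      _ ≤ (∑ s, ∑ t, (m.corr (star P) P (l s - l t)).re) * 1 := by gcongr
      _ ≤ _ := by rw [mul_one]; exact hs
  have e6 := le_of_mul_le_mul_left e5 hn'
  linarith

/-- `U²`-control -/
theorem u2 (W : Mn Γ) (hW : W.Inv) (m : Mn G) (hm : m.Inv) (herg : m.Erg)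
    (p0 p1 : Γ →+ G) (H1 H2 : AddSubgroup G) [H1.FiniteIndex] [H2.FiniteIndex]
    (R : Bf (Γ × G)) (hR : ∀ z, ‖R z‖ ≤ 1)
    (h1 : ∀ h ∈ H1, ∃ k : Γ, p0 k = h ∧ sh1 k R = R)
    (h2 : ∀ h ∈ H2, ∃ k : Γ, p0 k = h ∧ p1 k = 0)
    (F Q : Bf G) (hQ : ∀ x, ‖Q x‖ ≤ 1) (C : ℝ)
    (hC : ∀ ψ : AddChar G Circle, ‖m (F * star (ch ψ))‖ ^ 2 ≤ C) :
    ‖(W.prod m) (R * (pb p0 F * pb p1 Q))‖ ^ 4 ≤
      (H2.index : ℝ) ^ 2 * (H1.index * (m.sq F * C)) := by
  classical
  let _ : Fintype (G ⧸ H2) := Fintype.ofFinite _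
  have hi1 : (0:ℝ) < H1.index := by
    exact_mod_cast Nat.pos_of_ne_zero (AddSubgroup.FiniteIndex.index_ne_zero)
  have hi2 : (0:ℝ) < H2.index := by
    exact_mod_cast Nat.pos_of_ne_zero (AddSubgroup.FiniteIndex.index_ne_zero)
  set M := (W.prod m) (R * (pb p0 F * pb p1 Q)) with hM
  suffices hsuff : ∀ V : ℝ, H1.index * (m.sq F * C) < V → ‖M‖ ^ 4 ≤ (H2.index : ℝ) ^ 2 * V by
    have h3 : ‖M‖ ^ 4 / (H2.index : ℝ) ^ 2 ≤ H1.index * (m.sq F * C) := by
      apply le_of_forall_gt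
      intro V hV
      obtain ⟨V', hV1, hV2⟩ := exists_between hV
      have := hsuff V' hV1
      rw [← div_le_iff₀' (by positivity)] at this
      exact lt_of_le_of_lt this hV2
    rwa [div_le_iff₀' (by positivity)] at h3
  intro V hV
  set γ := m.corr F (star F) with hγ
  obtain ⟨ψ, hψ⟩ := m.wiener hm herg F
  have hsqγ : m.sq γ ≤ m.sq F * C :=
    hψ.trans (mul_le_mul_of_nonneg_left (hC ψ) (m.sq_nonneg F))
  have hherm : ∀ x, γ (-x) = conj (γ x) := (m.pd_corr' hm F).herm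
  have hV' : (H1.index : ℝ) * (m (cosInd H1 0 * (γ * star γ))).re < V := by
    refine lt_of_le_of_lt ?_ hV
    have : (m (cosInd H1 0 * (γ * star γ))).re ≤ m.sq γ := by
      apply m.re_mono
      intro x
      have h5 : 0 ≤ ((γ * star γ) x).re := by rw [Mn.mul_star_re]; positivity
      rw [Bf.mul_apply]
      by_cases hx : x ∈ H1
      · rw [cosInd_zero_mem H1 hx, one_mul]
      · rw [cosInd_zero_not_mem H1 hx, zero_mul]; simpa using h5
    exact mul_le_mul_of_nonneg_left (this.trans hsqγ) hi1.le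
  obtain ⟨n, h, hn, hh, hs⟩ := seq m hm H1 (γ * star γ) (fun x => by
    simp only [Bf.mul_apply, Bf.star_apply, hherm, Complex.conj_conj]
    rw [mul_comm]) V hV'
  choose k hk0 hkR using fun i => h1 (h i) (hh i)
  have hn' : (0:ℝ) < (n:ℝ) := by exact_mod_cast hn
  -- step 1
  set A : Fin n → Bf (Γ × G) := fun i => pb p0 (F.sh (h i)) * pb p1 (Q.sh (p1 (k i))) with hA
  have e1 : (n : ℂ) * M = (W.prod m) (R * ∑ i, A i) := by
    have : R * ∑ i, A i = ∑ i, sh1 (k i) (R * (pb p0 F * pb p1 Q)) := by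
      rw [Finset.mul_sum]
      refine Finset.sum_congr rfl fun i _ => ?_
      rw [sh1_mul, hkR, sh1_mul, sh1_pb, sh1_pb, hk0]
    rw [this, map_sum]
    simp only [Mn.prod_sh1 W hW m]
    simp [hM]
  have e2 := (W.prod m).cs R (∑ i, A i)
  rw [← e1, norm_mul, mul_pow, Complex.norm_natCast] at e2
  have e3 : (W.prod m).sq R ≤ 1 := by
    apply Mn.sq_le
    intro z
    have := hR z
    nlinarith [norm_nonneg (R z)]
  -- expand
  have e4 : (W.prod m).sq (∑ i, A i) ≤ ∑ i, ∑ j, ‖(W.prod m) (A i * star (A j))‖ := by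
    rw [Mn.sq, star_sum, Finset.sum_mul_sum, map_sum, Complex.re_sum]
    refine Finset.sum_le_sum fun i _ => ?_
    rw [map_sum, Complex.re_sum]
    exact Finset.sum_le_sum fun j _ => Complex.re_le_norm _
  have e5 : ∀ i j, ‖(W.prod m) (A i * star (A j))‖ ^ 2 ≤ H2.index *
      ∑ q : G ⧸ H2, ‖m (F.sh (h i) * star (F.sh (h j)) * cosInd H2 q)‖ ^ 2 := by
    intro i j
    have : A i * star (A j) = pb p0 (F.sh (h i) * star (F.sh (h j))) *
        pb p1 (Q.sh (p1 (k i)) * star (Q.sh (p1 (k j)))) := by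
      ext z
      simp only [hA, Bf.mul_apply, Bf.star_apply, pb_apply, map_mul]
      ring
    rw [this]
    apply two_point W hW m hm herg p0 p1 H2 h2
    intro x
    rw [Bf.mul_apply, norm_mul, Bf.star_apply, RCLike.norm_conj]
    have a1 := hQ (x + p1 (k i))
    have a2 := hQ (x + p1 (k j))
    simp only [Bf.sh_apply]
    nlinarith [norm_nonneg (Q (x + p1 (k i))), norm_nonneg (Q (x + p1 (k j)))]
  have e6 : ∀ q : G ⧸ H2, ∑ i, ∑ j, ‖m (F.sh (h i) * star (F.sh (h j)) * cosInd H2 q)‖ ^ 2 ≤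
      (n:ℝ) ^ 2 * V := by
    intro q
    refine (m.hs (fun i => F.sh (h i)) (cosInd H2 q) (fun x => by
      rw [cosInd_apply]; split_ifs <;> simp)).trans ?_
    refine le_trans (le_of_eq ?_) hs
    refine Finset.sum_congr rfl fun i _ => Finset.sum_congr rfl fun j _ => ?_
    rw [Mn.mul_star_re]
    have : m (F.sh (h i) * star (F.sh (h j))) = conj (γ (h i - h j)) := by
      rw [hγ, Mn.corr_apply, ← m.star', ← hm (h j) (star _)]
      congr 1
      ext x
      simp only [Bf.sh_apply, Bf.mul_apply, Bf.star_apply, map_mul, Complex.conj_conj]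
      rw [mul_comm]
      congr 2
      abel
    rw [this, RCLike.norm_conj]
  have hcardq : ((Fintype.card (G ⧸ H2) : ℕ) : ℝ) = H2.index := by
    rw [AddSubgroup.index, Nat.card_eq_fintype_card]
  have e7 : ∑ i, ∑ j, ‖(W.prod m) (A i * star (A j))‖ ^ 2 ≤
      (H2.index : ℝ) ^ 2 * ((n:ℝ) ^ 2 * V) := by
    calc ∑ i, ∑ j, ‖(W.prod m) (A i * star (A j))‖ ^ 2
        ≤ ∑ i, ∑ j, (H2.index : ℝ) *
          ∑ q : G ⧸ H2, ‖m (F.sh (h i) * star (F.sh (h j)) * cosInd H2 q)‖ ^ 2 :=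
          Finset.sum_le_sum fun i _ => Finset.sum_le_sum fun j _ => e5 i j
      _ = (H2.index : ℝ) * ∑ q : G ⧸ H2, ∑ i, ∑ j,
          ‖m (F.sh (h i) * star (F.sh (h j)) * cosInd H2 q)‖ ^ 2 := by
          simp only [← Finset.mul_sum]
          congr 1
          rw [Finset.sum_comm (s := (Finset.univ : Finset (G ⧸ H2)))]
          refine Finset.sum_congr rfl fun i _ => ?_
          rw [Finset.sum_comm]
      _ ≤ (H2.index : ℝ) * ∑ q : G ⧸ H2, (n:ℝ) ^ 2 * V := by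
          gcongr with q _
          exact e6 q
      _ = _ := by
          rw [Finset.sum_const, Finset.card_univ, nsmul_eq_mul, hcardq]; ring
  -- Cauchy-Schwarz over pairs
  have e8 : (∑ i : Fin n, ∑ j : Fin n, ‖(W.prod m) (A i * star (A j))‖) ^ 2 ≤
      (n:ℝ) ^ 2 * ∑ i, ∑ j, ‖(W.prod m) (A i * star (A j))‖ ^ 2 := by
    have := sq_sum_le_card_mul_sum_sq (s := (Finset.univ : Finset (Fin n × Fin n)))
      (f := fun p => ‖(W.prod m) (A p.1 * star (A p.2))‖)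
    rw [Fintype.sum_prod_type, Fintype.sum_prod_type] at this
    simpa [sq] using this
  have e9 : (n:ℝ) ^ 2 * ‖M‖ ^ 2 ≤ ∑ i, ∑ j, ‖(W.prod m) (A i * star (A j))‖ := by
    refine e2.trans (le_trans ?_ e4)
    have := (W.prod m).sq_nonneg (∑ i, A i)
    calc _ ≤ 1 * (W.prod m).sq (∑ i, A i) := by gcongr
      _ = _ := one_mul _
  have e10 : ((n:ℝ) ^ 2 * ‖M‖ ^ 2) ^ 2 ≤
      (n:ℝ) ^ 2 * ((H2.index : ℝ) ^ 2 * ((n:ℝ) ^ 2 * V)) := by
    calc ((n:ℝ) ^ 2 * ‖M‖ ^ 2) ^ 2 ≤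
        (∑ i : Fin n, ∑ j : Fin n, ‖(W.prod m) (A i * star (A j))‖) ^ 2 := by gcongr
      _ ≤ _ := e8
      _ ≤ _ := by gcongr
  have e11 : (n:ℝ) ^ 4 * ‖M‖ ^ 4 ≤ (n:ℝ) ^ 4 * ((H2.index : ℝ) ^ 2 * V) := by
    calc (n:ℝ) ^ 4 * ‖M‖ ^ 4 = ((n:ℝ) ^ 2 * ‖M‖ ^ 2) ^ 2 := by ring
      _ ≤ _ := e10
      _ = _ := by ring
  exact le_of_mul_le_mul_left e11 (by positivity)

end

end

end Pool.Agent.H64.Bohr
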