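import Pool.Agent.H64.Bohr.PD

/-!
The Wiener type lemma.
-/

namespace Pool.Agent.H64.Bohr

open scoped ComplexOrder ComplexConjugate
open Filter Topology

noncomputable section

variable {G : Type*} [AddCommGroup G]

/-- a character as bounded function -/
def ch (ψ : AddChar G Circle) : Bf G :=
  Bf.mk' (fun x => (ψ x : ℂ)) 1 (fun _ => le_of_eq (Circle.norm_coe _))

@[simp] lemma ch_apply (ψ : AddChar G Circle) (x : G) : ch ψ x = (ψ x : ℂ) := rfl

lemma ch_mul_star (ψ : AddChar G Circle) : ch ψ * star (ch ψ) = 1 := by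
  ext x
  simp only [Bf.mul_apply, ch_apply, Bf.star_apply, Bf.one_apply, Complex.mul_conj,
    Circle.normSq_coe]
  simp

namespace Mn

variable (m : Mn G)

/-- autocorrelation is positive definite even after multiplication by a positive definite
function -/
lemma pd_corr (hm : m.Inv) (F : Bf G) {ρ : G → ℂ} (hρ : PD ρ) :
    PD (fun x => m.corr F (star F) x * ρ x) := by
  intro n k ξ
  have h1 : ∑ i, ∑ j, ξ i * conj (ξ j) * (m.corr F (star F) (k i - k j) * ρ (k i - k j)) =
      m (∑ i, ∑ j, (ξ i * conj (ξ j) * ρ (k i - k j)) • ((F.sh (k j)) * (star F).sh (k i))) := by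
    simp only [map_sum]
    refine Finset.sum_congr rfl fun i _ => Finset.sum_congr rfl fun j _ => ?_
    rw [m.map_smul', corr_apply]
    have : m (F * (star F).sh (k i - k j)) = m (F.sh (k j) * (star F).sh (k i)) := by
      rw [← hm (k j)]
      congr 1
      ext x
      simp only [Bf.sh_apply, Bf.mul_apply]
      congr 2
      abel
    rw [this]; ring
  rw [h1]
  apply m.nonneg'
  intro x
  have h2 := hρ n k (fun i => ξ i * conj (F (x + k i)))
  convert h2 using 1
  simp only [Bf.sum_apply, Bf.smul_apply, Bf.mul_apply, Bf.sh_apply, Bf.star_apply]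
  refine Finset.sum_congr rfl fun i _ => Finset.sum_congr rfl fun j _ => ?_
  rw [map_mul, Complex.conj_conj]; ring

lemma pd_one : PD (fun _ : G => (1:ℂ)) := by
  intro n k ξ
  have : ∑ i, ∑ j, ξ i * conj (ξ j) * (1:ℂ) = (∑ i, ξ i) * conj (∑ i, ξ i) := by
    rw [map_sum, Finset.sum_mul_sum]; simp
  rw [this, Complex.mul_conj]
  exact_mod_cast Complex.normSq_nonneg _

lemma pd_corr' (hm : m.Inv) (F : Bf G) : PD (m.corr F (star F)) := by
  have := m.pd_corr hm F pd_one
  simp only [mul_one] at this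
  exact this

lemma pd_mean_le (hm : m.Inv) (c : Bf G) (hc : PD c) (n : ℕ) (k : Fin n → G) :
    (n : ℝ) ^ 2 * (m c).re ≤ ∑ i, ∑ j, (c (k i - k j)).re := by
  have h1 := m.re_mono (∑ i, ∑ j, c.sh (k i - k j))
    (Bf.const G ((∑ i, ∑ j, (c (k i - k j)).re : ℝ) : ℂ)) (fun x => by
      have h2 := (Complex.nonneg_iff.1 (hc.fintype (ι := Fin n ⊕ Fin n)
        (Sum.elim (fun i => k i + x) k) (Sum.elim (fun _ => 1) (fun _ => -1)))).1
      simp only [Fintype.sum_sum_type, Sum.elim_inl, Sum.elim_inr, map_one, one_mul, map_neg,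
        neg_mul, mul_neg, neg_neg] at h2
      rw [Complex.add_re, Complex.re_sum, Complex.re_sum] at h2
      simp only [Complex.add_re, Complex.re_sum, Complex.neg_re, Finset.sum_add_distrib,
        Finset.sum_neg_distrib] at h2
      have e1 : ∀ i j, k i + x - (k j + x) = k i - k j := fun i j => by abel
      have e2 : ∀ i j, (c (k i - (k j + x))).re = (c (x + (k j - k i))).re := by
        intro i j
        have : k i - (k j + x) = -(x + (k j - k i)) := by abel
        rw [this, hc.herm, Complex.conj_re]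
      have e3 : ∀ i j, k i + x - k j = x + (k i - k j) := fun i j => by abel
      simp only [e1, e2, e3] at h2
      rw [Finset.sum_comm (f := fun i j => (c (x + (k j - k i))).re)] at h2
      simp only [Bf.sum_apply, Bf.sh_apply, Complex.re_sum, Bf.const_apply, Complex.ofReal_re]
      linarith)
  rw [m.const', Complex.ofReal_re] at h1
  simp only [map_sum] at h1
  have hsh : ∀ g, m (c.sh g) = m c := fun g => hm _ _
  simp only [hsh, Finset.sum_const, Finset.card_univ, Fintype.card_fin, nsmul_eq_mul] at h1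
  rw [← mul_assoc, ← Nat.cast_mul, ← Complex.ofReal_natCast, Complex.re_ofReal_mul] at h1
  calc (n : ℝ) ^ 2 * (m c).re = ((n * n : ℕ) : ℝ) * (m c).re := by push_cast; ring
    _ ≤ _ := h1

/-- bounded function from a normalised positive definite function -/
def toB (ρ : G → ℂ) : Bf G := by
  classical
  exact if h : ∀ x, ‖ρ x‖ ≤ 1 then Bf.mk' ρ 1 h else 0

lemma toB_apply {ρ : G → ℂ} (hρ : ρ ∈ NPD G) (x : G) : toB ρ x = ρ x := by
  classical
  unfold toB
  rw [dif_pos (NPD.norm_le hρ)]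
  rfl

/-- the functional to be maximised -/
def wf (F : Bf G) (ρ : G → ℂ) : ℝ := (m (m.corr F (star F) * toB ρ)).re

/-- finite version of the functional -/
def nf (F : Bf G) (n : ℕ) (k : Fin n → G) (ρ : G → ℂ) : ℝ :=
  ∑ i, ∑ j, (m.corr F (star F) (k i - k j) * ρ (k i - k j)).re

lemma wf_le (hm : m.Inv) (F : Bf G) {ρ : G → ℂ} (hρ : ρ ∈ NPD G) (n : ℕ) (k : Fin n → G) :
    (n : ℝ) ^ 2 * m.wf F ρ ≤ m.nf F n k ρ := by
  have := m.pd_mean_le hm (m.corr F (star F) * toB ρ) (by
    have := m.pd_corr hm F hρ.1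
    convert this using 2 with x
    rw [Bf.mul_apply, toB_apply hρ]) n k
  simp only [Bf.mul_apply, toB_apply hρ] at this
  exact this

lemma exists_nf_le (hm : m.Inv) (F : Bf G) {ρ : G → ℂ} (hρ : ρ ∈ NPD G) (V : ℝ)
    (hV : m.wf F ρ < V) : ∃ (n : ℕ) (k : Fin n → G), 0 < n ∧ m.nf F n k ρ < (n : ℝ) ^ 2 * V := by
  obtain ⟨V', hV1, hV2⟩ := exists_between hV
  have hpd : PD (m.corr F (star F) * toB ρ : Bf G) := by
    have := m.pd_corr hm F hρ.1
    convert this using 2 with x
    rw [Bf.mul_apply, toB_apply hρ]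
  obtain ⟨n, k, hn, -, hs⟩ := seq m hm (⊤ : AddSubgroup G) (m.corr F (star F) * toB ρ)
    (fun x => by rw [hpd.herm, Complex.conj_re]) V' (by
      have h1 : cosInd (⊤ : AddSubgroup G) 0 = 1 := by
        ext x
        rw [cosInd_zero_mem _ (AddSubgroup.mem_top x), Bf.one_apply]
      rw [h1, one_mul, AddSubgroup.index_top]
      simpa [wf] using hV1)
  refine ⟨n, k, hn, ?_⟩
  simp only [Bf.mul_apply, toB_apply hρ] at hs
  have hn' : (0:ℝ) < (n:ℝ) ^ 2 := by positivity
  calc m.nf F n k ρ ≤ (n : ℝ) ^ 2 * V' := hs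
    _ < _ := by exact mul_lt_mul_of_pos_left hV2 hn'

lemma continuous_nf (F : Bf G) (n : ℕ) (k : Fin n → G) : Continuous (m.nf F n k) := by
  unfold nf
  fun_prop

lemma usc_wf (hm : m.Inv) (F : Bf G) : UpperSemicontinuousOn (m.wf F) (NPD G) := by
  intro ρ hρ V hV
  obtain ⟨n, k, hn, hlt⟩ := m.exists_nf_le hm F hρ V hV
  have hev : ∀ᶠ σ in 𝓝 ρ, m.nf F n k σ < (n : ℝ) ^ 2 * V :=
    (m.continuous_nf F n k).continuousAt.eventually_lt continuousAt_const hlt
  filter_upwards [mem_nhdsWithin_of_mem_nhds hev, self_mem_nhdsWithin] with σ hσ hσ'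
  have h1 := m.wf_le hm F hσ' n k
  have hn' : (0:ℝ) < (n:ℝ) ^ 2 := by positivity
  have h2 : (n : ℝ) ^ 2 * m.wf F σ < (n : ℝ) ^ 2 * V := lt_of_le_of_lt h1 hσ
  exact lt_of_mul_lt_mul_left h2 hn'.le

lemma wf_affine (F : Bf G) {ρ σ τ : G → ℂ} (hρ : ρ ∈ NPD G) (hσ : σ ∈ NPD G) (hτ : τ ∈ NPD G)
    (a b : ℝ) (h : a • ρ + b • σ = τ) : m.wf F τ = a * m.wf F ρ + b * m.wf F σ := by
  have h1 : m.corr F (star F) * toB τ =
      (a : ℂ) • (m.corr F (star F) * toB ρ) + (b : ℂ) • (m.corr F (star F) * toB σ) := by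
    ext x
    simp only [Bf.mul_apply, Bf.add_apply, Bf.smul_apply, toB_apply hρ, toB_apply hσ,
      toB_apply hτ]
    rw [← h]
    simp only [Pi.add_apply, Pi.smul_apply, Complex.real_smul]
    ring
  rw [wf, h1, map_add, m.map_smul', m.map_smul', Complex.add_re, Complex.re_ofReal_mul,
    Complex.re_ofReal_mul]
  rfl

/-- some character maximises the functional -/
lemma exists_char_max (hm : m.Inv) (F : Bf G) {ρ₀ : G → ℂ} (hρ₀ : ρ₀ ∈ NPD G) :
    ∃ ψ : AddChar G Circle, m.wf F ρ₀ ≤ (m (m.corr F (star F) * ch ψ)).re := by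
  obtain ⟨ρ₁, hρ₁, hmax⟩ := UpperSemicontinuousOn.exists_isMaxOn ⟨ρ₀, hρ₀⟩ isCompact_NPD
    (m.usc_wf hm F)
  set S : Set (G → ℂ) := {ρ | ρ ∈ NPD G ∧ m.wf F ρ₁ ≤ m.wf F ρ} with hS
  have hSeq : S = NPD G ∩ ⋂ n : ℕ, ⋂ k : Fin n → G,
      {ρ | (n : ℝ) ^ 2 * m.wf F ρ₁ ≤ m.nf F n k ρ} := by
    ext ρ
    simp only [hS, Set.mem_ofPred_eq, Set.mem_inter_iff, Set.mem_iInter]
    constructor
    · rintro ⟨h1, h2⟩
      refine ⟨h1, fun n k => le_trans ?_ (m.wf_le hm F h1 n k)⟩
      exact mul_le_mul_of_nonneg_left h2 (by positivity)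
    · rintro ⟨h1, h2⟩
      refine ⟨h1, ?_⟩
      by_contra hcon
      push Not at hcon
      obtain ⟨n, k, hn, hlt⟩ := m.exists_nf_le hm F h1 _ hcon
      exact absurd (h2 n k) (not_le.2 hlt)
  have hScomp : IsCompact S := by
    rw [hSeq]
    exact isCompact_NPD.inter_right (isClosed_iInter fun n => isClosed_iInter fun k =>
      isClosed_le continuous_const (m.continuous_nf F n k))
  obtain ⟨ψ, hψ⟩ := hScomp.extremePoints_nonempty ⟨ρ₁, hρ₁, le_rfl⟩
  have hext : ψ ∈ (NPD G).extremePoints ℝ := by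
    refine ⟨hψ.1.1, ?_⟩
    intro σ hσ τ hτ hseg
    obtain ⟨a, b, ha, hb, hab, he⟩ := hseg
    have h1 := m.wf_affine F hσ hτ hψ.1.1 a b he
    have h2 : m.wf F σ ≤ m.wf F ρ₁ := hmax hσ
    have h3 : m.wf F τ ≤ m.wf F ρ₁ := hmax hτ
    have h4 := hψ.1.2
    have h5 : m.wf F ρ₁ ≤ m.wf F σ := by
      by_contra hcon
      push Not at hcon
      have : m.wf F ψ < m.wf F ρ₁ := by
        rw [h1]
        calc a * m.wf F σ + b * m.wf F τ < a * m.wf F ρ₁ + b * m.wf F ρ₁ :=
              add_lt_add_of_lt_of_le (mul_lt_mul_of_pos_left hcon ha)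
                (mul_le_mul_of_nonneg_left h3 hb.le)
          _ = m.wf F ρ₁ := by rw [← add_mul, hab, one_mul]
      linarith
    have h6 : m.wf F ρ₁ ≤ m.wf F τ := by
      by_contra hcon
      push Not at hcon
      have : m.wf F ψ < m.wf F ρ₁ := by
        rw [h1]
        calc a * m.wf F σ + b * m.wf F τ < a * m.wf F ρ₁ + b * m.wf F ρ₁ :=
              add_lt_add_of_le_of_lt (mul_le_mul_of_nonneg_left h2 ha.le)
                (mul_lt_mul_of_pos_left hcon hb)
          _ = m.wf F ρ₁ := by rw [← add_mul, hab, one_mul]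
      linarith
    exact hψ.2 ⟨hσ, h5⟩ ⟨hτ, h6⟩ ⟨a, b, ha, hb, hab, he⟩
  obtain ⟨χ, hχ⟩ := NPD.exists_char hext
  refine ⟨χ, ?_⟩
  have h1 : toB ψ = ch χ := by
    ext x; rw [toB_apply hψ.1.1, ch_apply, hχ]
  rw [← h1]
  exact (hmax hρ₀).trans hψ.1.2

lemma corr_char (herg : m.Erg) (F : Bf G) (ψ : AddChar G Circle) :
    (m (m.corr F (star F) * ch ψ)).re = ‖m (F * star (ch ψ))‖ ^ 2 := by
  have h1 : m.corr F (star F) * ch ψ = m.corr (F * star (ch ψ)) (star (F * star (ch ψ))) := by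
    ext k
    rw [Bf.mul_apply, corr_apply, corr_apply, mul_comm, ← m.map_smul']
    congr 1
    ext x
    simp only [Bf.smul_apply, Bf.mul_apply, Bf.sh_apply, Bf.star_apply, ch_apply, map_mul,
      Complex.conj_conj, AddChar.map_add_eq_mul, Circle.coe_mul]
    have : conj (ψ x : ℂ) * (ψ x : ℂ) = 1 := by
      rw [mul_comm, Complex.mul_conj, Circle.normSq_coe]; simp
    linear_combination (-(F x * conj (F (x + k)) * (ψ k : ℂ))) * this
  rw [h1, herg, m.star', Complex.mul_conj, Complex.normSq_eq_norm_sq, Complex.ofReal_re]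

/-- Wiener type lemma -/
theorem wiener (hm : m.Inv) (herg : m.Erg) (F : Bf G) :
    ∃ ψ : AddChar G Circle,
      m.sq (m.corr F (star F)) ≤ m.sq F * ‖m (F * star (ch ψ))‖ ^ 2 := by
  have hpd := m.pd_corr' hm F
  have h0 : m.corr F (star F) 0 = (m.sq F : ℂ) := by
    have h1 := Complex.nonneg_iff.1 hpd.zero_nonneg
    have h2 : (m.corr F (star F) 0).re = m.sq F := by
      rw [corr_apply, sq]; congr 2
      ext x; simp
    apply Complex.ext
    · simpa using h2
    · simpa using h1.2.symm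
  rcases (m.sq_nonneg F).eq_or_lt with hz | hpos
  · refine ⟨1, ?_⟩
    rw [← hz, zero_mul]
    have h1 : m.corr F (star F) = 0 := by
      ext x
      exact hpd.eq_zero (by rw [h0, ← hz]; simp) x
    rw [h1, sq, zero_mul, map_zero]; simp
  · have hpd2 : PD (fun x => conj (m.corr F (star F) x)) := by
      have := m.pd_corr' hm (star F)
      convert this using 2 with x
      rw [star_star, corr_apply, corr_apply, ← m.star']
      congr 1
      ext y; simp
    have hne : (m.sq F : ℂ) ≠ 0 := by exact_mod_cast hpos.ne'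
    have hρ : (fun x => (((m.sq F)⁻¹ : ℝ) : ℂ) * conj (m.corr F (star F) x)) ∈ NPD G := by
      refine ⟨hpd2.smul (inv_nonneg.2 hpos.le), ?_⟩
      show (((m.sq F)⁻¹ : ℝ) : ℂ) * conj (m.corr F (star F) 0) = 1
      rw [h0, Complex.conj_ofReal]; push_cast; field_simp
    obtain ⟨ψ, hψ⟩ := m.exists_char_max hm F hρ
    refine ⟨ψ, ?_⟩
    rw [m.corr_char herg] at hψ
    have h2 : m.wf F (fun x => (((m.sq F)⁻¹ : ℝ) : ℂ) * conj (m.corr F (star F) x)) =
        (m.sq F)⁻¹ * m.sq (m.corr F (star F)) := by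
      show (m _).re = (m.sq F)⁻¹ * (m (_ * _)).re
      rw [← Complex.re_ofReal_mul, ← m.map_smul']
      congr 2
      ext x
      simp only [Bf.mul_apply, Bf.smul_apply, toB_apply hρ, Bf.star_apply]
      ring
    rw [h2, inv_mul_le_iff₀ hpos] at hψ
    exact hψ

end Mn

end

end Pool.Agent.H64.Bohr
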